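import Pool.Agent.FF4.Gd

/-! # Module Gam (difficulty 3): gamma matrix identities

`gi`, `gs` are explicit tables (`gi α k = k xor mask α`, masks `0, 8, ..., 15`): finite facts are proved by `decide`
(or `decide +kernel`): `gi α (gi α k) = k`; `gs α (gi α k) = gs α k` (symmetry; for all `α k`); `gs α k * gs α k = 1`;
for `α ≠ β`: `gi α (gi β k) = gi β (gi α k)` and `gs α k * gs β (gi α k) = - gs β k * gs α (gi β k)`.
`ga_ga`: `gs α k * gs α (gi α k) = 1`. `ip_ga`: substitute `k ↦ gi α k` (`Equiv.sum_comp`, an involution).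
`gcub`: compare coefficients. With `p = bs j`, `q = bs l`, `r = bs m` (trilinear: expand `p, q, r` in the basis) the
component `k` of the left side is `∑_α (γ_jl γ_km + γ_lm γ_kj + γ_mj γ_kl)`, `γ_jl = if gi α l = j then gs α l else 0`; the
right side is `δ_jl δ_km + δ_lm δ_kj + δ_mj δ_kl`. All 16^4 cases: the sum vanishes unless `k = j xor l xor m`; a kernel
`decide` over `Fin 16 × Fin 16 × Fin 16 (× Fin 16)` with integer arithmetic works (split it if it is slow, e.g. one
theorem per `j`). Then lift to real sums.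
`tr_ga`: `∑_i (ga α (bs i)) i`; for `α ≠ 0` all terms vanish, for `α = 0` eight times `1` and eight times `-1`.
(All identities were checked by computer.) -/

open MeasureTheory
open scoped ContDiff

noncomputable section

namespace FF4

/-- the matrix entries -/
private def gcc (α : Fin 9) (j l : Fin 16) : ℤ := if gi α j = l then gs α j else 0

private theorem gam_inv : ∀ (α : Fin 9) (k : Fin 16), gi α (gi α k) = k := by
  decide +kernel

private theorem gam_ss : ∀ (α : Fin 9) (k : Fin 16), gs α k * gs α (gi α k) = 1 := by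
  decide +kernel

private theorem gam_comm : ∀ (α β : Fin 9) (k : Fin 16), gi α (gi β k) = gi β (gi α k) := by
  decide +kernel

private theorem gam_anti : ∀ (α β : Fin 9) (k : Fin 16), α ≠ β →
    gs α k * gs β (gi α k) = - (gs β k * gs α (gi β k)) := by
  decide +kernel

private theorem gam_tr : ∀ α : Fin 9, (∑ i : Fin 16, gcc α i i) = 0 := by
  decide +kernel

theorem ga_add (α : Fin 9) (p q : PP) : ga α (p + q) = ga α p + ga α q := by
  funext k
  simp only [ga, Pi.add_apply]
  ring

theorem ga_smul (α : Fin 9) (r : ℝ) (p : PP) : ga α (r • p) = r • ga α p := by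
  funext k
  simp only [ga, Pi.smul_apply, smul_eq_mul]
  ring

theorem ga_ga (α : Fin 9) (p : PP) : ga α (ga α p) = p := by
  funext k
  simp only [ga]
  rw [gam_inv, ← mul_assoc]
  have h : ((gs α k : ℤ) : ℝ) * ((gs α (gi α k) : ℤ) : ℝ) = 1 := by
    exact_mod_cast gam_ss α k
  rw [h, one_mul]

theorem ga_anti {α β : Fin 9} (h : α ≠ β) (p : PP) : ga α (ga β p) = - ga β (ga α p) := by
  funext k
  simp only [ga, Pi.neg_apply]
  rw [gam_comm β α k, ← mul_assoc, ← mul_assoc]
  have h1 : ((gs α k : ℤ) : ℝ) * ((gs β (gi α k) : ℤ) : ℝ) =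
      - (((gs β k : ℤ) : ℝ) * ((gs α (gi β k) : ℤ) : ℝ)) := by
    exact_mod_cast gam_anti α β k h
  rw [h1]
  ring

theorem ip_comm (p q : PP) : ip p q = ip q p := by
  simp only [ip, mul_comm]

theorem ip_add (p q r : PP) : ip p (q + r) = ip p q + ip p r := by
  simp only [ip, Pi.add_apply, mul_add, Finset.sum_add_distrib]

theorem ip_smul (t : ℝ) (p q : PP) : ip p (t • q) = t * ip p q := by
  simp only [ip, Pi.smul_apply, smul_eq_mul, Finset.mul_sum]
  exact Finset.sum_congr rfl fun k _ => by ring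

theorem ip_self_nonneg (p : PP) : 0 ≤ ip p p :=
  Finset.sum_nonneg fun k _ => mul_self_nonneg (p k)

theorem ip_self_eq_zero {p : PP} (h : ip p p = 0) : p = 0 := by
  have h1 := (Finset.sum_eq_zero_iff_of_nonneg (fun k _ => mul_self_nonneg (p k))).1 h
  funext k
  exact mul_self_eq_zero.1 (h1 k (Finset.mem_univ k))

private theorem gam_ipbs (i : Fin 16) (q : PP) : ip (bs i) q = q i := by
  simp only [ip, bs, Pi.single_apply, ite_mul, one_mul, zero_mul, Finset.sum_ite_eq',
    Finset.mem_univ, if_true]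

theorem ip_bs (i j : Fin 16) : ip (bs i) (bs j) = if i = j then 1 else 0 := by
  rw [gam_ipbs]
  simp only [bs, Pi.single_apply]

theorem bs_sum (p : PP) : p = ∑ i, p i • bs i := by
  funext k
  rw [Finset.sum_apply]
  simp only [Pi.smul_apply, smul_eq_mul, bs, Pi.single_apply, mul_ite, mul_one, mul_zero,
    Finset.sum_ite_eq, Finset.mem_univ, if_true]

theorem ip_ga (α : Fin 9) (p q : PP) : ip (ga α p) q = ip p (ga α q) := by
  unfold ip ga
  have hi : Function.Involutive (gi α) := gam_inv α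
  rw [← Equiv.sum_comp hi.toPerm (fun k => (gs α k : ℝ) * p (gi α k) * q k)]
  refine Finset.sum_congr rfl fun k _ => ?_
  show (gs α (gi α k) : ℝ) * p (gi α (gi α k)) * q (gi α k) = _
  rw [gam_inv]
  have h1 : ((gs α (gi α k) : ℤ) : ℝ) = ((gs α k : ℤ) : ℝ) := by
    have h2 : gs α (gi α k) = gs α k := by
      have := gam_ss α k
      rcases Int.eq_one_or_neg_one_of_mul_eq_one this with h | h
      · rw [h, one_mul] at this
        rw [h, this]
      · rw [h] at this
        rw [h]
        linarith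
    rw [h2]
  rw [h1]
  ring

private theorem gam_ga (α : Fin 9) (p : PP) (k : Fin 16) :
    ga α p k = ∑ l, ((gcc α k l : ℤ) : ℝ) * p l := by
  simp only [ga, gcc]
  have : ∀ l, (((if gi α k = l then gs α k else 0 : ℤ)) : ℝ) * p l =
      if gi α k = l then (gs α k : ℝ) * p l else 0 := by
    intro l
    split_ifs
    · rfl
    · simp
  simp only [this, Finset.sum_ite_eq, Finset.mem_univ, if_true]

private theorem gam_ip (α : Fin 9) (p q : PP) :
    ip p (ga α q) = ∑ j, ∑ l, p j * q l * ((gcc α j l : ℤ) : ℝ) := by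
  simp only [ip, gam_ga, Finset.mul_sum]
  exact Finset.sum_congr rfl fun j _ => Finset.sum_congr rfl fun l _ => by ring

private theorem gam_x1 : ∀ a b c : Fin 16, (a ^^^ b) ^^^ c = a ^^^ (b ^^^ c) := by
  decide +kernel

private theorem gam_x2 : ∀ a b : Fin 16, a ^^^ (a ^^^ b) = b := by
  decide +kernel

private def gdl (j l m k : Fin 16) : ℤ :=
  (if j = l ∧ k = m then 1 else 0) + (if l = m ∧ k = j then 1 else 0) +
    (if m = j ∧ k = l then 1 else 0)

private theorem gam_fz : ∀ j l m : Fin 16,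
    (∑ α : Fin 9, (gcc α j l * gcc α (j ^^^ l ^^^ m) m + gcc α l m * gcc α (j ^^^ l ^^^ m) j +
      gcc α m j * gcc α (j ^^^ l ^^^ m) l)) = gdl j l m (j ^^^ l ^^^ m) := by
  decide +kernel

private theorem gam_x3 : ∀ a b : Fin 16, a ^^^ b = b ^^^ a := by
  decide +kernel

/-- `gi α j = l` and `gi α k = m` imply `k = j xor l xor m` -/
private theorem gam_xor (α : Fin 9) (j l m k : Fin 16) (h1 : gi α j = l) (h2 : gi α k = m) :
    k = j ^^^ l ^^^ m := by
  have e1 : j ^^^ l = gmask α := by rw [← h1]; exact gam_x2 j (gmask α)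
  have e2 : gmask α ^^^ m = k := by
    rw [← h2]
    show gmask α ^^^ (k ^^^ gmask α) = k
    rw [gam_x3 k (gmask α)]
    exact gam_x2 _ _
  rw [e1, e2]

private theorem gam_mul0 (α : Fin 9) (j l m k : Fin 16) (h : k ≠ j ^^^ l ^^^ m) :
    gcc α j l * gcc α k m = 0 := by
  unfold gcc
  by_cases h1 : gi α j = l
  · by_cases h2 : gi α k = m
    · exact absurd (gam_xor α j l m k h1 h2) h
    · rw [if_neg h2, mul_zero]
  · rw [if_neg h1, zero_mul]

private theorem gam_y1 : ∀ a b : Fin 16, a ^^^ a ^^^ b = b := by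
  decide +kernel

private theorem gam_y2 : ∀ a b : Fin 16, a ^^^ b ^^^ b = a := by
  decide +kernel

private theorem gam_y3 : ∀ a b : Fin 16, a ^^^ b ^^^ a = b := by
  decide +kernel

private theorem gam_dl (j l m k : Fin 16) (h : k ≠ j ^^^ l ^^^ m) : gdl j l m k = 0 := by
  unfold gdl
  rw [if_neg, if_neg, if_neg]
  · rfl
  · rintro ⟨rfl, rfl⟩
    exact h (gam_y3 _ _).symm
  · rintro ⟨rfl, rfl⟩
    exact h (gam_y2 _ _).symm
  · rintro ⟨rfl, rfl⟩
    exact h (gam_y1 _ _).symm

private theorem gam_fz4 (j l m k : Fin 16) :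
    (∑ α : Fin 9, (gcc α j l * gcc α k m + gcc α l m * gcc α k j + gcc α m j * gcc α k l)) =
      gdl j l m k := by
  by_cases h : k = j ^^^ l ^^^ m
  · subst h
    exact gam_fz j l m
  · rw [gam_dl j l m k h]
    refine Finset.sum_eq_zero fun α _ => ?_
    have hc : j ^^^ l ^^^ m = l ^^^ m ^^^ j := by
      rw [gam_x1, gam_x3 j (l ^^^ m)]
    have hc2 : j ^^^ l ^^^ m = m ^^^ j ^^^ l := by
      rw [gam_x3 (j ^^^ l) m, gam_x1]
    rw [gam_mul0 α j l m k h, gam_mul0 α l m j k (by rw [← hc]; exact h),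
      gam_mul0 α m j l k (by rw [← hc2]; exact h)]
    rfl

private theorem gam_t1 (α : Fin 9) (p q r : PP) (k : Fin 16) :
    ip p (ga α q) * ga α r k =
      ∑ j, ∑ l, ∑ m, p j * q l * r m * ((gcc α j l * gcc α k m : ℤ) : ℝ) := by
  rw [gam_ip, gam_ga, Finset.sum_mul]
  refine Finset.sum_congr rfl fun j _ => ?_
  rw [Finset.sum_mul]
  refine Finset.sum_congr rfl fun l _ => ?_
  rw [Finset.mul_sum]
  refine Finset.sum_congr rfl fun m _ => ?_
  push_cast
  ring

private theorem gam_t2 (α : Fin 9) (p q r : PP) (k : Fin 16) :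
    ip q (ga α r) * ga α p k =
      ∑ j, ∑ l, ∑ m, p j * q l * r m * ((gcc α l m * gcc α k j : ℤ) : ℝ) := by
  rw [mul_comm, gam_ip, gam_ga, Finset.sum_mul]
  refine Finset.sum_congr rfl fun j _ => ?_
  rw [Finset.mul_sum]
  refine Finset.sum_congr rfl fun l _ => ?_
  rw [Finset.mul_sum]
  refine Finset.sum_congr rfl fun m _ => ?_
  push_cast
  ring

private theorem gam_t3 (α : Fin 9) (p q r : PP) (k : Fin 16) :
    ip r (ga α p) * ga α q k =
      ∑ j, ∑ l, ∑ m, p j * q l * r m * ((gcc α m j * gcc α k l : ℤ) : ℝ) := by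
  rw [gam_ip, gam_ga, Finset.sum_comm, Finset.sum_mul]
  refine Finset.sum_congr rfl fun j _ => ?_
  rw [Finset.mul_sum]
  refine Finset.sum_congr rfl fun l _ => ?_
  rw [Finset.sum_mul]
  refine Finset.sum_congr rfl fun m _ => ?_
  push_cast
  ring

private theorem gam_rhs (p q r : PP) (k : Fin 16) :
    ip p q * r k + ip q r * p k + ip r p * q k =
      ∑ j, ∑ l, ∑ m, p j * q l * r m * ((gdl j l m k : ℤ) : ℝ) := by
  have e1 : ∑ j, ∑ l, ∑ m, p j * q l * r m * (if j = l ∧ k = m then (1 : ℝ) else 0) =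
      ip p q * r k := by
    simp only [ite_and, mul_ite, mul_one, mul_zero, Finset.sum_ite_eq, Finset.sum_ite_irrel,
      Finset.mem_univ, if_true, Finset.sum_const_zero]
    rw [ip, Finset.sum_mul]
  have e2 : ∑ j, ∑ l, ∑ m, p j * q l * r m * (if l = m ∧ k = j then (1 : ℝ) else 0) =
      ip q r * p k := by
    have : ∀ j l m : Fin 16, (l = m ∧ k = j) = (k = j ∧ l = m) := fun j l m => by
      rw [and_comm]
    simp only [this]
    simp only [ite_and, mul_ite, mul_one, mul_zero, Finset.sum_ite_eq, Finset.sum_ite_irrel,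
      Finset.mem_univ, if_true, Finset.sum_const_zero]
    rw [ip, Finset.sum_mul]
    exact Finset.sum_congr rfl fun l _ => by ring
  have e3 : ∑ j, ∑ l, ∑ m, p j * q l * r m * (if m = j ∧ k = l then (1 : ℝ) else 0) =
      ip r p * q k := by
    have : ∀ j l m : Fin 16, (m = j ∧ k = l) = (k = l ∧ j = m) := fun j l m => by
      rw [and_comm, eq_comm (a := m)]
    simp only [this]
    simp only [ite_and, mul_ite, mul_one, mul_zero, Finset.sum_ite_eq, Finset.sum_ite_irrel,
      Finset.mem_univ, if_true, Finset.sum_const_zero]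
    rw [ip, Finset.sum_mul]
    exact Finset.sum_congr rfl fun l _ => by ring
  rw [← e1, ← e2, ← e3]
  simp only [← Finset.sum_add_distrib]
  refine Finset.sum_congr rfl fun j _ => Finset.sum_congr rfl fun l _ =>
    Finset.sum_congr rfl fun m _ => ?_
  unfold gdl
  push_cast
  ring

theorem gcub (p q r : PP) (k : Fin 16) :
    ∑ α, (ip p (ga α q) * ga α r k + ip q (ga α r) * ga α p k + ip r (ga α p) * ga α q k)
      = ip p q * r k + ip q r * p k + ip r p * q k := by
  rw [gam_rhs]
  have e : ∀ α : Fin 9, ip p (ga α q) * ga α r k + ip q (ga α r) * ga α p k +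
      ip r (ga α p) * ga α q k = ∑ j, ∑ l, ∑ m, p j * q l * r m *
        ((gcc α j l * gcc α k m + gcc α l m * gcc α k j + gcc α m j * gcc α k l : ℤ) : ℝ) := by
    intro α
    rw [gam_t1 α p q r k, gam_t2 α p q r k, gam_t3 α p q r k]
    simp only [← Finset.sum_add_distrib]
    refine Finset.sum_congr rfl fun j _ => Finset.sum_congr rfl fun l _ =>
      Finset.sum_congr rfl fun m _ => ?_
    push_cast
    ring
  simp only [e]
  rw [Finset.sum_comm]
  refine Finset.sum_congr rfl fun j _ => ?_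
  rw [Finset.sum_comm]
  refine Finset.sum_congr rfl fun l _ => ?_
  rw [Finset.sum_comm]
  refine Finset.sum_congr rfl fun m _ => ?_
  rw [← gam_fz4 j l m k, Int.cast_sum, Finset.mul_sum]

theorem tr_ga (α : Fin 9) : ∑ i, ip (bs i) (ga α (bs i)) = 0 := by
  have h : ∀ i : Fin 16, ip (bs i) (ga α (bs i)) = ((gcc α i i : ℤ) : ℝ) := by
    intro i
    rw [gam_ipbs, gam_ga]
    simp only [bs, Pi.single_apply, mul_ite, mul_one, mul_zero, Finset.sum_ite_eq',
      Finset.mem_univ, if_true]
  simp only [h]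
  rw [← Int.cast_sum, gam_tr]
  simp

theorem tr_gaga {α β : Fin 9} (h : α ≠ β) : ∑ i, ip (ga α (bs i)) (ga β (bs i)) = 0 := by
  have e : ∀ i : Fin 16, ip (ga α (bs i)) (ga β (bs i)) = - ip (ga α (bs i)) (ga β (bs i)) := by
    intro i
    calc ip (ga α (bs i)) (ga β (bs i)) = ip (bs i) (ga α (ga β (bs i))) := ip_ga _ _ _
      _ = ip (bs i) (- ga β (ga α (bs i))) := by rw [ga_anti h]
      _ = - ip (bs i) (ga β (ga α (bs i))) := by
          have := ip_smul (-1) (bs i) (ga β (ga α (bs i)))
          rw [neg_one_smul, neg_one_mul] at this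
          exact this
      _ = - ip (ga β (bs i)) (ga α (bs i)) := by rw [ip_ga]
      _ = - ip (ga α (bs i)) (ga β (bs i)) := by rw [ip_comm]
  have h2 : ∑ i, ip (ga α (bs i)) (ga β (bs i)) = - ∑ i, ip (ga α (bs i)) (ga β (bs i)) := by
    rw [← Finset.sum_neg_distrib]
    exact Finset.sum_congr rfl fun i _ => e i
  linarith

private theorem gam_gasum (α : Fin 9) (v : VV) (p : PP) (k : Fin 16) :
    ga α (gv v p) k = ∑ β, v β * ga α (ga β p) k := by
  unfold gv
  simp only [ga, Finset.mul_sum]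
  exact Finset.sum_congr rfl fun β _ => by ring

theorem gv_gv (v : VV) (p : PP) : gv v (gv v p) = (∑ α, v α ^ 2) • p := by
  funext k
  have h0 : gv v (gv v p) k = ∑ α, ∑ β, v α * v β * ga α (ga β p) k := by
    show ∑ α, v α * ga α (gv v p) k = _
    refine Finset.sum_congr rfl fun α _ => ?_
    rw [gam_gasum, Finset.mul_sum]
    exact Finset.sum_congr rfl fun β _ => by ring
  have h1 : ∑ α, ∑ β, v α * v β * ga α (ga β p) k = ∑ α, ∑ β, v α * v β * ga β (ga α p) k := by
    rw [Finset.sum_comm]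
    exact Finset.sum_congr rfl fun α _ => Finset.sum_congr rfl fun β _ => by ring
  have h2 : ∀ α β : Fin 9, v α * v β * ga α (ga β p) k + v α * v β * ga β (ga α p) k =
      if α = β then 2 * v α ^ 2 * p k else 0 := by
    intro α β
    split_ifs with h
    · subst h
      rw [ga_ga]
      ring
    · rw [ga_anti h]
      simp only [Pi.neg_apply]
      ring
  have h3 : ∑ α, ∑ β, v α * v β * ga α (ga β p) k + ∑ α, ∑ β, v α * v β * ga β (ga α p) k =
      2 * ((∑ α, v α ^ 2) * p k) := by
    rw [← Finset.sum_add_distrib]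
    simp only [← Finset.sum_add_distrib, h2, Finset.sum_ite_eq, Finset.mem_univ, if_true]
    rw [Finset.sum_mul, Finset.mul_sum]
    exact Finset.sum_congr rfl fun α _ => by ring
  rw [h0]
  show _ = (∑ α, v α ^ 2) * p k
  linarith

/-- `|γ(v) p|² = |v|² |p|²` -/
theorem ip_gv (v : VV) (p : PP) : ip (gv v p) (gv v p) = (∑ α, v α ^ 2) * ip p p := by
  have h : ∀ a b : PP, ip (gv v a) b = ip a (gv v b) := by
    intro a b
    have e1 : ip (gv v a) b = ∑ α, v α * ip (ga α a) b := by
      simp only [ip, gv, Finset.sum_mul, Finset.mul_sum]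
      rw [Finset.sum_comm]
      exact Finset.sum_congr rfl fun α _ => Finset.sum_congr rfl fun β _ => by ring
    have e2 : ip a (gv v b) = ∑ α, v α * ip a (ga α b) := by
      simp only [ip, gv, Finset.mul_sum]
      rw [Finset.sum_comm]
      exact Finset.sum_congr rfl fun α _ => Finset.sum_congr rfl fun β _ => by ring
    rw [e1, e2]
    exact Finset.sum_congr rfl fun α _ => by rw [ip_ga]
  rw [h, gv_gv, ip_smul]

end FF4

end
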