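import Pool.Agent.FF4.Gd
import Pool.Agent.FF4.Gam

/-! # Module Com (difficulty 3): calculus of the derivations `L_A`

The proofs are the same as in SPN/Com.lean (source in the tarball), simpler: `act A z` is replaced by `A z`. -/

open MeasureTheory
open scoped ContDiff

noncomputable section

namespace FF4

theorem LX_contDiff {m : EE → ℝ} (hm : ContDiff ℝ ∞ m) (A : Mt) : ContDiff ℝ ∞ (LX A m) := by
  have h1 : ContDiff ℝ ∞ (fderiv ℝ m) := hm.fderiv_right (by simp)
  exact (h1.clm_apply A.contDiff).neg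

theorem LX_add_left (A B : Mt) (m : EE → ℝ) (z : EE) :
    LX (A + B) m z = LX A m z + LX B m z := by
  have h : (A + B) z = A z + B z := rfl
  simp only [LX, h, map_add]
  ring

theorem LX_smul_left (r : ℝ) (A : Mt) (m : EE → ℝ) (z : EE) :
    LX (r • A) m z = r * LX A m z := by
  have h : (r • A) z = r • A z := rfl
  simp only [LX, h, map_smul, smul_eq_mul]
  ring

theorem LX_add {m m' : EE → ℝ} (hm : ContDiff ℝ ∞ m) (hm' : ContDiff ℝ ∞ m') (A : Mt)
    (z : EE) : LX A (fun z => m z + m' z) z = LX A m z + LX A m' z := by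
  have h1 : DifferentiableAt ℝ m z := (hm.differentiable (by simp)) z
  have h2 : DifferentiableAt ℝ m' z := (hm'.differentiable (by simp)) z
  simp only [LX]
  rw [fderiv_fun_add h1 h2]
  simp only [_root_.add_apply]
  ring

theorem LX_cmul {m : EE → ℝ} (hm : ContDiff ℝ ∞ m) (r : ℝ) (A : Mt) (z : EE) :
    LX A (fun z => r * m z) z = r * LX A m z := by
  have h1 : DifferentiableAt ℝ m z := (hm.differentiable (by simp)) z
  simp only [LX]
  rw [fderiv_const_mul h1 r]
  simp only [_root_.smul_apply, smul_eq_mul]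
  ring

theorem LX_sum {ι : Type*} (s : Finset ι) {m : ι → EE → ℝ} (hm : ∀ i ∈ s, ContDiff ℝ ∞ (m i))
    (A : Mt) (z : EE) : LX A (fun z => ∑ i ∈ s, m i z) z = ∑ i ∈ s, LX A (m i) z := by
  have h1 : ∀ i ∈ s, DifferentiableAt ℝ (m i) z := fun i hi =>
    ((hm i hi).differentiable (by simp)) z
  simp only [LX]
  rw [fderiv_fun_sum h1]
  simp only [_root_.sum_apply, Finset.sum_neg_distrib]

theorem LX_comm {m : EE → ℝ} (hm : ContDiff ℝ ∞ m) (A B : Mt) (z : EE) :
    LX A (LX B m) z - LX B (LX A m) z = LX (A * B - B * A) m z := by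
  have hd : ContDiff ℝ ∞ (fderiv ℝ m) := hm.fderiv_right (by simp)
  have hdd : DifferentiableAt ℝ (fderiv ℝ m) z := (hd.differentiable (by simp)) z
  have key : ∀ A B : Mt, LX A (LX B m) z =
      fderiv ℝ (fderiv ℝ m) z (A z) (B z) + fderiv ℝ m z (B (A z)) := by
    intro A B
    have h1 : HasFDerivAt (fun z => - (fderiv ℝ m z (B z)))
        (-((fderiv ℝ m z).comp B + (fderiv ℝ (fderiv ℝ m) z).flip (B z))) z :=
      (hdd.hasFDerivAt.clm_apply B.hasFDerivAt).neg
    have h2 : fderiv ℝ (LX B m) z =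
        -((fderiv ℝ m z).comp B + (fderiv ℝ (fderiv ℝ m) z).flip (B z)) := h1.fderiv
    change - (fderiv ℝ (LX B m) z (A z)) = _
    rw [h2]
    simp only [_root_.neg_apply, _root_.add_apply,
      ContinuousLinearMap.comp_apply, ContinuousLinearMap.flip_apply]
    ring
  have hsym : fderiv ℝ (fderiv ℝ m) z (A z) (B z) =
      fderiv ℝ (fderiv ℝ m) z (B z) (A z) := by
    have h3 : IsSymmSndFDerivAt ℝ m z := by
      apply ContDiffAt.isSymmSndFDerivAt (n := ∞) hm.contDiffAt
      rw [minSmoothness_of_isRCLikeNormedField]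
      exact WithTop.coe_le_coe.mpr (le_top : (2 : ℕ∞) ≤ ⊤)
    exact h3 (A z) (B z)
  rw [key A B, key B A, hsym]
  have h4 : (A * B - B * A) z = A (B z) - B (A z) := rfl
  simp only [LX, h4, map_sub]
  ring

theorem LX_comp {m : EE → ℝ} (hm : ContDiff ℝ ∞ m) {A B g : Mt} (h : g * A = B * g)
    (z : EE) : LX A (fun z => m (g z)) z = LX B m (g z) := by
  have h1 : DifferentiableAt ℝ m (g z) := (hm.differentiable (by simp)) _
  have h2 : HasFDerivAt (fun z => m (g z)) ((fderiv ℝ m (g z)).comp g) z :=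
    h1.hasFDerivAt.comp z g.hasFDerivAt
  simp only [LX]
  rw [h2.fderiv]
  simp only [ContinuousLinearMap.comp_apply]
  have h3 : g (A z) = B (g z) := by
    have h4 : (g * A) z = (B * g) z := by rw [h]
    exact h4
  rw [h3]

theorem Xm_add (p q : PP) : Xm (p + q) = Xm p + Xm q := by
  refine ContinuousLinearMap.ext fun z => ?_
  have h : (Xm p + Xm q) z = Xm p z + Xm q z := rfl
  rw [h, Xm_apply, Xm_apply, Xm_apply]
  refine Prod.ext ?_ (Prod.ext ?_ ?_)
  · simp only [Prod.fst_add, ip, Pi.add_apply, add_mul, Finset.sum_add_distrib]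
    ring
  · funext α
    simp only [Prod.snd_add, Prod.fst_add, ip, Pi.add_apply, add_mul, Finset.sum_add_distrib]
    ring
  · funext k
    simp only [Prod.snd_add, Pi.add_apply, gv, ga]
    have h5 : ∀ α : Fin 9, z.2.1 α * ((gs α k : ℝ) * (p (gi α k) + q (gi α k))) =
        z.2.1 α * ((gs α k : ℝ) * p (gi α k)) + z.2.1 α * ((gs α k : ℝ) * q (gi α k)) := by
      intro α
      ring
    rw [Finset.sum_congr rfl fun α _ => h5 α, Finset.sum_add_distrib]
    ring

theorem Xm_smul (r : ℝ) (p : PP) : Xm (r • p) = r • Xm p := by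
  refine ContinuousLinearMap.ext fun z => ?_
  have h : (r • Xm p) z = r • Xm p z := rfl
  rw [h, Xm_apply, Xm_apply]
  refine Prod.ext ?_ (Prod.ext ?_ ?_)
  · simp only [Prod.smul_fst, ip, Pi.smul_apply, smul_eq_mul, Finset.mul_sum]
    refine Finset.sum_congr rfl fun i _ => ?_
    ring
  · funext α
    simp only [Prod.smul_snd, Prod.smul_fst, ip, Pi.smul_apply, smul_eq_mul, mul_neg,
      Finset.mul_sum, neg_inj]
    refine Finset.sum_congr rfl fun i _ => ?_
    ring
  · funext k
    simp only [Prod.smul_snd, Pi.smul_apply, smul_eq_mul, gv, ga, mul_sub, Finset.mul_sum]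
    congr 1
    · ring
    · refine Finset.sum_congr rfl fun i _ => ?_
      ring

theorem Dp_add_left (p q : PP) (m : EE → ℝ) (z : EE) :
    Dp (p + q) m z = Dp p m z + Dp q m z := by
  simp only [Dp, Xm_add, LX_add_left]

theorem Dp_smul_left (r : ℝ) (p : PP) (m : EE → ℝ) (z : EE) :
    Dp (r • p) m z = r * Dp p m z := by
  simp only [Dp, Xm_smul, LX_smul_left]

theorem Dp_sum_left {ι : Type*} (s : Finset ι) (p : ι → PP) (m : EE → ℝ) (z : EE) :
    Dp (∑ i ∈ s, p i) m z = ∑ i ∈ s, Dp (p i) m z := by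
  classical
  induction s using Finset.induction_on with
  | empty =>
    have h := Dp_smul_left 0 (0 : PP) m z
    simpa using h
  | insert a s ha ih =>
    rw [Finset.sum_insert ha, Finset.sum_insert ha, Dp_add_left, ih]

theorem Dp_contDiff {m : EE → ℝ} (hm : ContDiff ℝ ∞ m) (p : PP) :
    ContDiff ℝ ∞ (Dp p m) := by
  exact LX_contDiff hm (Xm p)

end FF4

end
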