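import Pool.Agent.FF4.Kst

/-! # Module Kcp (difficulty 4): `K` is compact, its Haar measure

`isCompact_KK`. By `kst` every `k ∈ K` satisfies `|mt k z| ≤ C |z|` for the Euclidean norm, so `‖mt k‖ ≤ C'` with a fixed
constant (norm equivalence: `‖z‖ ≤ sqrt (a² + |v|² + |ψ|²) ≤ 26 ‖z‖`), the same for `k⁻¹ ∈ K`. The map
`g ↦ (mt g, mt g⁻¹)` from `GG` to `Mt × Mt` is a closed embedding (`Units.isEmbedding_embedProduct`; the image of `GG` is
`{(A, B) | A B = 1, B A = 1, A preserves Qf, Cf}`, closed), and `K` is the preimage of a closed bounded set.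
`kap`: on the compact group `K` it is the Haar measure with total mass 1; the proof of `kp_kap` is in SPN/Kap.lean
(source in the tarball). -/

open MeasureTheory
open scoped ContDiff

noncomputable section

namespace FF4

theorem isClosed_KK : IsClosed (KK : Set GG) :=
  isClosed_eq (continuous_mt_apply e0) continuous_const

private theorem Kcp_bound {k : GG} (hk : k ∈ KK) : ‖mt k‖ ≤ 4 := by
  obtain ⟨A, B, hA, hB, -, hz⟩ := kst hk
  refine ContinuousLinearMap.opNorm_le_bound _ (by norm_num) fun z => ?_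
  rw [hz z]
  have hz1 : ‖z.1‖ ≤ ‖z‖ := norm_fst_le z
  have hz2 : ‖z.2‖ ≤ ‖z‖ := norm_snd_le z
  have hz3 : ‖z.2.1‖ ≤ ‖z‖ := (norm_fst_le z.2).trans hz2
  have hz4 : ‖z.2.2‖ ≤ ‖z‖ := (norm_snd_le z.2).trans hz2
  have h0 : 0 ≤ ‖z‖ := norm_nonneg z
  refine norm_prod_le_iff.2 ⟨?_, norm_prod_le_iff.2 ⟨?_, ?_⟩⟩
  · change ‖z.1‖ ≤ 4 * ‖z‖
    linarith
  · change ‖A z.2.1‖ ≤ 4 * ‖z‖
    rw [pi_norm_le_iff_of_nonneg (by positivity)]
    intro α
    rw [Real.norm_eq_abs]
    refine abs_le_of_sq_le_sq ?_ (by positivity)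
    have h1 : (A z.2.1 α) ^ 2 ≤ ∑ β, (A z.2.1 β) ^ 2 :=
      Finset.single_le_sum (f := fun β => (A z.2.1 β) ^ 2) (fun _ _ => sq_nonneg _)
        (Finset.mem_univ α)
    have h2 : ∑ β, (z.2.1 β) ^ 2 ≤ ∑ _β : Fin 9, ‖z‖ ^ 2 := by
      refine Finset.sum_le_sum fun β _ => ?_
      have h3 : ‖z.2.1 β‖ ≤ ‖z‖ := (norm_le_pi_norm z.2.1 β).trans hz3
      rw [Real.norm_eq_abs] at h3
      rw [← sq_abs]
      exact pow_le_pow_left₀ (abs_nonneg _) h3 2
    rw [Finset.sum_const, Finset.card_univ, Fintype.card_fin, nsmul_eq_mul] at h2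
    rw [hA] at h1
    push_cast at h2
    nlinarith [sq_nonneg ‖z‖]
  · change ‖B z.2.2‖ ≤ 4 * ‖z‖
    rw [pi_norm_le_iff_of_nonneg (by positivity)]
    intro α
    rw [Real.norm_eq_abs]
    refine abs_le_of_sq_le_sq ?_ (by positivity)
    have h1 : (B z.2.2 α) ^ 2 ≤ ∑ β, (B z.2.2 β) * (B z.2.2 β) := by
      rw [sq]
      exact Finset.single_le_sum (f := fun β => (B z.2.2 β) * (B z.2.2 β))
        (fun _ _ => mul_self_nonneg _) (Finset.mem_univ α)
    have h1' : ∑ β, (B z.2.2 β) * (B z.2.2 β) = ∑ β, z.2.2 β * z.2.2 β := hB z.2.2 z.2.2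
    have h2 : ∑ β, z.2.2 β * z.2.2 β ≤ ∑ _β : Fin 16, ‖z‖ ^ 2 := by
      refine Finset.sum_le_sum fun β _ => ?_
      have h3 : ‖z.2.2 β‖ ≤ ‖z‖ := (norm_le_pi_norm z.2.2 β).trans hz4
      rw [Real.norm_eq_abs] at h3
      rw [← sq, ← sq_abs]
      exact pow_le_pow_left₀ (abs_nonneg _) h3 2
    rw [Finset.sum_const, Finset.card_univ, Fintype.card_fin, nsmul_eq_mul] at h2
    rw [h1'] at h1
    push_cast at h2
    nlinarith [sq_nonneg ‖z‖]

private def Kcp_S : Set (Mt × Mt) :=
  {p | (p.1 * p.2 = 1 ∧ p.2 * p.1 = 1) ∧ (∀ z, Qf (p.1 z) = Qf z ∧ Cf (p.1 z) = Cf z) ∧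
    p.1 e0 = e0 ∧ p.1 ∈ Metric.closedBall (0 : Mt) 4 ∧ p.2 ∈ Metric.closedBall (0 : Mt) 4}

private theorem Kcp_S_closed : IsClosed Kcp_S := by
  have h : Kcp_S = (({p : Mt × Mt | p.1 * p.2 = 1} ∩ {p : Mt × Mt | p.2 * p.1 = 1}) ∩
      ((⋂ z : EE, ({p : Mt × Mt | Qf (p.1 z) = Qf z} ∩ {p : Mt × Mt | Cf (p.1 z) = Cf z})) ∩
      ({p : Mt × Mt | p.1 e0 = e0} ∩ ({p : Mt × Mt | p.1 ∈ Metric.closedBall (0 : Mt) 4} ∩
        {p : Mt × Mt | p.2 ∈ Metric.closedBall (0 : Mt) 4})))) := by
    ext p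
    simp only [Kcp_S, Set.mem_iInter, Set.mem_inter_iff, Set.mem_ofPred_eq]
  rw [h]
  have ha : ∀ z : EE, Continuous (fun p : Mt × Mt => p.1 z) := fun z =>
    (ContinuousLinearMap.apply ℝ EE z).continuous.comp continuous_fst
  refine IsClosed.inter (IsClosed.inter ?_ ?_) (IsClosed.inter ?_ (IsClosed.inter ?_
    (IsClosed.inter ?_ ?_)))
  · exact isClosed_eq (continuous_fst.mul continuous_snd) continuous_const
  · exact isClosed_eq (continuous_snd.mul continuous_fst) continuous_const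
  · refine isClosed_iInter fun z => IsClosed.inter ?_ ?_
    · exact isClosed_eq (continuous_Qf.comp (ha z)) continuous_const
    · exact isClosed_eq (continuous_Cf.comp (ha z)) continuous_const
  · exact isClosed_eq (ha e0) continuous_const
  · exact Metric.isClosed_closedBall.preimage continuous_fst
  · exact Metric.isClosed_closedBall.preimage continuous_snd

private theorem Kcp_S_compact : IsCompact Kcp_S := by
  refine IsCompact.of_isClosed_subset ((isCompact_closedBall (0 : Mt) 4).prod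
    (isCompact_closedBall (0 : Mt) 4)) Kcp_S_closed ?_
  intro p hp
  exact ⟨hp.2.2.2.1, hp.2.2.2.2⟩

private def Kcp_f (p : Kcp_S) : GG :=
  ⟨⟨p.1.1, p.1.2, p.2.1.1, p.2.1.2⟩, p.2.2.1⟩

private theorem Kcp_f_cont : Continuous Kcp_f := by
  refine continuous_induced_rng.2 (Units.continuous_iff.2 ⟨?_, ?_⟩)
  · exact continuous_fst.comp continuous_subtype_val
  · exact continuous_snd.comp continuous_subtype_val

theorem isCompact_KK : IsCompact (KK : Set GG) := by
  have : CompactSpace Kcp_S := isCompact_iff_compactSpace.1 Kcp_S_compact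
  have h1 : IsCompact (Set.range Kcp_f) := isCompact_range Kcp_f_cont
  have h2 : (KK : Set GG) = Set.range Kcp_f := by
    ext g
    constructor
    · intro hg
      have hb : (mt g, mt g⁻¹) ∈ Kcp_S := by
        refine ⟨⟨mt_mul_inv g, mt_inv_mul g⟩, fun z => ⟨mt_Q g z, mt_C g z⟩, hg, ?_, ?_⟩
        · rw [Metric.mem_closedBall, dist_zero_right]
          exact Kcp_bound hg
        · rw [Metric.mem_closedBall, dist_zero_right]
          exact Kcp_bound (KK.inv_mem hg)
      refine ⟨⟨_, hb⟩, ?_⟩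
      apply mt_injective
      rfl
    · rintro ⟨p, rfl⟩
      exact p.2.2.2.1
  rw [h2]
  exact h1

instance instCompactKK : CompactSpace KK := isCompact_iff_compactSpace.1 isCompact_KK

private theorem Kcp_kap : kap = Measure.haarMeasure (⊤ : TopologicalSpace.PositiveCompacts KK) := by
  unfold kap
  rw [dif_pos instCompactKK]

instance : kap.IsHaarMeasure := by
  rw [Kcp_kap]
  infer_instance

instance : IsProbabilityMeasure kap := by
  rw [Kcp_kap]
  refine ⟨?_⟩
  have h := Measure.haarMeasure_self (K₀ := (⊤ : TopologicalSpace.PositiveCompacts KK))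
  rwa [TopologicalSpace.PositiveCompacts.coe_top] at h

instance : kap.IsMulRightInvariant := by
  refine ⟨fun g => ?_⟩
  have : IsProbabilityMeasure (Measure.map (· * g) kap) :=
    Measure.isProbabilityMeasure_map (by fun_prop)
  exact Measure.isHaarMeasure_eq_of_isProbabilityMeasure _ _

private theorem Kcp_inv : kap.IsInvInvariant := by
  refine ⟨?_⟩
  have : IsProbabilityMeasure kap.inv :=
    Measure.isProbabilityMeasure_map (by fun_prop)
  have h1 : kap.inv.IsMulLeftInvariant := inferInstance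
  have : kap.inv.IsHaarMeasure :=
    { toIsMulLeftInvariant := h1
      lt_top_of_isCompact := fun s _ => measure_lt_top _ _
      open_pos := fun U hU hne => by
        rw [Measure.inv_apply]
        exact (hU.inv).measure_ne_zero _ hne.inv }
  exact Measure.isHaarMeasure_eq_of_isProbabilityMeasure _ _

theorem kp_kap : SPN.Kp KK kap :=
  ⟨inferInstance, inferInstance, inferInstance, Kcp_inv⟩

end FF4

end
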