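import Pool.Agent.FF4.Exg
import Pool.Agent.FF4.Kcp
import Pool.Agent.FF4.Com

/-! # Module Kin (difficulty 3): derivatives of `K`-invariant functions

Compare SPN/Kin.lean (source in the tarball). `exists_curve`: `c t = eg (t • Y)`; `mt (c t) = exp (t Y)` (`mt_eg`, `Ia.smul`), `exp (t Y) e0 = e0` since `Y e0 = 0`
(the derivative of `exp (t Y) e0` is `exp (t Y) Y e0 = 0`, or `NormedSpace.exp` series). `exp_der`.
`LX_K_zero`, `D_comm`, `D_triple`, `av_Y`: as in SPN/Kin.lean, with `Ia.bracket`, `Ym_e0`, `Xm_triple`. -/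

open MeasureTheory
open scoped ContDiff

noncomputable section

namespace FF4

theorem exists_curve {Y : Mt} (h1 : Ia Y) (h2 : Y e0 = 0) :
    ∃ c : ℝ → GG, c 0 = 1 ∧ (∀ t, c t ∈ KK) ∧
      ∀ t, HasDerivAt (fun s => mt (c s)) (Y * mt (c t)) t := by
  have hmt : ∀ t : ℝ, mt (eg (t • Y)) = NormedSpace.exp (t • Y) := fun t => mt_eg (h1.smul t)
  refine ⟨fun t => eg (t • Y), ?_, ?_, ?_⟩
  · apply mt_injective
    rw [hmt, zero_smul, NormedSpace.exp_zero, mt_one]
  · intro t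
    rw [mem_KK, hmt]
    have hder : ∀ s : ℝ, HasDerivAt (fun r : ℝ => (NormedSpace.exp (r • Y) : Mt) e0) 0 s := by
      intro s
      have h3 := hasDerivAt_exp_smul_const (𝕂 := ℝ) Y s
      have h4 := (ContinuousLinearMap.apply ℝ EE e0).hasFDerivAt.comp_hasDerivAt s h3
      have h5 : (ContinuousLinearMap.apply ℝ EE e0) (NormedSpace.exp (s • Y) * Y) = 0 := by
        show (NormedSpace.exp (s • Y) : Mt) (Y e0) = 0
        rw [h2, map_zero]
      rw [h5] at h4
      exact h4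
    have hconst := is_const_of_deriv_eq_zero (f := fun r : ℝ => (NormedSpace.exp (r • Y) : Mt) e0)
      (fun s => (hder s).differentiableAt) (fun s => (hder s).deriv) t 0
    have h6 : (NormedSpace.exp (t • Y) : Mt) e0 = (NormedSpace.exp ((0 : ℝ) • Y) : Mt) e0 := hconst
    rw [h6, zero_smul, NormedSpace.exp_zero]
    rfl
  · intro t
    have h3 : (fun s => mt (eg (s • Y))) = fun s : ℝ => NormedSpace.exp (s • Y) := by
      funext s
      exact hmt s
    show HasDerivAt (fun s => mt (eg (s • Y))) (Y * mt (eg (t • Y))) t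
    rw [h3, hmt]
    exact exp_der Y t

/-- the derivative of the curve `mt (c t) z` -/
private theorem kin_curve_act {c : ℝ → GG} {Y : Mt}
    (hc : ∀ t, HasDerivAt (fun s => mt (c s)) (Y * mt (c t)) t) (w : EE)
    (t : ℝ) : HasDerivAt (fun s => mt (c s) w) (Y (mt (c t) w)) t :=
  (ContinuousLinearMap.apply ℝ EE w).hasFDerivAt.comp_hasDerivAt t (hc t)

private theorem kin_curve_fun {c : ℝ → GG} {Y : Mt}
    (hc : ∀ t, HasDerivAt (fun s => mt (c s)) (Y * mt (c t)) t)
    {g : EE → ℝ} (hg : ContDiff ℝ ∞ g) (w : EE) (t : ℝ) :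
    HasDerivAt (fun s => g (mt (c s) w)) (- LX Y g (mt (c t) w)) t := by
  have h1 : HasFDerivAt g (fderiv ℝ g (mt (c t) w)) (mt (c t) w) :=
    (hg.differentiable (by simp) _).hasFDerivAt
  have h2 := h1.comp_hasDerivAt t (kin_curve_act hc w t)
  have h3 : - LX Y g (mt (c t) w)
      = fderiv ℝ g (mt (c t) w) (Y (mt (c t) w)) := by
    unfold LX
    rw [neg_neg]
  rw [h3]
  exact h2

theorem LX_K_zero {Y : Mt} (h1 : Ia Y) (h2 : Y e0 = 0) {m : EE → ℝ}
    (hm : ContDiff ℝ ∞ m) (hK : ∀ k ∈ KK, ∀ z, m (mt k z) = m z) (z : EE) :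
    LX Y m z = 0 := by
  obtain ⟨c, c0, cK, hc⟩ := exists_curve h1 h2
  have h3 := kin_curve_fun hc hm z 0
  have h4 : (fun s => m (mt (c s) z)) = fun _ => m z := by
    funext s
    exact hK _ (cK s) z
  rw [h4] at h3
  have h5 := h3.unique (hasDerivAt_const (0 : ℝ) (m z))
  have h6 : mt (c 0) z = z := by
    rw [c0, mt_one]
    rfl
  rw [h6] at h5
  linarith

theorem D_comm {m : EE → ℝ} (hm : ContDiff ℝ ∞ m)
    (hK : ∀ k ∈ KK, ∀ z, m (mt k z) = m z) (p q : PP) (z : EE) :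
    Dp p (Dp q m) z = Dp q (Dp p m) z := by
  have h1 := LX_comm hm (Xm p) (Xm q) z
  have h2 : LX (Xm p * Xm q - Xm q * Xm p) m z = 0 :=
    LX_K_zero (Y := Ym p q) ((Ia_Xm p).bracket (Ia_Xm q)) (Ym_e0 p q) hm hK z
  rw [h2] at h1
  unfold Dp
  linarith

theorem D_triple {m : EE → ℝ} (hm : ContDiff ℝ ∞ m)
    (hK : ∀ k ∈ KK, ∀ z, m (mt k z) = m z) (p q r : PP) (z : EE) :
    Dp p (Dp q (Dp r m)) z - Dp q (Dp p (Dp r m)) z = Dp (tp p q r) m z := by
  have h1 := LX_comm (Dp_contDiff hm r) (Xm p) (Xm q) z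
  have h2 := LX_comm hm (Ym p q) (Xm r) z
  have h3 : LX (Ym p q) m = fun _ => 0 := by
    funext w
    exact LX_K_zero ((Ia_Xm p).bracket (Ia_Xm q)) (Ym_e0 p q) hm hK w
  have h4 : LX (Xm r) (fun _ => (0 : ℝ)) z = 0 := by
    unfold LX
    simp
  rw [h3, h4, sub_zero, Xm_triple] at h2
  unfold Dp at h1 ⊢
  rw [h1]
  exact h2

theorem av_Y {Y : Mt} (h1 : Ia Y) (h2 : Y e0 = 0) {g : EE → ℝ}
    (hg : ContDiff ℝ ∞ g) (z : EE) :
    ∫ k : KK, LX Y g (mt ((k : GG)⁻¹) z) ∂kap = 0 := by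
  obtain ⟨c, c0, cK, hc⟩ := exists_curve h1 h2
  -- continuity
  have hcont : ∀ f : EE → ℝ, Continuous f → ∀ a : GG,
      Continuous fun k : KK => f (mt (a * (k : GG)⁻¹) z) := by
    intro f hf a
    exact hf.comp ((continuous_mt_apply z).comp (continuous_const.mul (continuous_subtype_val.inv)))
  have hLX : Continuous (LX Y g) := (LX_contDiff hg Y).continuous
  -- the bound
  obtain ⟨C, hC⟩ : ∃ C : ℝ, ∀ k : KK, ‖LX Y g (mt ((k : GG)⁻¹) z)‖ ≤ C := by
    have h4 : Continuous fun k : KK => LX Y g (mt ((k : GG)⁻¹) z) := by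
      have := hcont _ hLX 1
      simpa using this
    obtain ⟨C, hC⟩ := (isCompact_range h4.norm).bddAbove
    exact ⟨C, fun k => hC ⟨k, rfl⟩⟩
  have key := hasDerivAt_integral_of_dominated_loc_of_deriv_le (μ := kap) (x₀ := (0 : ℝ))
    (s := Set.univ) (bound := fun _ => C)
    (F := fun (t : ℝ) (k : KK) => g (mt (c t * (k : GG)⁻¹) z))
    (F' := fun (t : ℝ) (k : KK) => - LX Y g (mt (c t * (k : GG)⁻¹) z))
    Filter.univ_mem
    (Filter.Eventually.of_forall fun t =>
      ((hcont g hg.continuous (c t)).aestronglyMeasurable))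
    ((hcont g hg.continuous (c 0)).integrable_of_hasCompactSupport (HasCompactSupport.of_compactSpace _))
    ((hcont _ hLX (c 0)).neg.aestronglyMeasurable)
    (Filter.Eventually.of_forall fun k t _ => by
      rw [norm_neg]
      have := hC ((k : KK) * ⟨c t, cK t⟩⁻¹)
      simpa [_root_.mul_inv_rev] using this)
    (integrable_const _)
    (Filter.Eventually.of_forall fun k t _ => by
      have h5 := kin_curve_fun hc hg (mt ((k : GG)⁻¹) z) t
      exact h5)
  have h6 : (fun t : ℝ => ∫ k : KK, g (mt (c t * (k : GG)⁻¹) z) ∂kap)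
      = fun _ => ∫ k : KK, g (mt ((k : GG)⁻¹) z) ∂kap := by
    funext t
    have h7 := MeasureTheory.integral_mul_right_eq_self (μ := kap)
      (fun k : KK => g (mt ((k : GG)⁻¹) z)) (⟨c t, cK t⟩⁻¹ : KK)
    rw [← h7]
    refine integral_congr_ae (Filter.Eventually.of_forall fun k => ?_)
    simp [_root_.mul_inv_rev]
  have h8 := key.2
  rw [h6] at h8
  have h9 := h8.unique (hasDerivAt_const (0 : ℝ) _)
  rw [integral_neg, neg_eq_zero] at h9
  rw [← h9]
  refine integral_congr_ae (Filter.Eventually.of_forall fun k => ?_)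
  simp [c0]

end FF4

end
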