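import Pool.Agent.FF4.Gam

/-! # Module Trc (difficulty 3): trace identities, `[p,q,r] = tp p q r`

`tp p q r = 3 <q,r> p - 3 <p,r> q + ∑_β (<q, γ_β r> γ_β p - <p, γ_β r> γ_β q)`.
Basis sums: `∑_e <e, A p> B e = B A p` for linear maps (`A p = ∑_e <e, A p> e`), `∑_e <e, γ_β e> = 0` (`tr_ga`), `∑_e <e, e> = 16`,
`∑_e <γ_β e, γ_α e> = 16 δ_αβ` (`tr_gaga`, `ip_ga`, `ga_ga`).
`tr_c`: `∑_f tp f p f = 3 p - 48 p + ∑_β (γ_β γ_β p - 0) = -45 p + 9 p = -36 p`.
`tr_v`: `∑_e tp (γ_α p) e (γ_α e) = 3·0 - 3 p + ∑_β (16 δ_αβ γ_β γ_α p - γ_β γ_α γ_β γ_α p) = -3 p + 16 p + 7 p = 20 p`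
(`γ_β γ_α γ_β γ_α = 1` for `β = α` and `-1` for the 8 other `β`), and
`∑_e tp (γ_α e) e (γ_α p) = 3 γ_α γ_α p - 3 p + ∑_β (γ_β γ_α γ_β γ_α p - γ_β γ_α γ_β γ_α p) = 0`. -/

open MeasureTheory
open scoped ContDiff

noncomputable section

namespace FF4

private theorem Trc_ip_bs (u : PP) (i : Fin 16) : ip u (bs i) = u i := by
  simp [ip, bs, Pi.single_apply]

private theorem Trc_key0 (u : PP) (k : Fin 16) : ∑ i, u i * bs i k = u k := by
  simp [bs, Pi.single_apply]

private theorem Trc_key1 (α : Fin 9) (u : PP) (k : Fin 16) :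
    ∑ i, u i * ga α (bs i) k = ga α u k := by
  simp [ga, bs, Pi.single_apply, mul_comm]

private theorem Trc_key2 (α β : Fin 9) (u : PP) (k : Fin 16) :
    ∑ i, u i * ga β (ga α (bs i)) k = ga β (ga α u) k := by
  simp [ga, bs, Pi.single_apply, mul_comm]
  ring

private theorem Trc_add1 (p p' r : PP) : ip (p + p') r = ip p r + ip p' r := by
  rw [ip_comm, ip_add, ip_comm r p, ip_comm r p']

private theorem Trc_smul1 (t : ℝ) (p r : PP) : ip (t • p) r = t * ip p r := by
  rw [ip_comm, ip_smul, ip_comm r p]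

theorem tr_c (p : PP) : ∑ i, tp (bs i) p (bs i) = (-36 : ℝ) • p := by
  funext k
  rw [Finset.sum_apply]
  simp only [tp, Pi.smul_apply, smul_eq_mul]
  have e1 : ∀ i : Fin 16, ip p (bs i) = p i := fun i => Trc_ip_bs p i
  have e2 : ∀ i : Fin 16, ip (bs i) (bs i) = 1 := fun i => by rw [ip_bs]; simp
  have e3 : ∀ (i : Fin 16) (α : Fin 9), ip p (ga α (bs i)) = ga α p i := fun i α => by
    rw [← ip_ga, Trc_ip_bs]
  simp only [e1, e2, e3]
  rw [Finset.sum_add_distrib, Finset.sum_sub_distrib, Finset.sum_comm]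
  have h1 : ∑ i : Fin 16, 3 * p i * bs i k = 3 * p k := by
    rw [← Trc_key0 p k, Finset.mul_sum]
    exact Finset.sum_congr rfl fun i _ => by ring
  have h2 : ∀ α : Fin 9, ∑ i : Fin 16, (ga α p i * ga α (bs i) k
      - ip (bs i) (ga α (bs i)) * ga α p k) = p k := by
    intro α
    rw [Finset.sum_sub_distrib, Trc_key1, ga_ga, ← Finset.sum_mul, tr_ga]
    ring
  rw [h1, Finset.sum_congr rfl fun α _ => h2 α]
  simp
  ring

private theorem Trc_four (α β : Fin 9) (p : PP) (h : β ≠ α) :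
    ga β (ga α (ga β (ga α p))) = -p := by
  rw [ga_anti h.symm (ga α p), ga_ga]
  have h2 : ga β (-ga β p) = - ga β (ga β p) := by
    have := ga_smul β (-1) (ga β p)
    simpa using this
  rw [h2, ga_ga]

theorem tr_v (α : Fin 9) (p : PP) :
    ∑ i, (tp (ga α p) (bs i) (ga α (bs i)) + tp (ga α (bs i)) (bs i) (ga α p)) = (20 : ℝ) • p := by
  funext k
  rw [Finset.sum_apply]
  simp only [tp, Pi.smul_apply, smul_eq_mul, Pi.add_apply]
  have f1 : ∀ i : Fin 16, ip (ga α p) (ga α (bs i)) = p i := fun i => by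
    rw [ip_ga, ga_ga, Trc_ip_bs]
  have f1' : ∀ i : Fin 16, ip (ga α (bs i)) (ga α p) = p i := fun i => by
    rw [ip_comm, f1]
  have f2 : ∀ (i : Fin 16) (β : Fin 9), ip (bs i) (ga β (ga α (bs i)))
      = ip (ga β (bs i)) (ga α (bs i)) := fun i β => by rw [ip_ga]
  have f3 : ∀ (i : Fin 16) (β : Fin 9), ip (ga α p) (ga β (ga α (bs i)))
      = ga α (ga β (ga α p)) i := fun i β => by
    rw [← ip_ga, ← ip_ga, Trc_ip_bs]
  have f4 : ∀ i : Fin 16, ip (bs i) (ga α p) = ga α p i := fun i => by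
    rw [ip_comm, Trc_ip_bs]
  have f5 : ∀ (i : Fin 16) (β : Fin 9), ip (bs i) (ga β (ga α p)) = ga β (ga α p) i :=
    fun i β => by rw [ip_comm, Trc_ip_bs]
  have f6 : ∀ (i : Fin 16) (β : Fin 9), ip (ga α (bs i)) (ga β (ga α p))
      = ga α (ga β (ga α p)) i := fun i β => by
    rw [ip_ga, ip_comm, Trc_ip_bs]
  simp only [f1, f1', f2, f3, f4, f5, f6]
  have s1 : ∑ i : Fin 16, 3 * ip (bs i) (ga α (bs i)) * ga α p k = 0 := by
    have : ∀ i : Fin 16, 3 * ip (bs i) (ga α (bs i)) * ga α p k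
        = ip (bs i) (ga α (bs i)) * (3 * ga α p k) := fun i => by ring
    rw [Finset.sum_congr rfl fun i _ => this i, ← Finset.sum_mul, tr_ga, zero_mul]
  have s2 : ∑ i : Fin 16, 3 * p i * bs i k = 3 * p k := by
    rw [← Trc_key0 p k, Finset.mul_sum]
    exact Finset.sum_congr rfl fun i _ => by ring
  have s3 : ∑ i : Fin 16, 3 * ga α p i * ga α (bs i) k = 3 * p k := by
    have := Trc_key1 α (ga α p) k
    rw [ga_ga] at this
    rw [← this, Finset.mul_sum]
    exact Finset.sum_congr rfl fun i _ => by ring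
  have s4 : ∑ i : Fin 16, ∑ β : Fin 9, (ip (ga β (bs i)) (ga α (bs i)) * ga β (ga α p) k
      - ga α (ga β (ga α p)) i * ga β (bs i) k) = 23 * p k := by
    rw [Finset.sum_comm]
    have : ∀ β : Fin 9, ∑ i : Fin 16, (ip (ga β (bs i)) (ga α (bs i)) * ga β (ga α p) k
      - ga α (ga β (ga α p)) i * ga β (bs i) k) = if β = α then 15 * p k else p k := by
      intro β
      rw [Finset.sum_sub_distrib, Trc_key1, ← Finset.sum_mul]
      split_ifs with hb
      · subst hb
        have hh : ∀ i : Fin 16, ip (ga β (bs i)) (ga β (bs i)) = 1 := fun i => by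
          rw [ip_ga, ga_ga, ip_bs]; simp
        rw [Finset.sum_congr rfl fun i _ => hh i]
        simp only [ga_ga]
        simp
        ring
      · rw [tr_gaga hb, Trc_four α β p hb]
        simp
    rw [Finset.sum_congr rfl fun β _ => this β]
    have h9 : ∀ β : Fin 9, (if β = α then 15 * p k else p k)
        = (if β = α then 14 * p k else 0) + p k := by
      intro β
      split_ifs <;> ring
    rw [Finset.sum_congr rfl fun β _ => h9 β, Finset.sum_add_distrib]
    simp
    ring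
  have s5 : ∑ i : Fin 16, ∑ β : Fin 9, (ga β (ga α p) i * ga β (ga α (bs i)) k
      - ga α (ga β (ga α p)) i * ga β (bs i) k) = 0 := by
    rw [Finset.sum_comm]
    refine Finset.sum_eq_zero fun β _ => ?_
    rw [Finset.sum_sub_distrib, Trc_key1, Trc_key2]
    ring
  have tot : ∀ i : Fin 16, (3 * ip (bs i) (ga α (bs i)) * ga α p k - 3 * p i * bs i k
      + ∑ β : Fin 9, (ip (ga β (bs i)) (ga α (bs i)) * ga β (ga α p) k
        - ga α (ga β (ga α p)) i * ga β (bs i) k)
      + (3 * ga α p i * ga α (bs i) k - 3 * p i * bs i k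
      + ∑ β : Fin 9, (ga β (ga α p) i * ga β (ga α (bs i)) k
        - ga α (ga β (ga α p)) i * ga β (bs i) k)))
      = 3 * ip (bs i) (ga α (bs i)) * ga α p k + (-2) * (3 * p i * bs i k)
      + ∑ β : Fin 9, (ip (ga β (bs i)) (ga α (bs i)) * ga β (ga α p) k
        - ga α (ga β (ga α p)) i * ga β (bs i) k)
      + 3 * ga α p i * ga α (bs i) k
      + ∑ β : Fin 9, (ga β (ga α p) i * ga β (ga α (bs i)) k
        - ga α (ga β (ga α p)) i * ga β (bs i) k) := fun i => by ring
  rw [Finset.sum_congr rfl fun i _ => tot i]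
  rw [Finset.sum_add_distrib, Finset.sum_add_distrib, Finset.sum_add_distrib,
    Finset.sum_add_distrib, s1, s3, s4, s5, ← Finset.mul_sum, s2]
  ring

theorem tp_add1 (p p' q r : PP) : tp (p + p') q r = tp p q r + tp p' q r := by
  funext k
  simp only [tp, Pi.add_apply, ga_add, Trc_add1]
  have : ∀ α : Fin 9, (ip q (ga α r) * (ga α p k + ga α p' k)
      - (ip p (ga α r) + ip p' (ga α r)) * ga α q k)
      = (ip q (ga α r) * ga α p k - ip p (ga α r) * ga α q k)
        + (ip q (ga α r) * ga α p' k - ip p' (ga α r) * ga α q k) := fun α => by ring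
  rw [Finset.sum_congr rfl fun α _ => this α, Finset.sum_add_distrib]
  ring

theorem tp_add2 (p q q' r : PP) : tp p (q + q') r = tp p q r + tp p q' r := by
  funext k
  simp only [tp, Pi.add_apply, ga_add, Trc_add1]
  have : ∀ α : Fin 9, ((ip q (ga α r) + ip q' (ga α r)) * ga α p k
      - ip p (ga α r) * (ga α q k + ga α q' k))
      = (ip q (ga α r) * ga α p k - ip p (ga α r) * ga α q k)
        + (ip q' (ga α r) * ga α p k - ip p (ga α r) * ga α q' k) := fun α => by ring
  rw [Finset.sum_congr rfl fun α _ => this α, Finset.sum_add_distrib]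
  ring

theorem tp_add3 (p q r r' : PP) : tp p q (r + r') = tp p q r + tp p q r' := by
  funext k
  simp only [tp, Pi.add_apply, ga_add, ip_add]
  have : ∀ α : Fin 9, ((ip q (ga α r) + ip q (ga α r')) * ga α p k
      - (ip p (ga α r) + ip p (ga α r')) * ga α q k)
      = (ip q (ga α r) * ga α p k - ip p (ga α r) * ga α q k)
        + (ip q (ga α r') * ga α p k - ip p (ga α r') * ga α q k) := fun α => by ring
  rw [Finset.sum_congr rfl fun α _ => this α, Finset.sum_add_distrib]
  ring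

theorem tp_smul1 (t : ℝ) (p q r : PP) : tp (t • p) q r = t • tp p q r := by
  funext k
  simp only [tp, Pi.smul_apply, ga_smul, Trc_smul1, smul_eq_mul]
  have : ∀ α : Fin 9, (ip q (ga α r) * (t * ga α p k) - t * ip p (ga α r) * ga α q k)
      = t * (ip q (ga α r) * ga α p k - ip p (ga α r) * ga α q k) := fun α => by ring
  rw [Finset.sum_congr rfl fun α _ => this α, ← Finset.mul_sum]
  ring

theorem tp_smul2 (t : ℝ) (p q r : PP) : tp p (t • q) r = t • tp p q r := by
  funext k
  simp only [tp, Pi.smul_apply, ga_smul, Trc_smul1, smul_eq_mul]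
  have : ∀ α : Fin 9, (t * ip q (ga α r) * ga α p k - ip p (ga α r) * (t * ga α q k))
      = t * (ip q (ga α r) * ga α p k - ip p (ga α r) * ga α q k) := fun α => by ring
  rw [Finset.sum_congr rfl fun α _ => this α, ← Finset.mul_sum]
  ring

theorem tp_smul3 (t : ℝ) (p q r : PP) : tp p q (t • r) = t • tp p q r := by
  funext k
  simp only [tp, Pi.smul_apply, ga_smul, ip_smul, smul_eq_mul]
  have : ∀ α : Fin 9, (t * ip q (ga α r) * ga α p k - t * ip p (ga α r) * ga α q k)
      = t * (ip q (ga α r) * ga α p k - ip p (ga α r) * ga α q k) := fun α => by ring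
  rw [Finset.sum_congr rfl fun α _ => this α, ← Finset.mul_sum]
  ring

end FF4

end
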