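import Pool.Agent.FF4.Com
import Pool.Agent.FF4.Trc

/-! # Module Inf (difficulty 4): infinitesimal automorphisms

`contDiff_Qf`, `contDiff_Cf`: polynomials. `LX A f z = - fderiv ℝ f z (A z)`.
`fderiv_Qf`: `fderiv Qf z y = 3/2 z.1 y.1 + 2 ∑ z_v y_v - 2 <z_ψ, y_ψ>`. `fderiv_Cf`:
`3/4 a² y_a - y_a |v|² - 2 a <v, y_v> - y_a |ψ|²/2 - a <ψ, y_ψ> - 2 <y_ψ, γ(v)ψ> - <ψ, γ(y_v)ψ>`.
`Ia_Xm`: `y = X_p z = (2<p,ψ>, -<p,γψ>, (3/2) a p - γ(v)p)`:
Q: `3 a <p,ψ> - 2 <p, γ(v)ψ> - 3 a <ψ,p> + 2 <ψ, γ(v)p> = 0`.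
C: `3/2 a² <p,ψ> - 2 <p,ψ> |v|² + 2 a <p, γ(v)ψ> - <p,ψ> |ψ|² - (3/2) a² <ψ,p> + a <ψ, γ(v)p> - 3 a <p, γ(v)ψ>
+ 2 <γ(v)p, γ(v)ψ> + ∑_α <p, γ_α ψ> <ψ, γ_α ψ>`; `<γ(v)p, γ(v)ψ> = |v|² <p,ψ>` (`gv_gv`, symmetry) and
`∑_α <p, γ_α ψ> <ψ, γ_α ψ> = <p,ψ> |ψ|²` (`gcub` with `p = q = r = ψ`). Everything cancels.
`Ia.bracket`: `LX_comm` and `LX A 0 = 0` (`LX B Qf` is the zero function by `funext`). `Ia.add`, `Ia.smul`: linear.
`Xm_triple`: componentwise; for `z = (a, v, ψ)`: `X_p X_q z = (2 <p, (3/2) a q - γ(v)q>, -<p, γ_α((3/2) a q - γ(v) q)>,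
3 <q,ψ> p + ∑_α <q, γ_α ψ> γ_α p)`. So `Y = X_pX_q - X_qX_p` is
`Y z = (0, v_α ↦ <p, γ_α γ(v) q> - <q, γ_α γ(v) p>, Y_16 ψ)` with `Y_16 ψ = tp p q ψ`, (the first component vanishes since
`<p, γ(v) q>` is symmetric). `[Y, X_r] = X_{Y_16 r}`: check the three components; the middle one uses `gcub` (polarized
Fierz), e.g. `tp p q (γ(v) r) - γ(v) (tp p q r) = γ(Y_9 v) r`. (Checked by computer.)
`Ym_e0`: `v = 0`, `ψ = 0`. -/

open MeasureTheory
open scoped ContDiff

noncomputable section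

namespace FF4

theorem contDiff_Qf : ContDiff ℝ ∞ Qf := by
  unfold Qf ip
  fun_prop

theorem contDiff_Cf : ContDiff ℝ ∞ Cf := by
  unfold Cf ip gv ga
  fun_prop

private theorem Inf_line {f : EE → ℝ} (hf : ContDiff ℝ ∞ f) (z y : EE) {d : ℝ}
    (h : HasDerivAt (fun t : ℝ => f (z + t • y)) d 0) : fderiv ℝ f z y = d := by
  have h1 : DifferentiableAt ℝ f z := (hf.differentiable (by simp)).differentiableAt
  have h2 := h1.lineDeriv_eq_fderiv (v := y)
  rw [← h2]
  exact h.deriv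

private theorem Inf_sq {n : ℕ} (u w : Fin n → ℝ) : HasDerivAt
    (fun t : ℝ => ∑ α, (u α + t * w α) ^ 2) (2 * ∑ α, u α * w α) 0 := by
  have h : ∀ α : Fin n, HasDerivAt (fun t : ℝ => (u α + t * w α) ^ 2) (2 * (u α * w α)) 0 := by
    intro α
    have h1 : HasDerivAt (fun t : ℝ => u α + t * w α) (w α) 0 := by
      simpa using ((hasDerivAt_id (0 : ℝ)).mul_const (w α)).const_add (u α)
    have h2 := h1.pow 2
    refine h2.congr_deriv ?_
    simp
    ring
  have h3 := HasDerivAt.fun_sum (u := Finset.univ) (fun α _ => h α)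
  rw [Finset.mul_sum]
  exact h3

private theorem Inf_ip (u w : PP) : HasDerivAt
    (fun t : ℝ => ip (u + t • w) (u + t • w)) (2 * ip u w) 0 := by
  have h := Inf_sq u w
  have h1 : (fun t : ℝ => ip (u + t • w) (u + t • w)) = fun t : ℝ => ∑ α, (u α + t * w α) ^ 2 := by
    funext t
    unfold ip
    refine Finset.sum_congr rfl fun k _ => ?_
    simp only [Pi.add_apply, Pi.smul_apply, smul_eq_mul]
    ring
  rw [h1]
  exact h

private theorem Inf_ipl (p q r : PP) : ip (p + q) r = ip p r + ip q r := by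
  rw [ip_comm, ip_add, ip_comm r p, ip_comm r q]

private theorem Inf_ipsl (t : ℝ) (p q : PP) : ip (t • p) q = t * ip p q := by
  rw [ip_comm, ip_smul, ip_comm]

private theorem Inf_ipn (p q : PP) : ip p (-q) = -ip p q := by
  have := ip_smul (-1) p q
  simpa using this

private theorem Inf_ips (p q r : PP) : ip p (q - r) = ip p q - ip p r := by
  rw [sub_eq_add_neg, ip_add, Inf_ipn, ← sub_eq_add_neg]

private theorem Inf_gv1 (v w : VV) (p : PP) : gv (v + w) p = gv v p + gv w p := by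
  funext k
  simp only [gv, Pi.add_apply, add_mul, Finset.sum_add_distrib]

private theorem Inf_gv1s (t : ℝ) (v : VV) (p : PP) : gv (t • v) p = t • gv v p := by
  funext k
  simp only [gv, Pi.smul_apply, smul_eq_mul, Finset.mul_sum]
  exact Finset.sum_congr rfl fun _ _ => by ring

private theorem Inf_gv2 (v : VV) (p q : PP) : gv v (p + q) = gv v p + gv v q := by
  funext k
  simp only [gv, ga_add, Pi.add_apply, mul_add, Finset.sum_add_distrib]

private theorem Inf_gv2s (t : ℝ) (v : VV) (p : PP) : gv v (t • p) = t • gv v p := by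
  funext k
  simp only [gv, ga_smul, Pi.smul_apply, smul_eq_mul, Finset.mul_sum]
  exact Finset.sum_congr rfl fun _ _ => by ring

/-- `∑ v_α <p, γ_α q> = <p, γ(v) q>` -/
private theorem Inf_ipgv (v : VV) (p q : PP) : ip p (gv v q) = ∑ α, v α * ip p (ga α q) := by
  simp only [ip, gv, Finset.mul_sum]
  rw [Finset.sum_comm]
  exact Finset.sum_congr rfl fun _ _ => Finset.sum_congr rfl fun _ _ => by ring

private theorem Inf_gvsym (v : VV) (p q : PP) : ip p (gv v q) = ip q (gv v p) := by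
  rw [Inf_ipgv, Inf_ipgv]
  refine Finset.sum_congr rfl fun α _ => ?_
  rw [← ip_ga α p q, ip_comm]

private theorem Inf_T (v y : VV) (p q : PP) : HasDerivAt
    (fun t : ℝ => ip (p + t • q) (gv (v + t • y) (p + t • q)))
    (2 * ip q (gv v p) + ip p (gv y p)) 0 := by
  have h1 : (fun t : ℝ => ip (p + t • q) (gv (v + t • y) (p + t • q))) = fun t : ℝ =>
      ip p (gv v p) + t * (2 * ip q (gv v p) + ip p (gv y p))
        + t ^ 2 * (ip q (gv v q) + 2 * ip q (gv y p)) + t ^ 3 * ip q (gv y q) := by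
    funext t
    simp only [Inf_gv1, Inf_gv1s, Inf_gv2, Inf_gv2s, ip_add, ip_smul, Inf_ipl, Inf_ipsl]
    rw [Inf_gvsym v p q, Inf_gvsym y p q]
    ring
  rw [h1]
  have h2 : HasDerivAt (fun t : ℝ => ip p (gv v p) + t * (2 * ip q (gv v p) + ip p (gv y p))
        + t ^ 2 * (ip q (gv v q) + 2 * ip q (gv y p)) + t ^ 3 * ip q (gv y q))
      (0 + 1 * (2 * ip q (gv v p) + ip p (gv y p))
        + ((2 : ℕ) * (0 : ℝ) ^ (2 - 1) * 1) * (ip q (gv v q) + 2 * ip q (gv y p))
        + ((3 : ℕ) * (0 : ℝ) ^ (3 - 1) * 1) * ip q (gv y q)) 0 := by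
    refine (((hasDerivAt_const _ _).add ((hasDerivAt_id _).mul_const _)).add
      (((hasDerivAt_id (0 : ℝ)).pow 2).mul_const _)).add
      (((hasDerivAt_id (0 : ℝ)).pow 3).mul_const _)
  refine h2.congr_deriv ?_
  norm_num

private theorem Inf_lin (a b : ℝ) : HasDerivAt (fun t : ℝ => a + t * b) b 0 := by
  simpa using ((hasDerivAt_id (0 : ℝ)).mul_const b).const_add a

theorem fderiv_Qf (z y : EE) : fderiv ℝ Qf z y
    = 3 / 2 * z.1 * y.1 + 2 * ∑ α, z.2.1 α * y.2.1 α - 2 * ip z.2.2 y.2.2 := by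
  refine Inf_line contDiff_Qf z y ?_
  have h1 := ((Inf_lin z.1 y.1).pow 2).const_mul (3 / 4 : ℝ)
  have h2 := (h1.add (Inf_sq z.2.1 y.2.1)).sub (Inf_ip z.2.2 y.2.2)
  refine h2.congr_deriv ?_
  simp
  ring

theorem fderiv_Cf (z y : EE) : fderiv ℝ Cf z y
    = 3 / 4 * z.1 ^ 2 * y.1 - y.1 * ∑ α, z.2.1 α ^ 2 - 2 * z.1 * ∑ α, z.2.1 α * y.2.1 α
      - y.1 * ip z.2.2 z.2.2 / 2 - z.1 * ip z.2.2 y.2.2 - 2 * ip y.2.2 (gv z.2.1 z.2.2)
      - ip z.2.2 (gv y.2.1 z.2.2) := by
  refine Inf_line contDiff_Cf z y ?_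
  have h0 := Inf_lin z.1 y.1
  have h1 := (h0.pow 3).div_const 4
  have h2 := h0.mul (Inf_sq z.2.1 y.2.1)
  have h3 := (h0.mul (Inf_ip z.2.2 y.2.2)).div_const 2
  have h4 := ((h1.sub h2).sub h3).sub (Inf_T z.2.1 y.2.1 z.2.2 y.2.2)
  refine h4.congr_deriv ?_
  simp
  ring

private theorem Inf_gvgv (v : VV) (p q : PP) :
    ip (gv v p) (gv v q) = (∑ α, v α ^ 2) * ip p q := by
  rw [Inf_gvsym, gv_gv, ip_smul, ip_comm]

private theorem Inf_gv_ip (p q r s : PP) :
    ip r (gv (fun α => ip p (ga α q)) s) = ∑ α, ip p (ga α q) * ip r (ga α s) := by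
  rw [Inf_ipgv]

private theorem Inf_ipsum (p : PP) (c : Fin 9 → ℝ) (u : Fin 9 → PP) :
    ip p (fun k => ∑ α, c α * u α k) = ∑ α, c α * ip p (u α) := by
  unfold ip
  simp only [Finset.mul_sum]
  rw [Finset.sum_comm]
  exact Finset.sum_congr rfl fun _ _ => Finset.sum_congr rfl fun _ _ => by ring

private theorem Inf_cub (p q : PP) :
    ∑ α, ip p (ga α q) * ip q (ga α q) = ip p q * ip q q := by
  have h : ∀ k, ∑ α, ip q (ga α q) * ga α q k = ip q q * q k := by
    intro k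
    have h1 := gcub q q q k
    have h2 : ∑ α, (ip q (ga α q) * ga α q k + ip q (ga α q) * ga α q k + ip q (ga α q) * ga α q k)
        = 3 * ∑ α, ip q (ga α q) * ga α q k := by
      rw [Finset.mul_sum]
      exact Finset.sum_congr rfl fun _ _ => by ring
    rw [h2] at h1
    linarith
  have h3 : ∑ α, ip p (ga α q) * ip q (ga α q) = ip p (fun k => ∑ α, ip q (ga α q) * ga α q k) := by
    rw [Inf_ipsum]
    exact Finset.sum_congr rfl fun _ _ => by ring
  rw [h3]
  have h4 : (fun k => ∑ α, ip q (ga α q) * ga α q k) = ip q q • q := by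
    funext k
    rw [h k]
    rfl
  rw [h4, ip_smul]
  ring

private theorem Inf_third (a : ℝ) (p : PP) (v : VV) :
    (fun k => 3 / 2 * a * p k - gv v p k) = (3 / 2 * a) • p - gv v p := rfl

theorem Ia_Xm (p : PP) : Ia (Xm p) := by
  constructor
  · intro z
    unfold LX
    rw [fderiv_Qf, Xm_apply]
    simp only [Inf_third, Inf_ips, ip_smul]
    have h1 : ∑ α, z.2.1 α * -ip p (ga α z.2.2) = -ip p (gv z.2.1 z.2.2) := by
      rw [Inf_ipgv, ← Finset.sum_neg_distrib]
      exact Finset.sum_congr rfl fun _ _ => by ring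
    rw [h1, Inf_gvsym z.2.1 z.2.2 p, ip_comm z.2.2 p]
    ring
  · intro z
    unfold LX
    rw [fderiv_Cf, Xm_apply]
    simp only [Inf_third, Inf_ips, ip_smul]
    have h1 : ∑ α, z.2.1 α * -ip p (ga α z.2.2) = -ip p (gv z.2.1 z.2.2) := by
      rw [Inf_ipgv, ← Finset.sum_neg_distrib]
      exact Finset.sum_congr rfl fun _ _ => by ring
    have h2 : ip z.2.2 (gv (fun α => -ip p (ga α z.2.2)) z.2.2) = -(ip p z.2.2 * ip z.2.2 z.2.2) := by
      rw [← Inf_cub, Inf_ipgv, ← Finset.sum_neg_distrib]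
      exact Finset.sum_congr rfl fun _ _ => by ring
    have h3 : ip ((3 / 2 * z.1) • p - gv z.2.1 p) (gv z.2.1 z.2.2) =
        3 / 2 * z.1 * ip p (gv z.2.1 z.2.2) - (∑ α, z.2.1 α ^ 2) * ip p z.2.2 := by
      rw [ip_comm, Inf_ips, ip_smul, ip_comm _ (gv z.2.1 p), Inf_gvgv, ip_comm _ p]
    rw [h1, h2, h3, Inf_gvsym z.2.1 z.2.2 p, ip_comm z.2.2 p]
    ring

theorem Ia.add {A B : Mt} (hA : Ia A) (hB : Ia B) : Ia (A + B) := by
  constructor
  · intro z
    rw [LX_add_left, hA.q, hB.q, add_zero]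
  · intro z
    rw [LX_add_left, hA.c, hB.c, add_zero]

theorem Ia.smul {A : Mt} (hA : Ia A) (r : ℝ) : Ia (r • A) := by
  constructor
  · intro z
    rw [LX_smul_left, hA.q, mul_zero]
  · intro z
    rw [LX_smul_left, hA.c, mul_zero]

private theorem Inf_LX0 (A : Mt) (z : EE) : LX A (fun _ => (0 : ℝ)) z = 0 := by
  unfold LX
  simp

theorem Ia.bracket {A B : Mt} (hA : Ia A) (hB : Ia B) : Ia (A * B - B * A) := by
  constructor
  · intro z
    rw [← LX_comm contDiff_Qf A B z]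
    have h1 : LX A Qf = fun _ => (0 : ℝ) := funext hA.q
    have h2 : LX B Qf = fun _ => (0 : ℝ) := funext hB.q
    rw [h1, h2, Inf_LX0, Inf_LX0, sub_zero]
  · intro z
    rw [← LX_comm contDiff_Cf A B z]
    have h1 : LX A Cf = fun _ => (0 : ℝ) := funext hA.c
    have h2 : LX B Cf = fun _ => (0 : ℝ) := funext hB.c
    rw [h1, h2, Inf_LX0, Inf_LX0, sub_zero]

private theorem Inf_anti (α β : Fin 9) (p : PP) (k : Fin 16) :
    ga α (ga β p) k = -ga β (ga α p) k + (if α = β then 2 else 0) * p k := by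
  by_cases h : α = β
  · subst h
    rw [ga_ga, if_pos rfl]
    ring
  · rw [ga_anti h, if_neg h]
    simp

private theorem Inf_ipanti (α β : Fin 9) (p q : PP) :
    ip (ga α p) (ga β q) = -ip p (ga β (ga α q)) + (if α = β then 2 else 0) * ip p q := by
  rw [ip_ga]
  have h : ga α (ga β q) = -ga β (ga α q) + ((if α = β then 2 else 0 : ℝ)) • q := by
    funext k
    rw [Inf_anti]
    rfl
  rw [h, ip_add, Inf_ipn, ip_smul]

/-- the key identity, for a gamma matrix -/
private theorem Inf_key (α : Fin 9) (p q r : PP) (k : Fin 16) :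
    tp p q (ga α r) k - ga α (tp p q r) k
      = ∑ β, (ip p (ga β (ga α q)) - ip q (ga β (ga α p))) * ga β r k := by
  have h3 := gcub p (ga α q) r k
  have h4 := gcub q (ga α p) r k
  simp only [Finset.sum_add_distrib] at h3 h4
  have e1 : ∑ β, ip (ga α q) (ga β r) * ga β p k
      = -(∑ β, ip q (ga β (ga α r)) * ga β p k) + 2 * ip q r * ga α p k := by
    have : ∀ β, ip (ga α q) (ga β r) * ga β p k = -(ip q (ga β (ga α r)) * ga β p k)
        + (if α = β then 2 * ip q r * ga β p k else 0) := by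
      intro β
      rw [Inf_ipanti]
      split_ifs <;> ring
    simp only [this, Finset.sum_add_distrib, Finset.sum_neg_distrib, Finset.sum_ite_eq,
      Finset.mem_univ, if_true]
  have e2 : ∑ β, ip (ga α p) (ga β r) * ga β q k
      = -(∑ β, ip p (ga β (ga α r)) * ga β q k) + 2 * ip p r * ga α q k := by
    have : ∀ β, ip (ga α p) (ga β r) * ga β q k = -(ip p (ga β (ga α r)) * ga β q k)
        + (if α = β then 2 * ip p r * ga β q k else 0) := by
      intro β
      rw [Inf_ipanti]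
      split_ifs <;> ring
    simp only [this, Finset.sum_add_distrib, Finset.sum_neg_distrib, Finset.sum_ite_eq,
      Finset.mem_univ, if_true]
  have e3 : ∑ β, ip r (ga β p) * ga β (ga α q) k
      = -(∑ β, ip p (ga β r) * ga α (ga β q) k) + 2 * ip p (ga α r) * q k := by
    have : ∀ β, ip r (ga β p) * ga β (ga α q) k = -(ip p (ga β r) * ga α (ga β q) k)
        + (if α = β then 2 * ip p (ga β r) * q k else 0) := by
      intro β
      rw [Inf_anti α β q k, ← ip_ga β r p, ip_comm (ga β r) p]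
      split_ifs <;> ring
    simp only [this, Finset.sum_add_distrib, Finset.sum_neg_distrib, Finset.sum_ite_eq,
      Finset.mem_univ, if_true]
  have e4 : ∑ β, ip r (ga β q) * ga β (ga α p) k
      = -(∑ β, ip q (ga β r) * ga α (ga β p) k) + 2 * ip q (ga α r) * p k := by
    have : ∀ β, ip r (ga β q) * ga β (ga α p) k = -(ip q (ga β r) * ga α (ga β p) k)
        + (if α = β then 2 * ip q (ga β r) * p k else 0) := by
      intro β
      rw [Inf_anti α β p k, ← ip_ga β r q, ip_comm (ga β r) q]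
      split_ifs <;> ring
    simp only [this, Finset.sum_add_distrib, Finset.sum_neg_distrib, Finset.sum_ite_eq,
      Finset.mem_univ, if_true]
  have e5 : tp p q (ga α r) k = 3 * ip q (ga α r) * p k - 3 * ip p (ga α r) * q k
      + ((∑ β, ip q (ga β (ga α r)) * ga β p k) - ∑ β, ip p (ga β (ga α r)) * ga β q k) := by
    unfold tp
    rw [Finset.sum_sub_distrib]
  have e6 : ga α (tp p q r) k = 3 * ip q r * ga α p k - 3 * ip p r * ga α q k
      + ((∑ β, ip q (ga β r) * ga α (ga β p) k) - ∑ β, ip p (ga β r) * ga α (ga β q) k) := by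
    have : ga α (tp p q r) k = (gs α k : ℝ) * tp p q r (gi α k) := rfl
    rw [this]
    unfold tp
    rw [Finset.sum_sub_distrib, mul_add, mul_sub, mul_sub, Finset.mul_sum, Finset.mul_sum]
    have g1 : ∀ u : PP, (gs α k : ℝ) * u (gi α k) = ga α u k := fun u => rfl
    have g2 : ∀ β, (gs α k : ℝ) * (ip q (ga β r) * ga β p (gi α k)) =
        ip q (ga β r) * ga α (ga β p) k := by
      intro β
      rw [← g1 (ga β p)]
      ring
    have g3 : ∀ β, (gs α k : ℝ) * (ip p (ga β r) * ga β q (gi α k)) =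
        ip p (ga β r) * ga α (ga β q) k := by
      intro β
      rw [← g1 (ga β q)]
      ring
    simp only [g2, g3]
    rw [← g1 p, ← g1 q]
    ring
  have e7 : ∑ β, (ip p (ga β (ga α q)) - ip q (ga β (ga α p))) * ga β r k =
      (∑ β, ip p (ga β (ga α q)) * ga β r k) - ∑ β, ip q (ga β (ga α p)) * ga β r k := by
    rw [← Finset.sum_sub_distrib]
    exact Finset.sum_congr rfl fun _ _ => by ring
  rw [e5, e6, e7]
  rw [e1, e3] at h3
  rw [e2, e4] at h4
  have s1 : ip p (ga α q) = ip q (ga α p) := by rw [← ip_ga, ip_comm]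
  have s2 : ip (ga α q) r = ip q (ga α r) := ip_ga α q r
  have s3 : ip (ga α p) r = ip p (ga α r) := ip_ga α p r
  rw [s2, ip_comm r p] at h3
  rw [s3, ip_comm r q] at h4
  rw [s1] at h3
  linarith

private theorem Inf_gv_eq (v : VV) (p : PP) : gv v p = fun k => ∑ α, v α * ga α p k := rfl

private theorem Inf_tp3sum (p q : PP) (c : Fin 9 → ℝ) (u : Fin 9 → PP) (s : Finset (Fin 9)) :
    tp p q (∑ α ∈ s, c α • u α) = ∑ α ∈ s, c α • tp p q (u α) := by
  classical
  induction s using Finset.induction_on with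
  | empty =>
    have := tp_smul3 0 p q 0
    simpa using this
  | insert a s ha ih =>
    rw [Finset.sum_insert ha, Finset.sum_insert ha, tp_add3, tp_smul3, ih]

private theorem Inf_gv_sum (v : VV) (p : PP) : gv v p = ∑ α, v α • ga α p := by
  funext k
  simp only [gv, Finset.sum_apply, Pi.smul_apply, smul_eq_mul]

/-- the middle component of `Y` -/
private def Inf_W (p q : PP) (v : VV) : VV := fun β => ip p (ga β (gv v q)) - ip q (ga β (gv v p))

private theorem Inf_ga_gv (β : Fin 9) (v : VV) (q : PP) :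
    ga β (gv v q) = fun k => ∑ α, v α * ga β (ga α q) k := by
  funext k
  have : ga β (gv v q) k = (gs β k : ℝ) * gv v q (gi β k) := rfl
  rw [this]
  unfold gv
  rw [Finset.mul_sum]
  refine Finset.sum_congr rfl fun α _ => ?_
  have g1 : ga β (ga α q) k = (gs β k : ℝ) * ga α q (gi β k) := rfl
  rw [g1]
  ring

private theorem Inf_W_eq (p q : PP) (v : VV) (β : Fin 9) :
    Inf_W p q v β = ∑ α, v α * (ip p (ga β (ga α q)) - ip q (ga β (ga α p))) := by
  unfold Inf_W
  rw [Inf_ga_gv, Inf_ga_gv, Inf_ipsum, Inf_ipsum, ← Finset.sum_sub_distrib]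
  exact Finset.sum_congr rfl fun _ _ => by ring

private theorem Inf_keyv (v : VV) (p q r : PP) :
    tp p q (gv v r) - gv v (tp p q r) = gv (Inf_W p q v) r := by
  funext k
  rw [Inf_gv_sum v r, Inf_tp3sum]
  simp only [Pi.sub_apply, Finset.sum_apply, Pi.smul_apply, smul_eq_mul, gv]
  rw [← Finset.sum_sub_distrib]
  simp only [Inf_W_eq, Finset.sum_mul]
  rw [Finset.sum_comm]
  refine Finset.sum_congr rfl fun α _ => ?_
  rw [← mul_sub, Inf_key, Finset.mul_sum]
  exact Finset.sum_congr rfl fun _ _ => by ring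

/-- `tp p q` is antisymmetric -/
private theorem Inf_tp_anti (p q r s : PP) : ip r (tp p q s) = -ip (tp p q r) s := by
  have h : ∀ a b : PP, ip a (tp p q b) = 3 * ip q b * ip a p - 3 * ip p b * ip a q
      + ((∑ β, ip q (ga β b) * ip a (ga β p)) - ∑ β, ip p (ga β b) * ip a (ga β q)) := by
    intro a b
    have h1 : tp p q b = ((3 * ip q b) • p - (3 * ip p b) • q)
        + ((fun k => ∑ β, ip q (ga β b) * ga β p k) - (fun k => ∑ β, ip p (ga β b) * ga β q k)) := by
      funext k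
      simp only [tp, Pi.add_apply, Pi.sub_apply, Pi.smul_apply, smul_eq_mul, Finset.sum_sub_distrib]
    rw [h1, ip_add, Inf_ips, Inf_ips, ip_smul, ip_smul, Inf_ipsum, Inf_ipsum]
  rw [ip_comm (tp p q r) s, h, h]
  have e1 : ∑ β, ip q (ga β s) * ip r (ga β p) = ∑ β, ip p (ga β r) * ip s (ga β q) := by
    refine Finset.sum_congr rfl fun β _ => ?_
    rw [← ip_ga β q s, ip_comm (ga β q) s, ← ip_ga β r p, ip_comm (ga β r) p]
    ring
  have e2 : ∑ β, ip p (ga β s) * ip r (ga β q) = ∑ β, ip q (ga β r) * ip s (ga β p) := by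
    refine Finset.sum_congr rfl fun β _ => ?_
    rw [← ip_ga β p s, ip_comm (ga β p) s, ← ip_ga β r q, ip_comm (ga β r) q]
    ring
  rw [e1, e2, ip_comm q s, ip_comm p s, ip_comm r p, ip_comm r q]
  ring

private theorem Inf_ext {A B : Mt} (h : ∀ z, A z = B z) : A = B := ContinuousLinearMap.ext h

private theorem Inf_Ym_apply (p q : PP) (z : EE) :
    Ym p q z = (0, Inf_W p q z.2.1, tp p q z.2.2) := by
  have h0 : Ym p q z = Xm p (Xm q z) - Xm q (Xm p z) := rfl
  rw [h0, Xm_apply p (Xm q z), Xm_apply q (Xm p z), Xm_apply, Xm_apply]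
  simp only [Inf_third]
  refine Prod.ext ?_ (Prod.ext ?_ ?_)
  · change 2 * ip p ((3 / 2 * z.1) • q - gv z.2.1 q) - 2 * ip q ((3 / 2 * z.1) • p - gv z.2.1 p) = 0
    rw [Inf_ips, Inf_ips, ip_smul, ip_smul, Inf_gvsym z.2.1 q p, ip_comm q p]
    ring
  · funext α
    change -ip p (ga α ((3 / 2 * z.1) • q - gv z.2.1 q)) - -ip q (ga α ((3 / 2 * z.1) • p - gv z.2.1 p))
      = Inf_W p q z.2.1 α
    have g : ∀ u w : PP, ip u (ga α w) = ip (ga α u) w := fun u w => (ip_ga α u w).symm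
    unfold Inf_W
    rw [g p, g q, Inf_ips, Inf_ips, ip_smul, ip_smul, ← g p, ← g q, ← g p, ← g q, ← ip_ga α p q,
      ip_comm (ga α p) q]
    ring
  · funext k
    change ((3 / 2 * (2 * ip q z.2.2)) • p - gv (fun α => -ip q (ga α z.2.2)) p) k
      - ((3 / 2 * (2 * ip p z.2.2)) • q - gv (fun α => -ip p (ga α z.2.2)) q) k = tp p q z.2.2 k
    simp only [Pi.sub_apply, Pi.smul_apply, smul_eq_mul, gv, tp, neg_mul, Finset.sum_neg_distrib,
      Finset.sum_sub_distrib]
    ring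

theorem Xm_triple (p q r : PP) : Ym p q * Xm r - Xm r * Ym p q = Xm (tp p q r) := by
  refine Inf_ext fun z => ?_
  have h0 : (Ym p q * Xm r - Xm r * Ym p q) z = Ym p q (Xm r z) - Xm r (Ym p q z) := rfl
  rw [h0, Inf_Ym_apply, Inf_Ym_apply, Xm_apply, Xm_apply, Xm_apply]
  simp only [Inf_third]
  refine Prod.ext ?_ (Prod.ext ?_ ?_)
  · change 0 - 2 * ip r (tp p q z.2.2) = 2 * ip (tp p q r) z.2.2
    rw [Inf_tp_anti]
    ring
  · funext β
    change Inf_W p q (fun α => -ip r (ga α z.2.2)) β - -ip r (ga β (tp p q z.2.2))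
      = -ip (tp p q r) (ga β z.2.2)
    rw [Inf_W_eq, ← Inf_tp_anti]
    have h1 : tp p q (ga β z.2.2) = ga β (tp p q z.2.2)
        + fun k => ∑ α, (ip p (ga α (ga β q)) - ip q (ga α (ga β p))) * ga α z.2.2 k := by
      funext k
      have := Inf_key β p q z.2.2 k
      simp only [Pi.add_apply]
      linarith
    rw [h1, ip_add, Inf_ipsum]
    have h2 : ∑ α, -ip r (ga α z.2.2) * (ip p (ga β (ga α q)) - ip q (ga β (ga α p)))
        = ∑ α, (ip p (ga α (ga β q)) - ip q (ga α (ga β p))) * ip r (ga α z.2.2) := by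
      refine Finset.sum_congr rfl fun α _ => ?_
      have g1 : ip q (ga β (ga α p)) = ip p (ga α (ga β q)) := by
        rw [← ip_ga β q, ← ip_ga α (ga β q) p, ip_comm]
      have g2 : ip q (ga α (ga β p)) = ip p (ga β (ga α q)) := by
        rw [← ip_ga α q, ← ip_ga β (ga α q) p, ip_comm]
      rw [g1, g2]
      ring
    rw [h2]
    ring
  · funext k
    change tp p q ((3 / 2 * z.1) • r - gv z.2.1 r) k
      - ((3 / 2 * (0 : ℝ)) • r - gv (Inf_W p q z.2.1) r) k
      = ((3 / 2 * z.1) • tp p q r - gv z.2.1 (tp p q r)) k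
    have h1 := congrFun (Inf_keyv z.2.1 p q r) k
    have h2 : tp p q ((3 / 2 * z.1) • r - gv z.2.1 r)
        = (3 / 2 * z.1) • tp p q r - tp p q (gv z.2.1 r) := by
      have h3 : (3 / 2 * z.1) • r - gv z.2.1 r = (3 / 2 * z.1) • r + (-1 : ℝ) • gv z.2.1 r := by
        rw [neg_one_smul, sub_eq_add_neg]
      rw [h3, tp_add3, tp_smul3, tp_smul3, neg_one_smul, ← sub_eq_add_neg]
    rw [h2]
    simp only [Pi.sub_apply, Pi.smul_apply, smul_eq_mul] at h1 ⊢
    linarith

theorem Ym_e0 (p q : PP) : Ym p q e0 = 0 := by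
  rw [Inf_Ym_apply]
  refine Prod.ext rfl (Prod.ext ?_ ?_)
  · funext β
    change Inf_W p q 0 β = 0
    rw [Inf_W_eq]
    simp
  · change tp p q 0 = 0
    have := tp_smul3 0 p q 0
    simpa using this

end FF4

end
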