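import Pool.Agent.FF4.Ge
import Pool.Agent.FF4.Inf

/-! # Module Exg (difficulty 3): exponentials in the group

`eu_mem`: for `Ia A` and `z`, `t ↦ Qf (exp (t A) z)` has derivative `fderiv Qf y (A y) = 0`, `y = exp (t A) z` (`exp_der`,
chain rule), so it is constant: at `t = 1` and `t = 0`. The same for `Cf`. `mt_eg`: unfold `eg`, `dif_pos`.
`hy_add`: `exp_add'` (multiples of the same operator commute). `hasDerivAt_hy`: derivative of
`t ↦ m (exp (-t X) z)`. `wJ`: the map `(a, v, ψ) ↦ (a, v, -ψ)` preserves `Qf`, `Cf` and `e0`.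
`hy_wJ`: `w X_p w = -X_p`, so `w exp (t X_p) w⁻¹ = exp (-t X_p)` (`NormedSpace.exp_units_conj` or uniqueness of the
solution of the differential equation, or `map_exp`). `act_hy_e0`: the curve
`c t = ((3 cosh² t - 1)/2, -(3/4) sinh² t v₀, (3/4) sinh 2t e_0)`, `v₀ = (1, 0, ..., 0)` (`v₀ α = <bs 0, γ_α (bs 0)>`, a table fact) satisfies
`c' = X_{bs 0} c`, `c 0 = e0`, so `exp (-t X) (c t)` has derivative `0`. -/

open MeasureTheory
open scoped ContDiff

noncomputable section

namespace FF4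

private theorem Exg_dap (A : Mt) (z : EE) (t : ℝ) :
    HasDerivAt (fun s : ℝ => (NormedSpace.exp (s • A) : Mt) z)
      (A ((NormedSpace.exp (t • A) : Mt) z)) t := by
  have h := (ContinuousLinearMap.apply ℝ EE z).hasFDerivAt.comp_hasDerivAt t (exp_der A t)
  exact h

private theorem Exg_cexp (A : Mt) : Continuous (fun s : ℝ => (NormedSpace.exp (s • A) : Mt)) :=
  continuous_iff_continuousAt.2 fun t => (exp_der A t).continuousAt

private theorem Exg_inv (A : Mt) (f : EE → ℝ) (hf : ContDiff ℝ ∞ f) (h : ∀ z, LX A f z = 0)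
    (z : EE) : f ((NormedSpace.exp A : Mt) z) = f z := by
  have hd : ∀ t : ℝ, HasDerivAt (fun s : ℝ => f ((NormedSpace.exp (s • A) : Mt) z)) 0 t := by
    intro t
    have h1 : HasFDerivAt f (fderiv ℝ f ((NormedSpace.exp (t • A) : Mt) z))
        ((NormedSpace.exp (t • A) : Mt) z) :=
      (hf.differentiable (by simp)).differentiableAt.hasFDerivAt
    have h2 := h1.comp_hasDerivAt t (Exg_dap A z t)
    have h3 : fderiv ℝ f ((NormedSpace.exp (t • A) : Mt) z) (A ((NormedSpace.exp (t • A) : Mt) z))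
        = 0 := by
      have := h ((NormedSpace.exp (t • A) : Mt) z)
      unfold LX at this
      linarith
    rw [h3] at h2
    exact h2
  have hc := is_const_of_deriv_eq_zero (fun t => (hd t).differentiableAt)
    (fun t => (hd t).deriv) 1 0
  simpa using hc

theorem eu_mem {A : Mt} (hA : Ia A) : eu A ∈ F4 := by
  intro z
  exact ⟨Exg_inv A Qf contDiff_Qf hA.q z, Exg_inv A Cf contDiff_Cf hA.c z⟩

theorem mt_eg {A : Mt} (hA : Ia A) : mt (eg A) = NormedSpace.exp A := by
  unfold eg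
  rw [dif_pos (eu_mem hA)]
  rfl

theorem mt_hy (p : PP) (t : ℝ) : mt (hy p t) = NormedSpace.exp (t • Xm p) :=
  mt_eg ((Ia_Xm p).smul t)

theorem hy_zero (p : PP) : hy p 0 = 1 := by
  apply mt_injective
  rw [mt_hy, zero_smul, NormedSpace.exp_zero, mt_one]

theorem hy_add (p : PP) (s t : ℝ) : hy p (s + t) = hy p s * hy p t := by
  apply mt_injective
  rw [mt_mul, mt_hy, mt_hy, mt_hy, add_smul]
  exact exp_add' (((Commute.refl (Xm p)).smul_left s).smul_right t)

theorem hy_neg (p : PP) (t : ℝ) : hy p (-t) = (hy p t)⁻¹ := by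
  apply eq_inv_of_mul_eq_one_left
  rw [← hy_add, neg_add_cancel, hy_zero]

theorem continuous_hy (p : PP) : Continuous (hy p) := by
  have h1 : Continuous (fun t => mt (hy p t)) := by
    simp only [mt_hy]
    exact Exg_cexp (Xm p)
  refine continuous_induced_rng.2 ?_
  refine Units.continuous_iff.2 ⟨h1, ?_⟩
  have h2 : Continuous (fun t => mt (hy p (-t))) := h1.comp continuous_neg
  have h3 : (fun t => mt (hy p (-t))) = fun t => mt ((hy p t)⁻¹) := by
    funext t
    rw [hy_neg]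
  rw [h3] at h2
  exact h2

theorem hasDerivAt_mt_hy (p : PP) (z : EE) (t : ℝ) :
    HasDerivAt (fun t => mt (hy p t) z) (Xm p (mt (hy p t) z)) t := by
  have h := Exg_dap (Xm p) z t
  simp only [mt_hy]
  exact h

theorem hasDerivAt_hy {m : EE → ℝ} (hm : ContDiff ℝ ∞ m) (p : PP) (z : EE) (t : ℝ) :
    HasDerivAt (fun t => m (mt (hy p (-t)) z)) (Dp p m (mt (hy p (-t)) z)) t := by
  have h0 : HasDerivAt (fun t : ℝ => -t) (-1) t := hasDerivAt_neg t
  have h1 : HasDerivAt (fun s => mt (hy p s) z) (Xm p (mt (hy p (-t)) z)) (-t) :=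
    hasDerivAt_mt_hy p z (-t)
  have h2 : HasDerivAt (fun t => mt (hy p (-t)) z) ((-1 : ℝ) • Xm p (mt (hy p (-t)) z)) t :=
    h1.scomp t h0
  have h3 : HasFDerivAt m (fderiv ℝ m (mt (hy p (-t)) z)) (mt (hy p (-t)) z) :=
    (hm.differentiable (by simp)).differentiableAt.hasFDerivAt
  have h4 := h3.comp_hasDerivAt t h2
  have h5 : fderiv ℝ m (mt (hy p (-t)) z) ((-1 : ℝ) • Xm p (mt (hy p (-t)) z))
      = Dp p m (mt (hy p (-t)) z) := by
    unfold Dp LX
    rw [map_smul]
    simp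
  rw [h5] at h4
  exact h4

private def Exg_J : Mt :=
  (ContinuousLinearMap.fst ℝ ℝ (VV × PP)).prod
    (((ContinuousLinearMap.fst ℝ VV PP).comp (ContinuousLinearMap.snd ℝ ℝ (VV × PP))).prod
      (-((ContinuousLinearMap.snd ℝ VV PP).comp (ContinuousLinearMap.snd ℝ ℝ (VV × PP)))))

private theorem Exg_J_apply (z : EE) : Exg_J z = (z.1, z.2.1, -z.2.2) := rfl

private theorem Exg_JJ : Exg_J * Exg_J = 1 := by
  ext z <;> simp [Exg_J_apply]

private def Exg_Ju : Mtˣ := ⟨Exg_J, Exg_J, Exg_JJ, Exg_JJ⟩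

private theorem Exg_ipneg (p q : PP) : ip (-p) (-q) = ip p q := by
  unfold ip
  simp

private theorem Exg_gvneg (v : VV) (p : PP) : gv v (-p) = -gv v p := by
  funext k
  simp [gv, ga]

theorem exists_wJ : ∃ w : GG, w ∈ KK ∧ (∀ z : EE, mt w z = (z.1, z.2.1, -z.2.2)) ∧
    ∀ p s, w * hy p s * w⁻¹ = (hy p s)⁻¹ := by
  have hmem : Exg_Ju ∈ F4 := by
    intro z
    constructor
    · change Qf (Exg_J z) = Qf z
      rw [Exg_J_apply]
      unfold Qf
      simp only [Exg_ipneg]
    · change Cf (Exg_J z) = Cf z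
      rw [Exg_J_apply]
      unfold Cf
      simp only [Exg_ipneg, Exg_gvneg]
  refine ⟨⟨Exg_Ju, hmem⟩, ?_, fun z => rfl, ?_⟩
  · change Exg_J e0 = e0
    rw [Exg_J_apply]
    simp [e0]
  · intro p s
    apply mt_injective
    rw [← hy_neg, mt_mul, mt_mul, mt_hy, mt_hy]
    have h1 : mt ((⟨Exg_Ju, hmem⟩ : GG)⁻¹) = ((Exg_Ju⁻¹ : Mtˣ) : Mt) := rfl
    have h2 : mt (⟨Exg_Ju, hmem⟩ : GG) = ((Exg_Ju : Mtˣ) : Mt) := rfl
    rw [h1, h2]
    let _ : NormedAlgebra ℚ Mt := NormedAlgebra.restrictScalars ℚ ℝ Mt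
    rw [← NormedSpace.exp_units_conj]
    congr 1
    change Exg_J * (s • Xm p) * Exg_J = -s • Xm p
    refine ContinuousLinearMap.ext fun z => ?_
    change Exg_J (s • Xm p (Exg_J z)) = -s • Xm p z
    simp only [Exg_J_apply, Xm_apply]
    refine Prod.ext ?_ (Prod.ext ?_ ?_)
    · simp [ip]
    · funext α
      simp [ip, ga]
    · funext k
      simp [gv, ga]

private theorem Exg_bs0 (k : Fin 16) : bs 0 k = if k = 0 then 1 else 0 := by
  unfold bs
  rw [Pi.single_apply]

private theorem Exg_gi0 (k : Fin 16) : gi 0 k = k := by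
  revert k
  decide

private theorem Exg_gs00 : gs 0 0 = 1 := by
  decide

private theorem Exg_gine (α : Fin 9) (h : α ≠ 0) : gi α 0 ≠ 0 := by
  revert α
  decide

private theorem Exg_ip0 (q : PP) : ip (bs 0) q = q 0 := by
  unfold ip
  rw [Finset.sum_eq_single 0]
  · simp [Exg_bs0]
  · intro b _ hb
    simp [Exg_bs0, hb]
  · intro h
    exact absurd (Finset.mem_univ _) h

theorem act_hy_e0 (t : ℝ) : mt (hy (bs 0) t) e0 = ((3 * Real.cosh t ^ 2 - 1) / 2,
    (fun α => if α = 0 then -(3 / 4) * Real.sinh t ^ 2 else 0),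
    (3 / 4 * Real.sinh (2 * t)) • bs 0) := by
  set c : ℝ → EE := fun t => ((3 * Real.cosh t ^ 2 - 1) / 2,
    (fun α => if α = 0 then -(3 / 4) * Real.sinh t ^ 2 else 0),
    (3 / 4 * Real.sinh (2 * t)) • bs 0) with hc
  have hcosh : ∀ s : ℝ, Real.cosh s ^ 2 - Real.sinh s ^ 2 = 1 := Real.cosh_sq_sub_sinh_sq
  have hder : ∀ s : ℝ, HasDerivAt c (Xm (bs 0) (c s)) s := by
    intro s
    have hch : HasDerivAt Real.cosh (Real.sinh s) s := Real.hasDerivAt_cosh s
    have hsh : HasDerivAt Real.sinh (Real.cosh s) s := Real.hasDerivAt_sinh s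
    have hs2 : HasDerivAt (fun x : ℝ => Real.sinh (2 * x)) (Real.cosh (2 * s) * 2) s := by
      have h1 : HasDerivAt (fun x : ℝ => 2 * x) 2 s := by
        simpa using (hasDerivAt_id s).const_mul (2 : ℝ)
      exact (Real.hasDerivAt_sinh (2 * s)).comp s h1
    have h1 : HasDerivAt (fun x : ℝ => (3 * Real.cosh x ^ 2 - 1) / 2)
        (2 * ip (bs 0) (c s).2.2) s := by
      have h := (((hch.pow 2).const_mul 3).sub_const 1).div_const 2
      refine h.congr_deriv ?_
      rw [Exg_ip0]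
      simp only [hc, Pi.smul_apply, smul_eq_mul, Exg_bs0, if_true, Real.sinh_two_mul]
      simp
      ring
    have h2 : HasDerivAt (fun x : ℝ => (fun α : Fin 9 => if α = 0 then
        -(3 / 4) * Real.sinh x ^ 2 else 0)) (fun α => -ip (bs 0) (ga α (c s).2.2)) s := by
      rw [hasDerivAt_pi]
      intro α
      rw [Exg_ip0]
      by_cases hα : α = 0
      · subst hα
        simp only [if_true]
        have h := (hsh.pow 2).const_mul (-(3 / 4) : ℝ)
        refine h.congr_deriv ?_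
        simp only [hc, ga, Exg_gi0, Exg_gs00, Pi.smul_apply, smul_eq_mul, Exg_bs0, if_true,
          Real.sinh_two_mul]
        simp
      · simp only [if_neg hα]
        refine (hasDerivAt_const s (0 : ℝ)).congr_deriv ?_
        simp only [hc, ga, Pi.smul_apply, smul_eq_mul, Exg_bs0, if_neg (Exg_gine α hα)]
        simp
    have h3 : HasDerivAt (fun x : ℝ => (3 / 4 * Real.sinh (2 * x)) • bs 0)
        (fun k => 3 / 2 * (c s).1 * bs 0 k - gv (c s).2.1 (bs 0) k) s := by
      rw [hasDerivAt_pi]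
      intro k
      have h := (hs2.const_mul (3 / 4 : ℝ)).mul_const (bs 0 k)
      refine h.congr_deriv ?_
      have hg : gv (c s).2.1 (bs 0) k = (-(3 / 4) * Real.sinh s ^ 2) * bs 0 k := by
        unfold gv
        rw [Finset.sum_eq_single 0]
        · simp only [hc, if_true, ga, Exg_gi0]
          by_cases hk : k = 0
          · subst hk
            simp [Exg_gs00]
          · simp [Exg_bs0, hk]
        · intro b _ hb
          simp [hc, hb]
        · intro h
          exact absurd (Finset.mem_univ _) h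
      rw [hg]
      simp only [hc]
      rw [Real.cosh_two_mul]
      have := hcosh s
      have h5 : Real.sinh s ^ 2 = Real.cosh s ^ 2 - 1 := by linarith
      rw [h5]
      ring
    exact h1.prodMk (h2.prodMk h3)
  have hD : ∀ s : ℝ, HasDerivAt (fun x : ℝ => (NormedSpace.exp ((-x) • Xm (bs 0)) : Mt) (c x)) 0 s := by
    intro s
    have h0 : HasDerivAt (fun x : ℝ => -x) (-1) s := hasDerivAt_neg s
    have h1 : HasDerivAt (fun x : ℝ => (NormedSpace.exp (x • Xm (bs 0)) : Mt))
        ((NormedSpace.exp ((-s) • Xm (bs 0)) : Mt) * Xm (bs 0)) (-s) :=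
      hasDerivAt_exp_smul_const (𝕂 := ℝ) (Xm (bs 0)) (-s)
    have h2 : HasDerivAt (fun x : ℝ => (NormedSpace.exp ((-x) • Xm (bs 0)) : Mt))
        ((-1 : ℝ) • ((NormedSpace.exp ((-s) • Xm (bs 0)) : Mt) * Xm (bs 0))) s :=
      h1.scomp s h0
    have h3 := h2.clm_apply (hder s)
    refine h3.congr_deriv ?_
    change (-1 : ℝ) • ((NormedSpace.exp ((-s) • Xm (bs 0)) : Mt) (Xm (bs 0) (c s)))
      + (NormedSpace.exp ((-s) • Xm (bs 0)) : Mt) (Xm (bs 0) (c s)) = 0
    rw [neg_one_smul, neg_add_cancel]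
  have hconst := is_const_of_deriv_eq_zero (fun s => (hD s).differentiableAt)
    (fun s => (hD s).deriv) t 0
  have hc0 : c 0 = e0 := by
    simp only [hc, e0]
    refine Prod.ext ?_ (Prod.ext ?_ ?_)
    · simp
      norm_num
    · funext α
      simp
    · simp
  have h6 : (NormedSpace.exp ((-t) • Xm (bs 0)) : Mt) (c t) = e0 := by
    rw [hconst, hc0]
    simp
  rw [← mt_hy] at h6
  rw [← h6]
  have h7 : mt (hy (bs 0) t) (mt (hy (bs 0) (-t)) (c t)) = (mt (hy (bs 0) t * hy (bs 0) (-t))) (c t) :=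
    rfl
  rw [h7, ← hy_add, add_neg_cancel, hy_zero, mt_one]
  rfl

theorem nm_hy (t : ℝ) : nm (hy (bs 0) t) = (3 * Real.cosh t ^ 2 - 1) / 2 := by
  unfold nm
  rw [act_hy_e0]

theorem hy_H (t : ℝ) : mt (hy (bs 0) t) * Xm (bs 0) = Xm (bs 0) * mt (hy (bs 0) t) := by
  rw [mt_hy]
  exact ((Commute.refl (Xm (bs 0))).smul_left t).exp_left.eq

end FF4

end
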