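import Pool.Agent.FF4.Kcp
import Pool.Agent.FF4.Exg

/-! # Module Kak (difficulty 4): the orbit of `e0` and the Cartan decomposition

`orbit_eqs`: at `e0`, `fderiv Cf e0 y = (3/4) y.1 = (1/2) fderiv Qf e0 y` (`fderiv_Qf`, `fderiv_Cf`). For `z = g e0`:
`Cf ∘ g = Cf`, `Qf ∘ g = Qf` and the chain rule give `fderiv Cf z y = (1/2) fderiv Qf z y` for all `y`. With `z = (a, v, ψ)` and
`y = (1,0,0)`, `(0,w,0)`, `(0,0,φ)`: (1) `3/4 a² - |v|² - |ψ|²/2 = 3/4 a`; (2) `-(2a+1) v_α = <ψ, γ_α ψ>`;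
(3) `2 γ(v)ψ = (1-a) ψ`. And `Qf z = 3/4`. So `|ψ|² = (2a+1)(a-1)/2`, `|v|² = (a-1)²/4`.
`one_le_nm`: `(2a+1)(a-1) ≥ 0` gives `a ≥ 1` or `a ≤ -1/2`; the second is impossible: choose `w ≠ 0` in `ℝ^9` with `<v,w> = 0`,
`y = (0,w,0)`. The coefficient of `t²` in `Cf (z + t y)` is `-a |w|²`, and the first derivative of `Qf` at `z` in the direction `y` is
`2<v,w> = 0`. Apply `g⁻¹`: `y' = g⁻¹ y ≠ 0`, the coefficient of `t` in `Qf (e0 + t y')` vanishes, so `y'_a = 0`, and the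
coefficient of `t²` in `Cf (e0 + t y')` is `-|y'_v|² - |y'_ψ|²/2 < 0`. So `a |w|² > 0`, `a > 0`.
`kak`: `a ≥ 1`: `s ≥ 0` with `a = (3 cosh² s - 1)/2` (`cosh² s = (2a+1)/3 ≥ 1`), `|ψ|² = (9/16) sinh² 2s`. Let `r = (3/4) sinh 2s`, and
`k ∈ K` (`K_trans`) with `B (r e_0) = ψ`. Then `k a_s e0 = (a, v'', ψ)` (`act_hy_e0`, `kst`) and both points satisfy (2) with
`2a + 1 > 0`, so `v'' = v`, `k a_s e0 = g e0`, `k' = (k a_s)⁻¹ g ∈ K`.
`isCompact_ball`: `{g | nm g ≤ R}` is closed and contained in `K * hy '' [0, S] * K` (`nm (k g) = nm g = nm (g k)`, `nm_hy`).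
`ax_hy`: `SPN.Ax`. -/

open MeasureTheory
open scoped ContDiff

noncomputable section

namespace FF4

private theorem Kak_chain {f : EE → ℝ} (hf : ContDiff ℝ ∞ f) {g : GG}
    (hg : ∀ z, f (mt g z) = f z) (x y : EE) :
    fderiv ℝ f (mt g x) (mt g y) = fderiv ℝ f x y := by
  have h1 : DifferentiableAt ℝ f (mt g x) :=
    (hf.differentiable (by simp)).differentiableAt
  have h2 : HasFDerivAt (fun z => f (mt g z)) ((fderiv ℝ f (mt g x)).comp (mt g)) x :=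
    h1.hasFDerivAt.comp x (mt g).hasFDerivAt
  have h3 : (fun z => f (mt g z)) = f := funext hg
  rw [h3] at h2
  rw [h2.fderiv]
  rfl

private theorem Kak_ip_zero_left (p : PP) : ip 0 p = 0 := by
  simp [ip]

private theorem Kak_ip_zero_right (p : PP) : ip p 0 = 0 := by
  simp [ip]

private theorem Kak_gv_zero (p : PP) : gv 0 p = 0 := by
  funext k
  simp [gv]

private theorem Kak_gv_zero' (v : VV) : gv v 0 = 0 := by
  funext k
  simp [gv, ga]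

private theorem Kak_mt_inv (g : GG) (z : EE) : mt g (mt g⁻¹ z) = z := by
  have h2 : (mt g * mt g⁻¹) z = z := by rw [mt_mul_inv]; rfl
  exact h2

private theorem Kak_inv_mt (g : GG) (z : EE) : mt g⁻¹ (mt g z) = z := by
  have h2 : (mt g⁻¹ * mt g) z = z := by rw [mt_inv_mul]; rfl
  exact h2

private theorem Kak_e0 (y : EE) : fderiv ℝ Cf e0 y = 1 / 2 * fderiv ℝ Qf e0 y := by
  rw [fderiv_Cf, fderiv_Qf]
  have h1 : e0.1 = 1 := rfl
  have h2 : e0.2.1 = 0 := rfl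
  have h3 : e0.2.2 = 0 := rfl
  rw [h1, h2, h3, Kak_ip_zero_left, Kak_ip_zero_left, Kak_ip_zero_left, Kak_gv_zero,
    Kak_ip_zero_right]
  simp only [Pi.zero_apply, zero_mul, Finset.sum_const_zero]
  ring

private theorem Kak_all (g : GG) (y : EE) :
    fderiv ℝ Cf (mt g e0) y = 1 / 2 * fderiv ℝ Qf (mt g e0) y := by
  have h1 := Kak_chain contDiff_Cf (mt_C g) e0 (mt g⁻¹ y)
  have h2 := Kak_chain contDiff_Qf (mt_Q g) e0 (mt g⁻¹ y)
  rw [Kak_mt_inv] at h1 h2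
  rw [h1, h2, Kak_e0]

private theorem Kak_Q (g : GG) : 3 / 4 * (mt g e0).1 ^ 2 + ∑ α, (mt g e0).2.1 α ^ 2
    - ip (mt g e0).2.2 (mt g e0).2.2 = 3 / 4 := by
  have h1 : Qf (mt g e0) = Qf e0 := mt_Q g e0
  have h2 : Qf e0 = 3 / 4 := by
    unfold Qf
    have h1 : e0.1 = 1 := rfl
    have h2 : e0.2.1 = 0 := rfl
    have h3 : e0.2.2 = 0 := rfl
    rw [h1, h2, h3, Kak_ip_zero_left]
    simp
  rw [h2] at h1
  exact h1

theorem orbit_eqs (g : GG) : ip (mt g e0).2.2 (mt g e0).2.2 = (2 * nm g + 1) * (nm g - 1) / 2 ∧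
    ∀ α, -(2 * nm g + 1) * (mt g e0).2.1 α = ip (mt g e0).2.2 (ga α (mt g e0).2.2) := by
  obtain ⟨z, hz⟩ : ∃ z, z = mt g e0 := ⟨_, rfl⟩
  have hnm : nm g = z.1 := by rw [hz]; rfl
  have hall := Kak_all g
  have hQ := Kak_Q g
  rw [hnm, ← hz]
  rw [← hz] at hall hQ
  refine ⟨?_, fun α => ?_⟩
  · have h1 := hall (1, 0, 0)
    rw [fderiv_Cf, fderiv_Qf] at h1
    simp only [Pi.zero_apply, mul_zero, Finset.sum_const_zero, Kak_ip_zero_left,
      Kak_ip_zero_right, Kak_gv_zero, mul_one, one_mul, sub_zero, add_zero] at h1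
    linarith
  · have h1 := hall (0, Pi.single α 1, 0)
    rw [fderiv_Cf, fderiv_Qf] at h1
    have h2 : ∑ β, z.2.1 β * (Pi.single α (1 : ℝ) : VV) β = z.2.1 α := by
      simp [Pi.single_apply]
    have h3 : gv (Pi.single α (1 : ℝ)) z.2.2 = ga α z.2.2 := by
      funext k
      simp [gv, Pi.single_apply]
    simp only [mul_zero, zero_mul, zero_div, Kak_ip_zero_left, Kak_ip_zero_right, sub_zero,
      zero_add, zero_sub, h2, h3] at h1
    linarith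

private theorem Kak_w (v : VV) : ∃ w : VV, ∑ α, v α * w α = 0 ∧ 0 < ∑ α, w α ^ 2 := by
  by_cases h : v 0 = 0 ∧ v 1 = 0
  · refine ⟨Pi.single 0 1, ?_, ?_⟩
    · simp [Pi.single_apply, h.1]
    · simp [Pi.single_apply]
  · have e0' : (Pi.single 0 (v 1) + Pi.single 1 (-(v 0)) : VV) 0 = v 1 := by
      simp [Pi.single_apply]
    have e1' : (Pi.single 0 (v 1) + Pi.single 1 (-(v 0)) : VV) 1 = -(v 0) := by
      simp [Pi.single_apply]
    refine ⟨Pi.single 0 (v 1) + Pi.single 1 (-(v 0)), ?_, ?_⟩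
    · simp only [Pi.add_apply, mul_add, Finset.sum_add_distrib, Pi.single_apply, mul_ite, mul_zero,
        Finset.sum_ite_eq', Finset.mem_univ, if_true]
      ring
    · by_cases h1 : v 1 = 0
      · have h0 : v 0 ≠ 0 := fun h0 => h ⟨h0, h1⟩
        refine Finset.sum_pos' (fun α _ => sq_nonneg _) ⟨1, Finset.mem_univ _, ?_⟩
        rw [e1']
        rw [neg_sq]
        exact sq_pos_of_ne_zero h0
      · refine Finset.sum_pos' (fun α _ => sq_nonneg _) ⟨0, Finset.mem_univ _, ?_⟩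
        rw [e0']
        exact sq_pos_of_ne_zero h1

private theorem Kak_gv_add (v w : VV) (p : PP) : gv (v + w) p = gv v p + gv w p := by
  funext k
  simp [gv, add_mul, Finset.sum_add_distrib]

private theorem Kak_gv_smul (t : ℝ) (w : VV) (p : PP) : gv (t • w) p = t • gv w p := by
  funext k
  simp only [gv, Pi.smul_apply, smul_eq_mul, Finset.mul_sum, mul_assoc]

private theorem Kak_gv_smul' (t : ℝ) (w : VV) (p : PP) : gv w (t • p) = t • gv w p := by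
  funext k
  simp only [gv, Pi.smul_apply, smul_eq_mul, Finset.mul_sum, ga]
  refine Finset.sum_congr rfl fun α _ => ?_
  ring

private theorem Kak_sq (v w : VV) (t : ℝ) : ∑ α, (v + t • w) α ^ 2
    = ∑ α, v α ^ 2 + 2 * t * ∑ α, v α * w α + t ^ 2 * ∑ α, w α ^ 2 := by
  simp only [Finset.mul_sum]
  rw [← Finset.sum_add_distrib, ← Finset.sum_add_distrib]
  refine Finset.sum_congr rfl fun α _ => ?_
  simp only [Pi.add_apply, Pi.smul_apply, smul_eq_mul]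
  ring

private theorem Kak_smul_ip (t : ℝ) (p q : PP) : ip (t • p) q = t * ip p q := by
  rw [ip_comm, ip_smul, ip_comm]

/-- the forms along a line through `z` in the direction `(0, w, 0)` -/
private theorem Kak_lineQ (z : EE) (w : VV) (t : ℝ) :
    Qf (z + t • ((0, w, 0) : EE)) = 3 / 4 * z.1 ^ 2 + (∑ α, z.2.1 α ^ 2
      + 2 * t * ∑ α, z.2.1 α * w α + t ^ 2 * ∑ α, w α ^ 2) - ip z.2.2 z.2.2 := by
  have h1 : (z + t • ((0, w, 0) : EE)).1 = z.1 := by simp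
  have h2 : (z + t • ((0, w, 0) : EE)).2.1 = z.2.1 + t • w := by simp
  have h3 : (z + t • ((0, w, 0) : EE)).2.2 = z.2.2 := by simp
  unfold Qf
  rw [h1, h2, h3, Kak_sq]

private theorem Kak_lineC (z : EE) (w : VV) (t : ℝ) :
    Cf (z + t • ((0, w, 0) : EE)) = z.1 ^ 3 / 4 - z.1 * (∑ α, z.2.1 α ^ 2
      + 2 * t * ∑ α, z.2.1 α * w α + t ^ 2 * ∑ α, w α ^ 2) - z.1 * ip z.2.2 z.2.2 / 2
      - (ip z.2.2 (gv z.2.1 z.2.2) + t * ip z.2.2 (gv w z.2.2)) := by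
  have h1 : (z + t • ((0, w, 0) : EE)).1 = z.1 := by simp
  have h2 : (z + t • ((0, w, 0) : EE)).2.1 = z.2.1 + t • w := by simp
  have h3 : (z + t • ((0, w, 0) : EE)).2.2 = z.2.2 := by simp
  unfold Cf
  rw [h1, h2, h3, Kak_sq, Kak_gv_add, Kak_gv_smul, ip_add, ip_smul]

private theorem Kak_lineQ0 (y : EE) (t : ℝ) :
    Qf (e0 + t • y) = 3 / 4 * (1 + t * y.1) ^ 2 + t ^ 2 * ∑ α, y.2.1 α ^ 2
      - t ^ 2 * ip y.2.2 y.2.2 := by
  have h1 : (e0 + t • y).1 = 1 + t * y.1 := by simp [e0]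
  have h2 : (e0 + t • y).2.1 = t • y.2.1 := by simp [e0]
  have h3 : (e0 + t • y).2.2 = t • y.2.2 := by simp [e0]
  unfold Qf
  rw [h1, h2, h3, ip_smul, Kak_smul_ip]
  simp only [Pi.smul_apply, smul_eq_mul, mul_pow]
  rw [← Finset.mul_sum]
  ring

private theorem Kak_lineC0 (y : EE) (t : ℝ) :
    Cf (e0 + t • y) = (1 + t * y.1) ^ 3 / 4 - (1 + t * y.1) * (t ^ 2 * ∑ α, y.2.1 α ^ 2)
      - (1 + t * y.1) * (t ^ 2 * ip y.2.2 y.2.2) / 2 - t ^ 3 * ip y.2.2 (gv y.2.1 y.2.2) := by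
  have h1 : (e0 + t • y).1 = 1 + t * y.1 := by simp [e0]
  have h2 : (e0 + t • y).2.1 = t • y.2.1 := by simp [e0]
  have h3 : (e0 + t • y).2.2 = t • y.2.2 := by simp [e0]
  unfold Cf
  rw [h1, h2, h3, Kak_gv_smul, Kak_gv_smul', ip_smul, ip_smul, ip_smul, Kak_smul_ip, Kak_smul_ip]
  simp only [Pi.smul_apply, smul_eq_mul, mul_pow]
  rw [← Finset.mul_sum]
  ring

theorem one_le_nm (g : GG) : 1 ≤ nm g := by
  obtain ⟨z, hz⟩ : ∃ z, z = mt g e0 := ⟨_, rfl⟩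
  have hnm : nm g = z.1 := by rw [hz]; rfl
  obtain ⟨w, hw0, hw⟩ := Kak_w z.2.1
  obtain ⟨y, hy⟩ : ∃ y : EE, y = mt g⁻¹ ((0, w, 0) : EE) := ⟨_, rfl⟩
  have hline : ∀ t : ℝ, mt g (e0 + t • y) = z + t • ((0, w, 0) : EE) := by
    intro t
    rw [map_add, map_smul, hy, Kak_mt_inv, hz]
  have hQ : ∀ t : ℝ, Qf (z + t • ((0, w, 0) : EE)) = Qf (e0 + t • y) := by
    intro t
    rw [← hline, mt_Q]
  have hC : ∀ t : ℝ, Cf (z + t • ((0, w, 0) : EE)) = Cf (e0 + t • y) := by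
    intro t
    rw [← hline, mt_C]
  have q1 := hQ 1
  have q2 := hQ (-1)
  rw [Kak_lineQ, Kak_lineQ0, hw0] at q1 q2
  have hb : y.1 = 0 := by linarith
  have c0 := hC 0
  have c1 := hC 1
  have c2 := hC (-1)
  rw [Kak_lineC, Kak_lineC0, hw0, hb] at c0 c1 c2
  have h1 : z.1 * ∑ α, w α ^ 2 = ∑ α, y.2.1 α ^ 2 + ip y.2.2 y.2.2 / 2 := by linarith
  have h2 : 0 ≤ ∑ α, y.2.1 α ^ 2 := Finset.sum_nonneg fun α _ => sq_nonneg _
  have h3 : 0 ≤ ip y.2.2 y.2.2 := ip_self_nonneg _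
  have h4 : 0 ≤ z.1 := by
    by_contra h5
    have h6 : z.1 * ∑ α, w α ^ 2 < 0 := mul_neg_of_neg_of_pos (not_le.1 h5) hw
    linarith
  have h5 := (orbit_eqs g).1
  have h6 : 0 ≤ ip (mt g e0).2.2 (mt g e0).2.2 := ip_self_nonneg _
  rw [h5, hnm] at h6
  rw [hnm]
  by_contra h7
  have h8 : z.1 < 1 := not_le.1 h7
  have h9 : (2 * z.1 + 1) * (z.1 - 1) < 0 :=
    mul_neg_of_pos_of_neg (by linarith) (by linarith)
  linarith

theorem nm_KK_mul {k : GG} (hk : k ∈ KK) (g : GG) : nm (k * g) = nm g := by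
  show (mt k (mt g e0)).1 = (mt g e0).1
  exact kst_fst hk _

theorem nm_mul_KK {k : GG} (hk : k ∈ KK) (g : GG) : nm (g * k) = nm g := by
  show (mt g (mt k e0)).1 = (mt g e0).1
  rw [mem_KK.1 hk]

theorem continuous_nm : Continuous nm := continuous_fst.comp (continuous_mt_apply e0)

theorem kak (g : GG) : ∃ k ∈ KK, ∃ s : ℝ, 0 ≤ s ∧ ∃ k' ∈ KK, g = k * hy (bs 0) s * k' := by
  have ha := one_le_nm g
  obtain ⟨s, hs⟩ : ∃ s, s = Real.arsinh (Real.sqrt ((2 * nm g - 2) / 3)) := ⟨_, rfl⟩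
  have hs0 : 0 ≤ s := by rw [hs]; exact Real.arsinh_nonneg_iff.2 (Real.sqrt_nonneg _)
  have hq0 : 0 ≤ (2 * nm g - 2) / 3 := by linarith
  have hsinh : Real.sinh s ^ 2 = (2 * nm g - 2) / 3 := by
    rw [hs, Real.sinh_arsinh, Real.sq_sqrt hq0]
  have hcosh : Real.cosh s ^ 2 = (2 * nm g + 1) / 3 := by
    rw [Real.cosh_sq, hsinh]
    ring
  have hnm : nm (hy (bs 0) s) = nm g := by
    rw [nm_hy, hcosh]
    ring
  obtain ⟨r, hr⟩ : ∃ r, r = 3 / 4 * Real.sinh (2 * s) := ⟨_, rfl⟩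
  have hr2 : r ^ 2 = (2 * nm g + 1) * (nm g - 1) / 2 := by
    rw [hr, Real.sinh_two_mul]
    have h1 : (3 / 4 * (2 * Real.sinh s * Real.cosh s)) ^ 2
        = 9 / 4 * Real.sinh s ^ 2 * Real.cosh s ^ 2 := by ring
    rw [h1, hsinh, hcosh]
    ring
  have hp : ip (r • bs 0) (r • bs 0) = ip (mt g e0).2.2 (mt g e0).2.2 := by
    rw [(orbit_eqs g).1, ip_smul, Kak_smul_ip, ip_bs, if_pos rfl, ← hr2]
    ring
  obtain ⟨k, hk, hkz⟩ := K_trans _ _ hp
  have hψ : (mt (k * hy (bs 0) s) e0).2.2 = (mt g e0).2.2 := by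
    show (mt k (mt (hy (bs 0) s) e0)).2.2 = (mt g e0).2.2
    refine hkz _ ?_
    rw [act_hy_e0, hr]
  have hnm' : nm (k * hy (bs 0) s) = nm g := by rw [nm_KK_mul hk, hnm]
  have hv : (mt (k * hy (bs 0) s) e0).2.1 = (mt g e0).2.1 := by
    funext α
    have h1 := (orbit_eqs (k * hy (bs 0) s)).2 α
    have h2 := (orbit_eqs g).2 α
    rw [hψ, hnm', ← h2] at h1
    have h3 : -(2 * nm g + 1) ≠ 0 := by
      intro h
      linarith
    exact mul_left_cancel₀ h3 h1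
  have hz : mt (k * hy (bs 0) s) e0 = mt g e0 :=
    Prod.ext hnm' (Prod.ext hv hψ)
  refine ⟨k, hk, s, hs0, (k * hy (bs 0) s)⁻¹ * g, ?_, ?_⟩
  · rw [mem_KK]
    show mt (k * hy (bs 0) s)⁻¹ (mt g e0) = e0
    rw [← hz, Kak_inv_mt]
  · rw [mul_inv_cancel_left]

private theorem Kak_le {s : ℝ} (hs : 0 ≤ s) {R : ℝ} (h : nm (hy (bs 0) s) ≤ R) :
    s ≤ (2 * R + 1) / 3 := by
  rw [nm_hy] at h
  have h1 : Real.cosh s ^ 2 ≤ (2 * R + 1) / 3 := by linarith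
  have h2 : s ≤ Real.sinh s := Real.self_le_sinh_iff.2 hs
  have h3 := Real.sinh_lt_cosh s
  have h4 : 1 ≤ Real.cosh s := Real.one_le_cosh s
  have h5 : Real.cosh s ≤ Real.cosh s ^ 2 := by nlinarith
  linarith

open scoped Pointwise in
theorem isCompact_ball (R : ℝ) : IsCompact {g : GG | nm g ≤ R} := by
  have hc : IsCompact ((KK : Set GG) * (hy (bs 0) '' Set.Icc 0 ((2 * R + 1) / 3)) * (KK : Set GG)) :=
    (isCompact_KK.mul (isCompact_Icc.image (continuous_hy _))).mul isCompact_KK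
  refine hc.of_isClosed_subset (isClosed_le continuous_nm continuous_const) ?_
  intro g hg
  have hg' : nm g ≤ R := hg
  obtain ⟨k, hk, s, hs, k', hk', e⟩ := kak g
  have h1 : nm (hy (bs 0) s) ≤ R := by
    rw [e, nm_mul_KK hk', nm_KK_mul hk] at hg'
    exact hg'
  rw [e]
  exact Set.mul_mem_mul (Set.mul_mem_mul hk ⟨s, ⟨hs, Kak_le hs h1⟩, rfl⟩) hk'

theorem bounded_of_compact {L : Set GG} (hL : IsCompact L) : ∃ R : ℝ, ∀ g ∈ L, nm g ≤ R := by
  obtain ⟨R, hR⟩ := hL.bddAbove_image continuous_nm.continuousOn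
  exact ⟨R, fun g hg => hR ⟨g, hg, rfl⟩⟩

theorem ax_hy : SPN.Ax KK (hy (bs 0)) where
  cont := continuous_hy _
  zero := hy_zero _
  add := hy_add _
  weyl := by
    obtain ⟨w, hw, -, h⟩ := exists_wJ
    exact ⟨w, hw, fun s => h (bs 0) s⟩
  kak := fun g => kak g
  proper := by
    intro L hL
    obtain ⟨R, hR⟩ := bounded_of_compact hL
    refine ⟨(2 * R + 1) / 3, fun k hk k' hk' s hs hm => ?_⟩
    have h1 := hR _ hm
    rw [nm_mul_KK hk', nm_KK_mul hk] at h1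
    exact Kak_le hs h1

end FF4

end
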