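import Pool.Agent.FF4.Exg
import Pool.Agent.FF4.Kak
import Pool.Agent.FF4.Com

/-! # Module Smf (difficulty 2): the class `Sm` is stable

Compare SPN/Smf.lean (source in the tarball). `Sm.dp`: here `hasDerivAt_hy` holds for every `p`: if `R < nm g` then
`nm ((hy p (-t)) * g) > R` for small `t` (`continuous_nm`, `continuous_hy`). -/

open MeasureTheory
open scoped ContDiff

noncomputable section

namespace FF4

theorem Sm.zero : Sm (fun _ : EE => (0 : ℝ)) :=
  ⟨contDiff_const, 0, fun _ _ => rfl⟩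

theorem Sm.add {m m' : EE → ℝ} (hm : Sm m) (hm' : Sm m') : Sm (fun z => m z + m' z) := by
  obtain ⟨R, hR⟩ := hm.supp
  obtain ⟨R', hR'⟩ := hm'.supp
  refine ⟨hm.smooth.add hm'.smooth, max R R', fun g hg => ?_⟩
  show m (mt g e0) + m' (mt g e0) = 0
  rw [hR g ((le_max_left _ _).trans_lt hg), hR' g ((le_max_right _ _).trans_lt hg), add_zero]

theorem Sm.cmul {m : EE → ℝ} (hm : Sm m) (r : ℝ) : Sm (fun z => r * m z) := by
  obtain ⟨R, hR⟩ := hm.supp
  refine ⟨contDiff_const.mul hm.smooth, R, fun g hg => ?_⟩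
  show r * m (mt g e0) = 0
  rw [hR g hg, mul_zero]

theorem Sm.sum {ι : Type*} (s : Finset ι) {m : ι → EE → ℝ} (hm : ∀ i ∈ s, Sm (m i)) :
    Sm (fun z => ∑ i ∈ s, m i z) := by
  classical
  induction s using Finset.induction_on with
  | empty => simpa using Sm.zero
  | insert a s ha ih =>
    simp only [Finset.sum_insert ha]
    exact Sm.add (hm a (Finset.mem_insert_self a s))
      (ih fun i hi => hm i (Finset.mem_insert_of_mem hi))

theorem Sm.dp {m : EE → ℝ} (hm : Sm m) (p : PP) : Sm (Dp p m) := by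
  obtain ⟨R, hR⟩ := hm.supp
  refine ⟨Dp_contDiff hm.smooth p, R, fun g hg => ?_⟩
  have h1 := hasDerivAt_hy hm.smooth p (mt g e0) 0
  have h2 : mt (hy p (-0)) (mt g e0) = mt g e0 := by
    rw [neg_zero, hy_zero, mt_one]
    rfl
  rw [h2] at h1
  have hcont : Continuous fun t : ℝ => nm (hy p (-t) * g) :=
    continuous_nm.comp (((continuous_hy p).comp continuous_neg).mul continuous_const)
  have hev : ∀ᶠ t in nhds (0 : ℝ), R < nm (hy p (-t) * g) := by
    refine hcont.continuousAt.eventually (lt_mem_nhds ?_)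
    show R < nm (hy p (-0) * g)
    rw [neg_zero, hy_zero, one_mul]
    exact hg
  have h5 : (fun t : ℝ => m (mt (hy p (-t)) (mt g e0))) =ᶠ[nhds 0] fun _ => (0 : ℝ) := by
    filter_upwards [hev] with t ht
    have h6 := hR (hy p (-t) * g) ht
    rw [mt_mul] at h6
    exact h6
  have h7 : HasDerivAt (fun t : ℝ => m (mt (hy p (-t)) (mt g e0))) 0 0 :=
    (hasDerivAt_const (0 : ℝ) (0 : ℝ)).congr_of_eventuallyEq h5
  exact h1.unique h7

theorem Sm.lap {m : EE → ℝ} (hm : Sm m) : Sm (Lap m) :=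
  Sm.sum Finset.univ fun i _ => (hm.dp (bs i)).dp (bs i)

theorem Kn.add {m m' : EE → ℝ} (hm : Kn m) (hm' : Kn m') : Kn (fun z => m z + m' z) where
  toSm := hm.toSm.add hm'.toSm
  left := fun k hk z => by
    show m (mt k z) + m' (mt k z) = m z + m' z
    rw [hm.left k hk, hm'.left k hk]

theorem Kn.cmul {m : EE → ℝ} (hm : Kn m) (r : ℝ) : Kn (fun z => r * m z) where
  toSm := hm.toSm.cmul r
  left := fun k hk z => by
    show r * m (mt k z) = r * m z
    rw [hm.left k hk]

theorem Kn.sum {ι : Type*} (s : Finset ι) {m : ι → EE → ℝ} (hm : ∀ i ∈ s, Kn (m i)) :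
    Kn (fun z => ∑ i ∈ s, m i z) where
  toSm := Sm.sum s fun i hi => (hm i hi).toSm
  left := fun k hk z => Finset.sum_congr rfl fun i hi => (hm i hi).left k hk z

end FF4

end
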