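import Pool.Agent.FF4.Alga
import Pool.Agent.FF4.Trc

/-! # Module Algb (difficulty 2): first contraction

The proof is the same as in SPN/Algb.lean (source in the tarball), with `tr_c`. -/

open MeasureTheory
open scoped ContDiff

noncomputable section

namespace FF4

variable {T : (EE → ℝ) → (EE → ℝ) → (EE → ℝ) → ℝ}

theorem alg_b (hT : Tf T) {m : EE → ℝ} (hm : Kn m) :
    T m (Lap m) (Lap m) = ∑ i, ∑ j, T m (Dp (bs i) (Dp (bs j) m)) (Dp (bs i) (Dp (bs j) m))
      - 36 * ∑ i, T m (Dp (bs i) m) (Dp (bs i) m) := by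
  have hS : Sm m := hm.toSm
  have h1 : ∀ i j : Fin 16,
      T m (Dp (bs i) (Dp (bs i) m)) (Dp (bs j) (Dp (bs j) m)) =
      T m (Dp (bs j) (Dp (bs i) m)) (Dp (bs j) (Dp (bs i) m)) +
        T m (Dp (bs i) m) (Dp (tp (bs j) (bs i) (bs j)) m) := by
    intro i j
    have h := move hT hm (bs i) (bs i) (bs j) (bs j)
    linarith
  have h2 : T m (Lap m) (Lap m) =
      ∑ i : Fin 16, ∑ j : Fin 16,
        T m (Dp (bs i) (Dp (bs i) m)) (Dp (bs j) (Dp (bs j) m)) := by
    have e1 : T m (Lap m) (Lap m) =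
        ∑ i : Fin 16, T m (Dp (bs i) (Dp (bs i) m)) (Lap m) :=
      hT.sum2 Finset.univ (b := fun i : Fin 16 => Dp (bs i) (Dp (bs i) m)) hS
        (fun i _ => (hS.dp _).dp _) hS.lap
    rw [e1]
    refine Finset.sum_congr rfl fun i _ => ?_
    exact hT.sum3 Finset.univ (c := fun j : Fin 16 => Dp (bs j) (Dp (bs j) m)) hS
      ((hS.dp _).dp _) (fun j _ => (hS.dp _).dp _)
  have h3 : ∀ i : Fin 16,
      ∑ j : Fin 16, T m (Dp (bs i) m) (Dp (tp (bs j) (bs i) (bs j)) m) =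
        (-36 : ℝ) * T m (Dp (bs i) m) (Dp (bs i) m) := by
    intro i
    have e0 := hT.sum3 Finset.univ
      (c := fun j : Fin 16 => Dp (tp (bs j) (bs i) (bs j)) m) hS (hS.dp (bs i))
      (fun j _ => hS.dp _)
    have e2 : (fun z => ∑ j : Fin 16, Dp (tp (bs j) (bs i) (bs j)) m z) =
        fun z => (-36 : ℝ) * Dp (bs i) m z := by
      funext z
      rw [← Dp_sum_left, tr_c, Dp_smul_left]
    rw [e2, hT.smul3] at e0
    exact e0.symm
  rw [h2]
  simp_rw [h1, Finset.sum_add_distrib, h3]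
  rw [← Finset.mul_sum, Finset.sum_comm]
  ring

end FF4

end
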