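import Pool.Agent.FF4.Gam

/-! # Module Onf (difficulty 3): orthonormal bases and the Fierz identity for bilinear forms

`onb`: as in SPN/Onb.lean (source in the tarball), with `ip` and the basis `bs i` of `ℝ^16`.
`exists_ga`: `ga α` as a linear isometry. `frz`: both sides are bilinear in `(p, q)`; expand `ψ` in the basis:
`ψ x y = ∑_{a,b} x a * y b * ψ (bs a) (bs b)`, `ψ_ab = ψ_ba`. The left side is
`∑_ab ψ_ab ∑_α (ga α p) a (ga α q) b = ∑_ab ψ_ab (1/2) ∑_α ((ga α p) a (ga α q) b + (ga α p) b (ga α q) a)`. By `gcub` with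
`r = bs b`, component `a`: `∑_α (<p, γ_α q> (γ_α b) a + <q, γ_α b> (γ_α p) a + <b, γ_α p> (γ_α q) a)
= <p,q> δ_ab + q_b p_a + p_b q_a`, where `<q, γ_α b> = (γ_α q) b` and `(γ_α b) a = <a, γ_α b>`. Multiply by `ψ_ab / 2`
and sum: `∑_α ψ (γ_α p) (γ_α q) = ψ p q + (1/2) <p,q> ∑_a ψ_aa - (1/2) ∑_α <p, γ_α q> ∑_ab <a, γ_α b> ψ_ab`, and
`∑_ab <a, γ_α b> ψ_ab = ∑_b ψ (γ_α b) b`. -/

open MeasureTheory
open scoped ContDiff

noncomputable section

namespace FF4

private theorem onf_ip_comp (p : PP) (i : Fin 16) : ip p (bs i) = p i := by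
  simp [ip, bs, Pi.single_apply]

private theorem onf_expand (ψ : PP →ₗ[ℝ] PP →ₗ[ℝ] ℝ) (x y : PP) :
    ψ x y = ∑ a, ∑ b, x a * y b * ψ (bs a) (bs b) := by
  have h1 : ψ x y = ∑ a, x a * ψ (bs a) y := by
    conv_lhs => rw [bs_sum x]
    simp only [map_sum, map_smul, LinearMap.sum_apply, LinearMap.smul_apply, smul_eq_mul]
  have h2 : ∀ a, ψ (bs a) y = ∑ b, y b * ψ (bs a) (bs b) := by
    intro a
    conv_lhs => rw [bs_sum y]
    simp only [map_sum, map_smul, smul_eq_mul]
  rw [h1]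
  refine Finset.sum_congr rfl fun a _ => ?_
  rw [h2 a, Finset.mul_sum]
  refine Finset.sum_congr rfl fun b _ => ?_
  ring

private theorem onf_polar (p q : PP) : ip (p + q) (p + q) = ip p p + ip q q + 2 * ip p q := by
  simp only [ip, Pi.add_apply, Finset.mul_sum, ← Finset.sum_add_distrib]
  refine Finset.sum_congr rfl fun i _ => ?_
  ring

theorem onb {L : PP →ₗ[ℝ] PP} (hL : ∀ p, ip (L p) (L p) = ip p p)
    (ψ : PP →ₗ[ℝ] PP →ₗ[ℝ] ℝ) :
    ∑ i, ψ (L (bs i)) (L (bs i)) = ∑ i, ψ (bs i) (bs i) := by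
  classical
  have hB : ∀ p q : PP, ip (L p) (L q) = ip p q := by
    intro p q
    have h1 := onf_polar (L p) (L q)
    have h2 := onf_polar p q
    rw [← map_add, hL, hL, hL] at h1
    linarith
  let M : Matrix (Fin 16) (Fin 16) ℝ := Matrix.of fun j i => L (bs i) j
  have hM1 : M.transpose * M = 1 := by
    ext i k
    rw [Matrix.mul_apply]
    have h1 : ∀ j, M.transpose i j * M j k = L (bs i) j * L (bs k) j := fun j => rfl
    rw [Finset.sum_congr rfl fun j _ => h1 j, Matrix.one_apply]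
    have h2 : ∑ j, L (bs i) j * L (bs k) j = ip (L (bs i)) (L (bs k)) := rfl
    rw [h2, hB, ip_bs]
  have hM2 : M * M.transpose = 1 := mul_eq_one_comm.1 hM1
  have hM3 : ∀ j k, ∑ i, M j i * M k i = if j = k then 1 else 0 := by
    intro j k
    have := congrFun (congrFun hM2 j) k
    rw [Matrix.mul_apply, Matrix.one_apply] at this
    exact this
  calc ∑ i, ψ (L (bs i)) (L (bs i))
      = ∑ i, ∑ j, ∑ k, (M j i * M k i) * ψ (bs j) (bs k) := by
        refine Finset.sum_congr rfl fun i _ => ?_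
        rw [onf_expand ψ (L (bs i)) (L (bs i))]
        rfl
    _ = ∑ j, ∑ k, (∑ i, M j i * M k i) * ψ (bs j) (bs k) := by
        rw [Finset.sum_comm]
        refine Finset.sum_congr rfl fun j _ => ?_
        rw [Finset.sum_comm]
        refine Finset.sum_congr rfl fun k _ => ?_
        rw [Finset.sum_mul]
    _ = ∑ j, ψ (bs j) (bs j) := by
        refine Finset.sum_congr rfl fun j _ => ?_
        simp [hM3]

theorem exists_ga (α : Fin 9) : ∃ L : PP →ₗ[ℝ] PP, (∀ p, ip (L p) (L p) = ip p p) ∧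
    ∀ p, L p = ga α p := by
  refine ⟨{ toFun := ga α, map_add' := ga_add α, map_smul' := ga_smul α }, ?_, fun p => rfl⟩
  intro p
  change ip (ga α p) (ga α p) = ip p p
  rw [ip_ga, ga_ga]

private theorem onf_ga_bs (α : Fin 9) (q : PP) (b : Fin 16) : ip q (ga α (bs b)) = ga α q b := by
  rw [← ip_ga, onf_ip_comp]

private theorem onf_g (p q : PP) (a b : Fin 16) :
    ∑ α, (ga α p a * ga α q b + ga α p b * ga α q a) =
      ip p q * (if a = b then 1 else 0) + q b * p a + p b * q a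
        - ∑ α, ip p (ga α q) * ip (bs a) (ga α (bs b)) := by
  have h := gcub p q (bs b) a
  have h1 : ∀ α : Fin 9, ip p (ga α q) * ga α (bs b) a + ip q (ga α (bs b)) * ga α p a
      + ip (bs b) (ga α p) * ga α q a =
      (ga α p a * ga α q b + ga α p b * ga α q a) + ip p (ga α q) * ip (bs a) (ga α (bs b)) := by
    intro α
    have e1 : ga α (bs b) a = ip (bs a) (ga α (bs b)) := by
      rw [ip_comm, onf_ip_comp]
    have e2 : ip (bs b) (ga α p) = ga α p b := by rw [ip_comm, onf_ip_comp]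
    rw [onf_ga_bs, e1, e2]
    ring
  rw [Finset.sum_congr rfl fun α _ => h1 α, Finset.sum_add_distrib] at h
  have h2 : ip q (bs b) = q b := onf_ip_comp q b
  have h3 : ip (bs b) p = p b := by rw [ip_comm]; exact onf_ip_comp p b
  have h4 : bs b a = if a = b then 1 else 0 := by
    simp [bs, Pi.single_apply]
  rw [h2, h3, h4] at h
  linarith

theorem frz {ψ : PP →ₗ[ℝ] PP →ₗ[ℝ] ℝ} (hs : ∀ p q, ψ p q = ψ q p) (p q : PP) :
    ∑ α, ψ (ga α p) (ga α q) = ψ p q + 1 / 2 * ip p q * ∑ i, ψ (bs i) (bs i)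
      - 1 / 2 * ∑ α, ip p (ga α q) * ∑ i, ψ (ga α (bs i)) (bs i) := by
  have hL : ∑ α, ψ (ga α p) (ga α q) =
      ∑ a, ∑ b, ((∑ α, (ga α p a * ga α q b)) * ψ (bs a) (bs b)) := by
    rw [Finset.sum_congr rfl fun α _ => onf_expand ψ (ga α p) (ga α q)]
    rw [Finset.sum_comm]
    refine Finset.sum_congr rfl fun a _ => ?_
    rw [Finset.sum_comm]
    refine Finset.sum_congr rfl fun b _ => ?_
    rw [Finset.sum_mul]
  have hL' : ∑ α, ψ (ga α p) (ga α q) =
      ∑ a, ∑ b, ((∑ α, (ga α p b * ga α q a)) * ψ (bs a) (bs b)) := by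
    rw [hL, Finset.sum_comm]
    refine Finset.sum_congr rfl fun a _ => ?_
    refine Finset.sum_congr rfl fun b _ => ?_
    rw [hs (bs b) (bs a)]
  have h2 : 2 * ∑ α, ψ (ga α p) (ga α q) =
      ∑ a, ∑ b, ((∑ α, (ga α p a * ga α q b + ga α p b * ga α q a)) * ψ (bs a) (bs b)) := by
    have e : 2 * ∑ α, ψ (ga α p) (ga α q) =
        ∑ α, ψ (ga α p) (ga α q) + ∑ α, ψ (ga α p) (ga α q) := by ring
    rw [e]
    nth_rewrite 1 [hL]
    rw [hL', ← Finset.sum_add_distrib]
    refine Finset.sum_congr rfl fun a _ => ?_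
    rw [← Finset.sum_add_distrib]
    refine Finset.sum_congr rfl fun b _ => ?_
    rw [Finset.sum_add_distrib]
    ring
  have hA : ∑ a : Fin 16, ∑ b : Fin 16, (ip p q * (if a = b then 1 else 0)) * ψ (bs a) (bs b) =
      ip p q * ∑ i, ψ (bs i) (bs i) := by
    rw [Finset.mul_sum]
    refine Finset.sum_congr rfl fun a _ => ?_
    simp
  have hB : ∑ a, ∑ b, (q b * p a) * ψ (bs a) (bs b) = ψ p q := by
    rw [onf_expand ψ p q]
    refine Finset.sum_congr rfl fun a _ => ?_
    refine Finset.sum_congr rfl fun b _ => ?_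
    ring
  have hC : ∑ a, ∑ b, (p b * q a) * ψ (bs a) (bs b) = ψ p q := by
    rw [hs p q, onf_expand ψ q p]
    refine Finset.sum_congr rfl fun a _ => ?_
    refine Finset.sum_congr rfl fun b _ => ?_
    ring
  have hD : ∑ a, ∑ b, (∑ α, ip p (ga α q) * ip (bs a) (ga α (bs b))) * ψ (bs a) (bs b) =
      ∑ α, ip p (ga α q) * ∑ i, ψ (ga α (bs i)) (bs i) := by
    have e1 : ∀ α : Fin 9, ∑ i, ψ (ga α (bs i)) (bs i) =
        ∑ a, ∑ b, ip (bs a) (ga α (bs b)) * ψ (bs a) (bs b) := by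
      intro α
      rw [Finset.sum_comm]
      refine Finset.sum_congr rfl fun b _ => ?_
      conv_lhs => rw [bs_sum (ga α (bs b))]
      simp only [map_sum, map_smul, LinearMap.sum_apply, LinearMap.smul_apply, smul_eq_mul]
      refine Finset.sum_congr rfl fun a _ => ?_
      have e2 : ga α (bs b) a = ip (bs a) (ga α (bs b)) := by
        rw [ip_comm, onf_ip_comp]
      rw [e2]
    have e3 : ∑ α, ip p (ga α q) * ∑ i, ψ (ga α (bs i)) (bs i) =
        ∑ α, ∑ a, ∑ b, ip p (ga α q) * ip (bs a) (ga α (bs b)) * ψ (bs a) (bs b) := by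
      refine Finset.sum_congr rfl fun α _ => ?_
      rw [e1 α, Finset.mul_sum]
      refine Finset.sum_congr rfl fun a _ => ?_
      rw [Finset.mul_sum]
      refine Finset.sum_congr rfl fun b _ => ?_
      ring
    rw [e3]
    symm
    rw [Finset.sum_comm]
    refine Finset.sum_congr rfl fun a _ => ?_
    rw [Finset.sum_comm]
    refine Finset.sum_congr rfl fun b _ => ?_
    rw [Finset.sum_mul]
  simp only [onf_g] at h2
  have h3 : ∑ a, ∑ b, ((ip p q * (if a = b then 1 else 0) + q b * p a + p b * q a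
        - ∑ α, ip p (ga α q) * ip (bs a) (ga α (bs b))) * ψ (bs a) (bs b)) =
      ∑ a : Fin 16, ∑ b : Fin 16, (ip p q * (if a = b then 1 else 0)) * ψ (bs a) (bs b) +
      ∑ a, ∑ b, (q b * p a) * ψ (bs a) (bs b) + ∑ a, ∑ b, (p b * q a) * ψ (bs a) (bs b) -
      ∑ a, ∑ b, (∑ α, ip p (ga α q) * ip (bs a) (ga α (bs b))) * ψ (bs a) (bs b) := by
    simp only [← Finset.sum_add_distrib, ← Finset.sum_sub_distrib]
    refine Finset.sum_congr rfl fun a _ => ?_
    refine Finset.sum_congr rfl fun b _ => ?_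
    ring
  rw [h3, hA, hB, hC, hD] at h2
  linarith

end FF4

end
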