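import Pool.Agent.FF4.Alga
import Pool.Agent.FF4.Trc
import Pool.Agent.FF4.Onf

/-! # Module Algc (difficulty 3): second contraction

Compare SPN/Algc.lean (source in the tarball). Write `γ = ga α` (`exists_ga`: linear, isometric, `γ γ p = p`), `tr = fun z => ∑_e Dp (γ e) (Dp e m) z`,
`Q = ∑_{i,j} [D_iD_j m, D_{γi}D_{γj} m]`. `move` with `p = e_i`, `q = e_j`, `r = γ e_i`, `s = γ e_j`, summed:
`2 Q = ∑ [D_{γi}D_i m, D_{γj}D_j m] + ∑ [D_{γj}D_i m, D_{γi}D_j m] + ∑ [D_j m, D_{tp (γj) i (γi)} m]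
+ ∑ [D_i m, D_{tp (γj) j (γi)} m]`. First sum: `[tr, tr]`. Second sum: for fixed `i`, `φ p q = [D_{γp}D_i m, D_{γi}D_q m]` is
bilinear (`exists_bil1` after `D_comm`), so `∑_j φ j j = ∑_j φ (γj) (γj) = ∑_j [D_jD_i m, D_{γi}D_{γj} m]` (`onb`): it is `Q`.
Third and fourth: `∑_p [D_p m, D_{V p} m]`, `V p = 20 p` (`tr_v`). So `Q = [tr, tr] + 20 S`. -/

open MeasureTheory
open scoped ContDiff

noncomputable section

namespace FF4

variable {T : (EE → ℝ) → (EE → ℝ) → (EE → ℝ) → ℝ}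

private theorem algc_comm {m : EE → ℝ} (hm : Kn m) (p q : PP) :
    Dp p (Dp q m) = Dp q (Dp p m) :=
  funext fun z => D_comm hm.smooth hm.left p q z

private theorem algc_smul (r : ℝ) (p : PP) (b : EE → ℝ) :
    Dp (r • p) b = fun z => r * Dp p b z :=
  funext fun z => Dp_smul_left r p b z

private theorem algc_second (hT : Tf T) {m : EE → ℝ} (hm : Kn m) (α : Fin 9) (i : Fin 16) :
    ∑ j : Fin 16, T m (Dp (ga α (bs j)) (Dp (bs i) m)) (Dp (ga α (bs i)) (Dp (bs j) m)) =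
      ∑ j : Fin 16, T m (Dp (bs i) (Dp (bs j) m)) (Dp (ga α (bs i)) (Dp (ga α (bs j)) m)) := by
  have hs : Sm m := hm.toSm
  obtain ⟨L, hL, hLr⟩ := exists_ga α
  obtain ⟨ψ, hψ⟩ := exists_bil1 hT hs (hs.dp (bs i)) (hs.dp (ga α (bs i)))
  have h := onb hL (ψ.comp L)
  simp only [LinearMap.comp_apply, hψ, hLr, ga_ga] at h
  have e1 : ∑ j : Fin 16, T m (Dp (ga α (bs j)) (Dp (bs i) m)) (Dp (ga α (bs i)) (Dp (bs j) m)) =
      ∑ j : Fin 16, T m (Dp (ga α (bs j)) (Dp (bs i) m))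
        (Dp (bs j) (Dp (ga α (bs i)) m)) := by
    refine Finset.sum_congr rfl fun j _ => ?_
    rw [algc_comm hm (ga α (bs i)) (bs j)]
  rw [e1, ← h]
  refine Finset.sum_congr rfl fun j _ => ?_
  rw [algc_comm hm (bs j) (bs i), algc_comm hm (ga α (bs j)) (ga α (bs i))]

private theorem algc_vec (hT : Tf T) {m b : EE → ℝ} (hm : Sm m) (hb : Sm b)
    (v w : Fin 16 → PP) :
    ∑ i, T m b (Dp (v i) m) + ∑ i, T m b (Dp (w i) m) =
      T m b (Dp (∑ i, (v i + w i)) m) := by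
  have h1 : Dp (∑ i, (v i + w i)) m = fun z => ∑ i, Dp (v i + w i) m z :=
    funext fun z => Dp_sum_left Finset.univ _ m z
  rw [h1, hT.sum3 Finset.univ hm hb fun i _ => hm.dp _, ← Finset.sum_add_distrib]
  refine Finset.sum_congr rfl fun i _ => ?_
  have h2 : Dp (v i + w i) m = fun z => Dp (v i) m z + Dp (w i) m z :=
    funext fun z => Dp_add_left _ _ m z
  rw [h2, hT.add3 hm hb (hm.dp _) (hm.dp _)]

theorem alg_c (hT : Tf T) {m : EE → ℝ} (hm : Kn m) (α : Fin 9) :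
    ∑ i, ∑ j, T m (Dp (bs i) (Dp (bs j) m)) (Dp (ga α (bs i)) (Dp (ga α (bs j)) m))
      = T m (fun z => ∑ i, Dp (ga α (bs i)) (Dp (bs i) m) z)
          (fun z => ∑ i, Dp (ga α (bs i)) (Dp (bs i) m) z)
        + 20 * ∑ i, T m (Dp (bs i) m) (Dp (bs i) m) := by
  have hs : Sm m := hm.toSm
  have hmove : ∀ i j : Fin 16,
      2 * T m (Dp (bs i) (Dp (bs j) m)) (Dp (ga α (bs i)) (Dp (ga α (bs j)) m)) =
      T m (Dp (ga α (bs i)) (Dp (bs i) m)) (Dp (ga α (bs j)) (Dp (bs j) m)) +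
      T m (Dp (ga α (bs j)) (Dp (bs i) m)) (Dp (ga α (bs i)) (Dp (bs j) m)) +
      T m (Dp (bs j) m) (Dp (tp (ga α (bs j)) (bs i) (ga α (bs i))) m) +
      T m (Dp (bs i) m) (Dp (tp (ga α (bs j)) (bs j) (ga α (bs i))) m) := fun i j =>
    move hT hm (bs i) (bs j) (ga α (bs i)) (ga α (bs j))
  have hsum : 2 * ∑ i, ∑ j, T m (Dp (bs i) (Dp (bs j) m))
        (Dp (ga α (bs i)) (Dp (ga α (bs j)) m)) =
      ∑ i, ∑ j, T m (Dp (ga α (bs i)) (Dp (bs i) m)) (Dp (ga α (bs j)) (Dp (bs j) m)) +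
      ∑ i, ∑ j, T m (Dp (ga α (bs j)) (Dp (bs i) m)) (Dp (ga α (bs i)) (Dp (bs j) m)) +
      ∑ i, ∑ j, T m (Dp (bs j) m) (Dp (tp (ga α (bs j)) (bs i) (ga α (bs i))) m) +
      ∑ i, ∑ j, T m (Dp (bs i) m) (Dp (tp (ga α (bs j)) (bs j) (ga α (bs i))) m) := by
    simp only [Finset.mul_sum, hmove, Finset.sum_add_distrib]
  have hfirst : ∑ i, ∑ j, T m (Dp (ga α (bs i)) (Dp (bs i) m))
        (Dp (ga α (bs j)) (Dp (bs j) m)) =
      T m (fun z => ∑ i, Dp (ga α (bs i)) (Dp (bs i) m) z)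
          (fun z => ∑ i, Dp (ga α (bs i)) (Dp (bs i) m) z) := by
    have htr : Sm (fun z => ∑ i : Fin 16, Dp (ga α (bs i)) (Dp (bs i) m) z) :=
      Sm.sum Finset.univ fun i _ => (hs.dp _).dp _
    rw [hT.sum2 Finset.univ hs (fun i _ => (hs.dp _).dp _) htr]
    refine Finset.sum_congr rfl fun i _ => ?_
    rw [hT.sum3 Finset.univ hs ((hs.dp _).dp _) (fun i _ => (hs.dp _).dp _)]
  have hsecond : ∑ i, ∑ j, T m (Dp (ga α (bs j)) (Dp (bs i) m))
        (Dp (ga α (bs i)) (Dp (bs j) m)) =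
      ∑ i, ∑ j, T m (Dp (bs i) (Dp (bs j) m)) (Dp (ga α (bs i)) (Dp (ga α (bs j)) m)) :=
    Finset.sum_congr rfl fun i _ => algc_second hT hm α i
  have hthird : ∑ i, ∑ j, T m (Dp (bs j) m) (Dp (tp (ga α (bs j)) (bs i) (ga α (bs i))) m) +
      ∑ i, ∑ j, T m (Dp (bs i) m) (Dp (tp (ga α (bs j)) (bs j) (ga α (bs i))) m) =
      20 * ∑ i, T m (Dp (bs i) m) (Dp (bs i) m) := by
    rw [Finset.sum_comm, ← Finset.sum_add_distrib, Finset.mul_sum]
    refine Finset.sum_congr rfl fun p _ => ?_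
    rw [algc_vec hT hs (hs.dp (bs p))
      (fun i => tp (ga α (bs p)) (bs i) (ga α (bs i)))
      (fun i => tp (ga α (bs i)) (bs i) (ga α (bs p))), tr_v α (bs p),
      algc_smul, hT.smul3]
  linarith

end FF4

end
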