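import Pool.Agent.FF4.Alga
import Pool.Agent.FF4.Onf

/-! # Module Algd (difficulty 3): the Fierz identity

For fixed `i, j`, as functions of `z`: `ψ p q = Dp p (Dp q m) z` is bilinear and symmetric (`D_comm`), so `frz` gives
`∑_α Dp (γ_α i) (Dp (γ_α j) m) z = Dp i (Dp j m) z + (1/2) δ_ij Lap m z - (1/2) ∑_α <e_i, γ_α e_j> tr_α z`,
`tr_α z = ∑_k Dp (γ_α k) (Dp k m) z`. Apply `T m (D_iD_j m)` (linear: `Tf.sum3`, `Tf.add3`, `Tf.smul3`) and sum over `i, j`: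
`∑_{i,j} δ_ij [D_iD_j m, Lap m] = [Lap m, Lap m]`, `∑_{i,j} <e_i, γ_α e_j> [D_iD_j m, tr_α] = [tr_α, tr_α]` since
`∑_{i,j} <e_i, γ_α e_j> D_iD_j m = ∑_j D_{γ_α j}D_j m` (`γ_α e_j = ∑_i <e_i, γ_α e_j> e_i`, `Dp_sum_left`). -/

open MeasureTheory
open scoped ContDiff

noncomputable section

namespace FF4

variable {T : (EE → ℝ) → (EE → ℝ) → (EE → ℝ) → ℝ}

/-- the bilinear map `(p, q) ↦ T m b (D_p D_q m)` -/
private theorem algd_bil (hT : Tf T) {m b : EE → ℝ} (hm : Sm m) (hb : Sm b) :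
    ∃ ψ : PP →ₗ[ℝ] PP →ₗ[ℝ] ℝ, ∀ p q, ψ p q = T m b (Dp p (Dp q m)) := by
  have ha1 : ∀ (p q : PP) (m : EE → ℝ), Dp (p + q) m = fun z => Dp p m z + Dp q m z :=
    fun p q m => funext fun z => Dp_add_left p q m z
  have ha2 : ∀ (r : ℝ) (p : PP) (m : EE → ℝ), Dp (r • p) m = fun z => r * Dp p m z :=
    fun r p m => funext fun z => Dp_smul_left r p m z
  have hb1 : ∀ (p q q' : PP), Dp p (Dp (q + q') m)
      = fun z => Dp p (Dp q m) z + Dp p (Dp q' m) z := by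
    intro p q q'
    rw [ha1]
    funext z
    exact LX_add (Dp_contDiff hm.smooth q) (Dp_contDiff hm.smooth q') _ z
  have hb2 : ∀ (r : ℝ) (p q : PP), Dp p (Dp (r • q) m) = fun z => r * Dp p (Dp q m) z := by
    intro r p q
    rw [ha2]
    funext z
    exact LX_cmul (Dp_contDiff hm.smooth q) r _ z
  refine ⟨LinearMap.mk₂ ℝ (fun p q => T m b (Dp p (Dp q m))) ?_ ?_ ?_ ?_, fun p q => rfl⟩
  · intro p p' q
    rw [ha1]
    exact hT.add3 hm hb ((hm.dp q).dp p) ((hm.dp q).dp p')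
  · intro r p q
    rw [ha2, smul_eq_mul]
    exact hT.smul3 _ _ _ _
  · intro p q q'
    rw [hb1]
    exact hT.add3 hm hb ((hm.dp q).dp p) ((hm.dp q').dp p)
  · intro r p q
    rw [hb2, smul_eq_mul]
    exact hT.smul3 _ _ _ _

private theorem algd_expand (ψ : PP →ₗ[ℝ] PP →ₗ[ℝ] ℝ) (α : Fin 9) (q : PP) :
    ∑ i, ip (bs i) (ga α q) * ψ (bs i) q = ψ (ga α q) q := by
  have h1 : ga α q = ∑ i, ip (bs i) (ga α q) • bs i := by
    conv_lhs => rw [bs_sum (ga α q)]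
    refine Finset.sum_congr rfl fun i _ => ?_
    congr 1
    simp [ip, bs, Pi.single_apply]
  conv_rhs => rw [h1]
  rw [map_sum, LinearMap.sum_apply]
  refine Finset.sum_congr rfl fun i _ => ?_
  rw [map_smul, LinearMap.smul_apply, smul_eq_mul]

private theorem algd_one (hT : Tf T) {m : EE → ℝ} (hm : Kn m) (i j : Fin 16) :
    ∑ α, T m (Dp (bs i) (Dp (bs j) m)) (Dp (ga α (bs i)) (Dp (ga α (bs j)) m))
      = T m (Dp (bs i) (Dp (bs j) m)) (Dp (bs i) (Dp (bs j) m))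
        + 1 / 2 * ip (bs i) (bs j) * T m (Dp (bs i) (Dp (bs j) m)) (Lap m)
        - 1 / 2 * ∑ α, ip (bs i) (ga α (bs j)) * T m (Dp (bs i) (Dp (bs j) m))
            (fun z => ∑ k, Dp (ga α (bs k)) (Dp (bs k) m) z) := by
  have hs : Sm m := hm.toSm
  obtain ⟨ψ, hψ⟩ := algd_bil hT hs ((hs.dp (bs j)).dp (bs i))
  have hsy : ∀ p q, ψ p q = ψ q p := by
    intro p q
    rw [hψ, hψ, show Dp p (Dp q m) = Dp q (Dp p m) from
      funext fun z => D_comm hm.smooth hm.left p q z]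
  have h := frz hsy (bs i) (bs j)
  simp only [hψ] at h
  rw [h]
  congr 1
  · congr 1
    congr 1
    have h1 : Lap m = fun z => ∑ k, Dp (bs k) (Dp (bs k) m) z := rfl
    rw [h1, hT.sum3 Finset.univ hs ((hs.dp _).dp _) fun k _ => (hs.dp _).dp _]
  · congr 1
    refine Finset.sum_congr rfl fun α _ => ?_
    congr 1
    rw [hT.sum3 Finset.univ hs ((hs.dp _).dp _) fun k _ => (hs.dp _).dp _]

theorem alg_d (hT : Tf T) {m : EE → ℝ} (hm : Kn m) :
    ∑ α, ∑ i, ∑ j, T m (Dp (bs i) (Dp (bs j) m)) (Dp (ga α (bs i)) (Dp (ga α (bs j)) m))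
      = ∑ i, ∑ j, T m (Dp (bs i) (Dp (bs j) m)) (Dp (bs i) (Dp (bs j) m))
        + 1 / 2 * T m (Lap m) (Lap m)
        - 1 / 2 * ∑ α, T m (fun z => ∑ i, Dp (ga α (bs i)) (Dp (bs i) m) z)
            (fun z => ∑ i, Dp (ga α (bs i)) (Dp (bs i) m) z) := by
  have hs : Sm m := hm.toSm
  have e1 : ∑ α, ∑ i, ∑ j, T m (Dp (bs i) (Dp (bs j) m)) (Dp (ga α (bs i)) (Dp (ga α (bs j)) m))
      = ∑ i, ∑ j, ∑ α,
        T m (Dp (bs i) (Dp (bs j) m)) (Dp (ga α (bs i)) (Dp (ga α (bs j)) m)) := by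
    rw [Finset.sum_comm]
    exact Finset.sum_congr rfl fun i _ => Finset.sum_comm
  have e2 : ∑ i, ∑ j, 1 / 2 * ip (bs i) (bs j) * T m (Dp (bs i) (Dp (bs j) m)) (Lap m)
      = 1 / 2 * T m (Lap m) (Lap m) := by
    have h1 : T m (Lap m) (Lap m) = ∑ i, T m (Dp (bs i) (Dp (bs i) m)) (Lap m) := by
      conv_lhs => rw [show T m (Lap m) (Lap m)
        = T m (fun z => ∑ k, Dp (bs k) (Dp (bs k) m) z) (Lap m) from rfl]
      rw [hT.sum2 Finset.univ hs (fun k _ => (hs.dp _).dp _) hs.lap]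
    rw [h1, Finset.mul_sum]
    refine Finset.sum_congr rfl fun i _ => ?_
    rw [Finset.sum_eq_single i]
    · rw [ip_bs, if_pos rfl, mul_one]
    · intro j _ hj
      rw [ip_bs, if_neg (fun h => hj h.symm), mul_zero, zero_mul]
    · intro h
      exact absurd (Finset.mem_univ i) h
  have e3 : ∑ i, ∑ j, 1 / 2 * ∑ α, ip (bs i) (ga α (bs j)) * T m (Dp (bs i) (Dp (bs j) m))
            (fun z => ∑ k, Dp (ga α (bs k)) (Dp (bs k) m) z)
      = 1 / 2 * ∑ α, T m (fun z => ∑ i, Dp (ga α (bs i)) (Dp (bs i) m) z)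
            (fun z => ∑ i, Dp (ga α (bs i)) (Dp (bs i) m) z) := by
    have h0 : ∑ i, ∑ j, 1 / 2 * ∑ α, ip (bs i) (ga α (bs j)) * T m (Dp (bs i) (Dp (bs j) m))
            (fun z => ∑ k, Dp (ga α (bs k)) (Dp (bs k) m) z)
        = 1 / 2 * ∑ α, ∑ j, ∑ i, ip (bs i) (ga α (bs j)) * T m (Dp (bs i) (Dp (bs j) m))
            (fun z => ∑ k, Dp (ga α (bs k)) (Dp (bs k) m) z) := by
      simp only [← Finset.mul_sum]
      congr 1
      calc ∑ i, ∑ j, ∑ α, ip (bs i) (ga α (bs j)) * T m (Dp (bs i) (Dp (bs j) m))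
            (fun z => ∑ k, Dp (ga α (bs k)) (Dp (bs k) m) z)
          = ∑ i, ∑ α, ∑ j, ip (bs i) (ga α (bs j)) * T m (Dp (bs i) (Dp (bs j) m))
            (fun z => ∑ k, Dp (ga α (bs k)) (Dp (bs k) m) z) :=
            Finset.sum_congr rfl fun i _ => Finset.sum_comm
        _ = ∑ α, ∑ i, ∑ j, ip (bs i) (ga α (bs j)) * T m (Dp (bs i) (Dp (bs j) m))
            (fun z => ∑ k, Dp (ga α (bs k)) (Dp (bs k) m) z) := Finset.sum_comm
        _ = _ := Finset.sum_congr rfl fun α _ => Finset.sum_comm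
    rw [h0]
    congr 1
    refine Finset.sum_congr rfl fun α _ => ?_
    have htr : Sm (fun z => ∑ k : Fin 16, Dp (ga α (bs k)) (Dp (bs k) m) z) :=
      Sm.sum Finset.univ fun i _ => (hs.dp _).dp _
    obtain ⟨ψ, hψ⟩ := algd_bil hT hs htr
    rw [hT.sum3 Finset.univ hs htr fun k _ => (hs.dp _).dp _]
    refine Finset.sum_congr rfl fun j _ => ?_
    rw [← hψ (ga α (bs j)) (bs j), ← algd_expand ψ α (bs j)]
    refine Finset.sum_congr rfl fun i _ => ?_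
    rw [hψ, hT.symm]
  rw [e1, Finset.sum_congr rfl fun i _ => Finset.sum_congr rfl fun j _ => algd_one hT hm i j]
  simp only [Finset.sum_sub_distrib, Finset.sum_add_distrib]
  rw [e2, e3]

end FF4

end
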