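import Pool.Agent.FF4.Algb
import Pool.Agent.FF4.Algc
import Pool.Agent.FF4.Algd

/-! # Module Alge (difficulty 1): `96 S ≤ [Lap m, Lap m]`

`A = L + 36 S` (`alg_b`), `∑_α Q_α = M + 180 S` (`alg_c`, nine terms, `Finset.sum_add_distrib`), `∑_α Q_α = A + L/2 - M/2` (`alg_d`), so
`M = L - 96 S`, and `M ≥ 0` (`hT.nonneg`, `tr_α` is in `Sm`). -/

open MeasureTheory
open scoped ContDiff

noncomputable section

namespace FF4

variable {T : (EE → ℝ) → (EE → ℝ) → (EE → ℝ) → ℝ}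

theorem alg_e (hT : Tf T) {m : EE → ℝ} (hm : Kn m) (h0 : ∀ z, 0 ≤ m z) :
    96 * ∑ i, T m (Dp (bs i) m) (Dp (bs i) m) ≤ T m (Lap m) (Lap m) := by
  have hsm : ∀ α : Fin 9, Sm (fun z => ∑ i, Dp (ga α (bs i)) (Dp (bs i) m) z) := by
    intro α
    exact Sm.sum Finset.univ fun i _ => (hm.toSm.dp _).dp _
  have hb := alg_b hT hm
  have hd := alg_d hT hm
  have hc : ∑ α : Fin 9, ∑ i, ∑ j, T m (Dp (bs i) (Dp (bs j) m))
      (Dp (ga α (bs i)) (Dp (ga α (bs j)) m)) =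
      ∑ α : Fin 9, T m (fun z => ∑ i, Dp (ga α (bs i)) (Dp (bs i) m) z)
          (fun z => ∑ i, Dp (ga α (bs i)) (Dp (bs i) m) z)
        + 180 * ∑ i, T m (Dp (bs i) m) (Dp (bs i) m) := by
    rw [Finset.sum_congr rfl fun α _ => alg_c hT hm α, Finset.sum_add_distrib, Finset.sum_const,
      Finset.card_univ, Fintype.card_fin, nsmul_eq_mul]
    push_cast
    ring
  have hM : 0 ≤ ∑ α : Fin 9, T m (fun z => ∑ i, Dp (ga α (bs i)) (Dp (bs i) m) z)
          (fun z => ∑ i, Dp (ga α (bs i)) (Dp (bs i) m) z) :=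
    Finset.sum_nonneg fun α _ => hT.nonneg m _ hm.toSm h0 (hsm α)
  linarith

end FF4

end
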