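import Pool.Agent.FF4.Exg

/-! # Module Dra (difficulty 4): root vectors

`H = Xm (bs 0)`, `X = Xm (bs i)`, `Y = Yi i = λ⁻¹ (H X - X H)`, `λ = lam i = 2` for `1 ≤ i ≤ 7`, `1` for `8 ≤ i ≤ 15`.
`tp_root`: `tp (bs 0) (bs i) (bs 0) = -λ² (bs i)` and `tp (bs 0) (bs i) (bs i) = λ² (bs 0)` for `i ≠ 0`: explicit finite computation
with the tables (`tp p q p = 3<q,p>p - 3<p,p>q + ∑_α (<q, γ_α p> γ_α p - <p, γ_α p> γ_α q)`, `p = bs 0`: `<p, γ_α p> = δ_α0`,
`γ_0 (bs i) = bs i` for `i < 8` and `- bs i` for `i ≥ 8`, `∑_α <q, γ_α p> γ_α p` is `0` for `1 ≤ i < 8`, `bs i` for `i ≥ 8`); everything is integral, so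
it can be reduced to a `decide` on the tables. (Checked by computer.)
`H_Yi`: `[H, Y] = λ⁻¹ [H, [H, X]] = -λ⁻¹ [[H, X], H] = -λ⁻¹ X_{tp (bs 0) (bs i) (bs 0)} = λ X` (`Xm_triple`, linearity of `Xm`).
`Xm_Yi`: `[X, Y] = -λ⁻¹ [[H, X], X] = -λ⁻¹ X_{tp (bs 0) (bs i) (bs i)} = -λ H`.
`Yi_conj_id`: `F t = exp (-t H) (C Y + S X) exp (t H)`, `C = cosh (λ t)`, `S = sinh (λ t)`, has derivative
`exp (-t H) (-[H, C Y + S X] + λ (S Y + C X)) exp (t H) = 0` (`exp_der`, `H` commutes with `exp`), so `F t = F 0 = Y`; multiply by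
`exp (-t H)` from the right. `sum_lam`: `Fin.sum_univ_succ`, seven terms `2 coth 2t` and eight terms `coth t`. -/

open MeasureTheory
open scoped ContDiff

noncomputable section

namespace FF4

/-- integral version of the basis vectors -/
private def dz (i k : Fin 16) : ℤ := if k = i then 1 else 0

/-- integral version of `ga α (bs i) k` -/
private def gz (α : Fin 9) (i k : Fin 16) : ℤ := gs α k * dz i (gi α k)

/-- integral version of the triple product -/
private def tz (a b c k : Fin 16) : ℤ := 3 * dz b c * dz a k - 3 * dz a c * dz b k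
  + ∑ α, (gz α c b * gz α a k - gz α c a * gz α b k)

/-- integral version of the roots -/
private def lz (i : Fin 16) : ℤ := if i.val < 8 then 2 else 1

private theorem bs_dz (i k : Fin 16) : bs i k = (dz i k : ℝ) := by
  unfold bs dz
  rw [Pi.single_apply]
  split_ifs <;> simp

private theorem ga_gz (α : Fin 9) (i k : Fin 16) : ga α (bs i) k = (gz α i k : ℝ) := by
  unfold ga gz
  rw [bs_dz]
  push_cast
  rfl

private theorem ip_bs_left (i : Fin 16) (p : PP) : ip (bs i) p = p i := by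
  unfold ip
  rw [Finset.sum_eq_single i]
  · unfold bs
    rw [Pi.single_eq_same, one_mul]
  · intro k _ hk
    unfold bs
    rw [Pi.single_eq_of_ne hk, zero_mul]
  · intro h
    exact absurd (Finset.mem_univ _) h

private theorem tp_tz (a b c k : Fin 16) : tp (bs a) (bs b) (bs c) k = (tz a b c k : ℝ) := by
  unfold tp tz
  push_cast
  simp only [ip_bs_left, ga_gz, bs_dz]
  have e : ∀ x y : Fin 16, (dz x y : ℝ) = (dz y x : ℝ) := by
    intro x y
    unfold dz
    by_cases h : y = x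
    · rw [if_pos h, if_pos h.symm]
    · rw [if_neg h, if_neg (fun h2 => h h2.symm)]
  rw [e c b, e c a]

private theorem lam_lz (i : Fin 16) : lam i = (lz i : ℝ) := by
  unfold lam lz
  split_ifs <;> simp

private theorem tz_root : ∀ i : Fin 16, i ≠ 0 → ∀ k : Fin 16,
    tz 0 i 0 k = -(lz i) ^ 2 * dz i k ∧ tz 0 i i k = (lz i) ^ 2 * dz 0 k := by
  decide +kernel

theorem tp_root {i : Fin 16} (hi : i ≠ 0) : tp (bs 0) (bs i) (bs 0) = (-(lam i) ^ 2) • bs i ∧
    tp (bs 0) (bs i) (bs i) = (lam i ^ 2) • bs 0 := by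
  constructor
  · funext k
    rw [tp_tz, (tz_root i hi k).1, Pi.smul_apply, smul_eq_mul, bs_dz, lam_lz]
    push_cast
    rfl
  · funext k
    rw [tp_tz, (tz_root i hi k).2, Pi.smul_apply, smul_eq_mul, bs_dz, lam_lz]
    push_cast
    rfl

theorem Ia_Yi (i : Fin 16) : Ia (Yi i) :=
  (Ia.bracket (Ia_Xm (bs 0)) (Ia_Xm (bs i))).smul _

theorem Yi_e0 (i : Fin 16) : Yi i e0 = 0 := by
  unfold Yi
  have h : ((lam i)⁻¹ • Ym (bs 0) (bs i)) e0 = (lam i)⁻¹ • (Ym (bs 0) (bs i) e0) := rfl
  rw [h, Ym_e0, smul_zero]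

private theorem Xm_smul' (r : ℝ) (p : PP) : Xm (r • p) = r • Xm p := by
  refine ContinuousLinearMap.ext fun z => ?_
  have h : (r • Xm p) z = r • (Xm p z) := rfl
  rw [h, Xm_apply, Xm_apply]
  have e1 : ∀ q, ip (r • p) q = r * ip p q := by
    intro q
    rw [ip_comm, ip_smul, ip_comm]
  have e2 : gv z.2.1 (r • p) = r • gv z.2.1 p := by
    funext k
    unfold gv
    simp only [ga_smul, Pi.smul_apply, smul_eq_mul, Finset.mul_sum]
    refine Finset.sum_congr rfl fun α _ => ?_
    ring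
  refine Prod.ext ?_ (Prod.ext ?_ ?_)
  · change 2 * ip (r • p) z.2.2 = r * (2 * ip p z.2.2)
    rw [e1]
    ring
  · funext α
    change -ip (r • p) (ga α z.2.2) = r * (-ip p (ga α z.2.2))
    rw [e1]
    ring
  · funext k
    change 3 / 2 * z.1 * (r • p) k - gv z.2.1 (r • p) k = r * (3 / 2 * z.1 * p k - gv z.2.1 p k)
    rw [e2, Pi.smul_apply, Pi.smul_apply, smul_eq_mul, smul_eq_mul]
    ring

private theorem lam_ne (i : Fin 16) : lam i ≠ 0 := by
  unfold lam
  split_ifs <;> norm_num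

theorem H_Yi {i : Fin 16} (hi : i ≠ 0) :
    Xm (bs 0) * Yi i - Yi i * Xm (bs 0) = lam i • Xm (bs i) := by
  have h := Xm_triple (bs 0) (bs i) (bs 0)
  rw [(tp_root hi).1, Xm_smul'] at h
  have e : Xm (bs 0) * Yi i - Yi i * Xm (bs 0) = (-(lam i)⁻¹) •
      (Ym (bs 0) (bs i) * Xm (bs 0) - Xm (bs 0) * Ym (bs 0) (bs i)) := by
    unfold Yi
    rw [mul_smul_comm, smul_mul_assoc]
    module
  rw [e, h, smul_smul]
  congr 1
  have := lam_ne i
  field_simp

theorem Xm_Yi {i : Fin 16} (hi : i ≠ 0) :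
    Xm (bs i) * Yi i - Yi i * Xm (bs i) = (-(lam i)) • Xm (bs 0) := by
  have h := Xm_triple (bs 0) (bs i) (bs i)
  rw [(tp_root hi).2, Xm_smul'] at h
  have e : Xm (bs i) * Yi i - Yi i * Xm (bs i) = (-(lam i)⁻¹) •
      (Ym (bs 0) (bs i) * Xm (bs i) - Xm (bs i) * Ym (bs 0) (bs i)) := by
    unfold Yi
    rw [mul_smul_comm, smul_mul_assoc]
    module
  rw [e, h, smul_smul]
  congr 1
  have := lam_ne i
  field_simp

private theorem H_Xi (i : Fin 16) :
    Xm (bs 0) * Xm (bs i) - Xm (bs i) * Xm (bs 0) = lam i • Yi i := by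
  unfold Yi
  rw [smul_smul, mul_inv_cancel₀ (lam_ne i), one_smul]
  rfl

section abstractRing

variable {R : Type*} [NormedRing R] [NormedAlgebra ℝ R] [CompleteSpace R]

omit [CompleteSpace R] in
private theorem exp_comm' (A : R) (t : ℝ) :
    A * NormedSpace.exp (t • A) = NormedSpace.exp (t • A) * A := by
  let _ : NormedAlgebra ℚ R := NormedAlgebra.restrictScalars ℚ ℝ R
  have h : Commute A (t • A) := (Commute.refl A).smul_right t
  exact (Commute.exp_right h).eq

private theorem conj_aux (H X Y : R) (l : ℝ) (h1 : H * Y - Y * H = l • X)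
    (h2 : H * X - X * H = l • Y) (t : ℝ) :
    NormedSpace.exp (t • (-H)) * (Real.cosh (l * t) • Y + Real.sinh (l * t) • X)
      * NormedSpace.exp (t • H) = Y := by
  have hd : ∀ s, HasDerivAt (fun s : ℝ => NormedSpace.exp (s • (-H)) *
    (Real.cosh (l * s) • Y + Real.sinh (l * s) • X) * NormedSpace.exp (s • H)) 0 s := by
    intro s
    have hl : HasDerivAt (fun s : ℝ => l * s) l s := by
      simpa using (hasDerivAt_id s).const_mul l
    have hc := (hl.cosh).smul_const Y
    have hs := (hl.sinh).smul_const X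
    have hG : HasDerivAt (fun s : ℝ => Real.cosh (l * s) • Y + Real.sinh (l * s) • X)
      ((Real.sinh (l * s) * l) • Y + (Real.cosh (l * s) * l) • X) s := hc.add hs
    have h3 : HasDerivAt (fun s : ℝ => NormedSpace.exp (s • (-H)) *
      (Real.cosh (l * s) • Y + Real.sinh (l * s) • X) * NormedSpace.exp (s • H))
      (((-H) * NormedSpace.exp (s • (-H)) * (Real.cosh (l * s) • Y + Real.sinh (l * s) • X)
        + NormedSpace.exp (s • (-H)) * ((Real.sinh (l * s) * l) • Y + (Real.cosh (l * s) * l) • X))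
        * NormedSpace.exp (s • H) +
        NormedSpace.exp (s • (-H)) * (Real.cosh (l * s) • Y + Real.sinh (l * s) • X) *
          (H * NormedSpace.exp (s • H))) s :=
      ((hasDerivAt_exp_smul_const' (𝕂 := ℝ) (-H) s).mul hG).mul
        (hasDerivAt_exp_smul_const' (𝕂 := ℝ) H s)
    refine h3.congr_deriv ?_
    have c1 := exp_comm' (-H) s
    have e1 : H * Y = Y * H + l • X := by rw [← h1]; abel
    have e2 : H * X = X * H + l • Y := by rw [← h2]; abel
    rw [c1]
    generalize NormedSpace.exp (s • (-H)) = E1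
    generalize NormedSpace.exp (s • H) = E2
    have k : (E1 * -H * (Real.cosh (l * s) • Y + Real.sinh (l * s) • X) +
        E1 * ((Real.sinh (l * s) * l) • Y + (Real.cosh (l * s) * l) • X)) * E2 +
        E1 * (Real.cosh (l * s) • Y + Real.sinh (l * s) • X) * (H * E2)
        = E1 * (-(Real.cosh (l * s) • (H * Y) + Real.sinh (l * s) • (H * X)) +
          ((Real.sinh (l * s) * l) • Y + (Real.cosh (l * s) * l) • X) +
          (Real.cosh (l * s) • (Y * H) + Real.sinh (l * s) • (X * H))) * E2 := by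
      simp only [mul_add, add_mul, mul_neg, neg_mul, mul_smul_comm, smul_mul_assoc, mul_assoc,
        neg_add]
      simp only [smul_neg]
    rw [k, e1, e2]
    have k2 : (-(Real.cosh (l * s) • (Y * H + l • X) + Real.sinh (l * s) • (X * H + l • Y)) +
          ((Real.sinh (l * s) * l) • Y + (Real.cosh (l * s) * l) • X) +
          (Real.cosh (l * s) • (Y * H) + Real.sinh (l * s) • (X * H))) = 0 := by
      module
    rw [k2, mul_zero, zero_mul]
  have hconst := is_const_of_deriv_eq_zero (fun s => (hd s).differentiableAt)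
    (fun s => (hd s).deriv) t 0
  refine hconst.trans ?_
  simp [NormedSpace.exp_zero]

private theorem exp_inv' (A : R) (t : ℝ) :
    NormedSpace.exp (t • A) * NormedSpace.exp (t • (-A)) = 1 := by
  let _ : NormedAlgebra ℚ R := NormedAlgebra.restrictScalars ℚ ℝ R
  have h : Commute (t • A) (-(t • A)) := Commute.neg_right (Commute.refl _)
  rw [smul_neg, ← NormedSpace.exp_add_of_commute h, add_neg_cancel, NormedSpace.exp_zero]

end abstractRing

theorem Yi_conj_id {i : Fin 16} (hi : i ≠ 0) (t : ℝ) :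
    mt (hy (bs 0) (-t)) * (Real.cosh (lam i * t) • Yi i + Real.sinh (lam i * t) • Xm (bs i))
      = Yi i * mt (hy (bs 0) (-t)) := by
  have h := conj_aux (Xm (bs 0)) (Xm (bs i)) (Yi i) (lam i) (H_Yi hi) (H_Xi i) t
  have e : mt (hy (bs 0) (-t)) = NormedSpace.exp (t • (-Xm (bs 0))) := by
    rw [mt_hy]
    congr 1
    module
  have e2 : NormedSpace.exp (t • Xm (bs 0)) * NormedSpace.exp (t • (-Xm (bs 0))) = 1 :=
    exp_inv' (Xm (bs 0)) t
  rw [e]
  calc NormedSpace.exp (t • (-Xm (bs 0))) *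
        (Real.cosh (lam i * t) • Yi i + Real.sinh (lam i * t) • Xm (bs i))
      = (NormedSpace.exp (t • (-Xm (bs 0))) *
        (Real.cosh (lam i * t) • Yi i + Real.sinh (lam i * t) • Xm (bs i))
        * NormedSpace.exp (t • Xm (bs 0))) * NormedSpace.exp (t • (-Xm (bs 0))) := by
        rw [mul_assoc (NormedSpace.exp (t • (-Xm (bs 0))) *
        (Real.cosh (lam i * t) • Yi i + Real.sinh (lam i * t) • Xm (bs i))), e2, mul_one]
    _ = Yi i * NormedSpace.exp (t • (-Xm (bs 0))) := by rw [h]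

theorem sum_lam (t : ℝ) :
    ∑ i ∈ Finset.univ.erase (0 : Fin 16),
      lam i * (Real.cosh (lam i * t) / Real.sinh (lam i * t)) = hc t := by
  obtain ⟨A, hA⟩ : ∃ A : ℝ, A = 2 * (Real.cosh (2 * t) / Real.sinh (2 * t)) := ⟨_, rfl⟩
  obtain ⟨B, hB⟩ : ∃ B : ℝ, B = Real.cosh t / Real.sinh t := ⟨_, rfl⟩
  have h1 : ∀ i : Fin 16, lam i * (Real.cosh (lam i * t) / Real.sinh (lam i * t))
      = if i.val < 8 then A else B := by
    intro i
    by_cases h : i.val < 8
    · have hl : lam i = 2 := if_pos h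
      rw [if_pos h, hl, hA]
    · have hl : lam i = 1 := if_neg h
      rw [if_neg h, hl, hB, one_mul, one_mul]
  rw [Finset.sum_congr rfl (fun i _ => h1 i), Finset.sum_erase_eq_sub (Finset.mem_univ _)]
  have h2 : ∑ i : Fin 16, (if i.val < 8 then A else B) = 8 * A + 8 * B := by
    simp only [Fin.sum_univ_succ]
    norm_num [Fin.succ]
    ring
  rw [h2]
  unfold hc
  rw [if_pos (by decide), ← hB, hA]
  ring

end FF4

end
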