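import Pool.Agent.FF4.Smf
import Pool.Agent.FF4.Onf

/-! # Module Lpk (difficulty 2): the Laplacian commutes with `K`

The proofs are the same as in SPN/Lpk.lean (source in the tarball), with `exists_Ad` of Kst.lean and `onb` of Onf.lean. -/

open MeasureTheory
open scoped ContDiff

noncomputable section

namespace FF4

private def psiL {m : EE → ℝ} (hm : ContDiff ℝ ∞ m) (w : EE) : PP →ₗ[ℝ] PP →ₗ[ℝ] ℝ :=
  LinearMap.mk₂ ℝ (fun p q => Dp p (Dp q m) w)
    (fun p p' q => Dp_add_left p p' (Dp q m) w)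
    (fun c p q => Dp_smul_left c p (Dp q m) w)
    (fun p q q' => by
      have h : Dp (q + q') m = fun z => Dp q m z + Dp q' m z := by
        funext z; exact Dp_add_left q q' m z
      change Dp p (Dp (q + q') m) w = _
      rw [h]
      exact LX_add (Dp_contDiff hm q) (Dp_contDiff hm q') (Xm p) w)
    (fun c p q => by
      have h : Dp (c • q) m = fun z => c * Dp q m z := by
        funext z; exact Dp_smul_left c q m z
      change Dp p (Dp (c • q) m) w = _
      rw [h]
      exact LX_cmul (Dp_contDiff hm q) c (Xm p) w)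

private theorem psiL_apply {m : EE → ℝ} (hm : ContDiff ℝ ∞ m) (w : EE) (p q : PP) :
    psiL hm w p q = Dp p (Dp q m) w := rfl

theorem Lap_comp {k : GG} (hk : k ∈ KK) {m : EE → ℝ} (hm : ContDiff ℝ ∞ m) (z : EE) :
    Lap (fun z => m (mt k z)) z = Lap m (mt k z) := by
  obtain ⟨L, hL, hX, -⟩ := exists_Ad hk
  have h1 : ∀ p, Dp p (fun z => m (mt k z)) = fun z => Dp (L p) m (mt k z) := by
    intro p; funext z
    exact LX_comp hm (hX p) z
  have h2 : ∀ p, Dp p (Dp p (fun z => m (mt k z))) z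
      = Dp (L p) (Dp (L p) m) (mt k z) := by
    intro p
    rw [h1 p]
    exact LX_comp (Dp_contDiff hm (L p)) (hX p) z
  unfold Lap
  rw [Finset.sum_congr rfl (fun i _ => h2 (bs i))]
  have h3 := onb hL (psiL hm (mt k z))
  simpa only [psiL_apply] using h3

theorem Kn.lap {m : EE → ℝ} (hm : Kn m) : Kn (Lap m) := by
  refine { toSm := hm.toSm.lap, left := ?_ }
  intro k hk z
  have h := Lap_comp hk hm.smooth z
  have h' : (fun z => m (mt k z)) = m := by
    funext z; exact hm.left k hk z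
  rw [h'] at h
  exact h.symm

theorem grad_KK {k : GG} (hk : k ∈ KK) {m : EE → ℝ} (hm : ContDiff ℝ ∞ m)
    (hK : ∀ k ∈ KK, ∀ z, m (mt k z) = m z) :
    ∃ L : PP →ₗ[ℝ] PP, (∀ p, ip (L p) (L p) = ip p p) ∧
      ∀ p z, Dp p m z = Dp (L p) m (mt k z) := by
  obtain ⟨L, hL, hX, -⟩ := exists_Ad hk
  refine ⟨L, hL, fun p z => ?_⟩
  have h := LX_comp hm (hX p) z
  have h' : (fun z => m (mt k z)) = m := by
    funext z; exact hK k hk z
  rw [h'] at h
  exact h

end FF4

end
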