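import Pool.Agent.FF4.Pts
import Pool.Agent.FF4.Dra
import Pool.Agent.FF4.Kin
import Pool.Agent.FF4.Lpk

/-! # Module Drb (difficulty 3): Darboux equation

The proofs are the same as in SPN/Drb.lean (source in the tarball). -/

open MeasureTheory
open scoped ContDiff

noncomputable section

namespace FF4

private theorem drb_cont_inv : Continuous (fun k : KK => mt ((k : GG)⁻¹)) :=
  continuous_mt.comp (continuous_inv.comp continuous_subtype_val)

private theorem drb_integrable {W : Type*} [NormedAddCommGroup W] {F : KK → W}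
    (hF : Continuous F) : Integrable F kap := by
  rw [← integrableOn_univ]
  exact hF.continuousOn.integrableOn_compact isCompact_univ

private theorem drb_int {W : Type} [NormedAddCommGroup W] [NormedSpace ℝ W]
    [FiniteDimensional ℝ W] {F : W → ℝ} (hF : ContDiff ℝ ∞ F) {M : KK → EE →L[ℝ] W}
    (hM : Continuous M) (A : Mt) (z : EE) :
    LX A (fun z => ∫ k, F (M k z) ∂kap) z = ∫ k, LX A (fun z => F (M k z)) z ∂kap := by
  have : SecondCountableTopology KK :=
    inferInstanceAs (SecondCountableTopology ((KK : Set GG) : Type))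
  have h := SPN.par_hasFDerivAt kap hF (c := fun _ => 0) continuous_const hM
    (A := fun _ => ContinuousLinearMap.id ℝ ℝ) continuous_const z
  simp only [zero_add, ContinuousLinearMap.id_apply, ContinuousLinearMap.id_comp] at h
  unfold LX
  rw [h.fderiv]
  have hc : Continuous (fun k => (fderiv ℝ F (M k z)).comp (M k)) := by
    have h1 : Continuous (fun k => fderiv ℝ F (M k z)) :=
      (hF.continuous_fderiv (by simp)).comp (hM.clm_apply continuous_const)
    exact h1.clm_comp hM
  rw [ContinuousLinearMap.integral_apply (drb_integrable hc), ← integral_neg]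
  congr 1
  funext k
  have h2 : HasFDerivAt (fun z => F (M k z)) ((fderiv ℝ F (M k z)).comp (M k)) z :=
    ((hF.differentiable (by simp)) (M k z)).hasFDerivAt.comp z (M k).hasFDerivAt
  rw [h2.fderiv]

private theorem drb_smooth {m : EE → ℝ} (hm : ContDiff ℝ ∞ m) (A : Mt) :
    ContDiff ℝ ∞ (fun y => m (A y)) := hm.comp A.contDiff

private theorem drb_H {m : EE → ℝ} (hm : ContDiff ℝ ∞ m) (t : ℝ) (y : EE) :
    Dp (bs 0) (fun y => m (mt (hy (bs 0) (-t)) y)) y
      = Dp (bs 0) m (mt (hy (bs 0) (-t)) y) :=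
  LX_comp hm (hy_H (-t)) y

theorem drb {m : EE → ℝ} (hm : Kn m) {i : Fin 16} (hi : i ≠ 0) (t : ℝ) (z : EE) :
    Real.sinh (lam i * t) * ∫ k : KK, Dp (bs i) (Dp (bs i)
        (fun y => m (mt (hy (bs 0) (-t)) y))) (mt ((k : GG)⁻¹) z) ∂kap
      = lam i * Real.cosh (lam i * t) * Pt t (Dp (bs 0) m) z := by
  set f : EE → ℝ := fun y => m (mt (hy (bs 0) (-t)) y) with hf
  have hms := hm.smooth
  have hfs : ContDiff ℝ ∞ f := drb_smooth hms _
  set S := Real.sinh (lam i * t) with hS
  set C := Real.cosh (lam i * t) with hC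
  have h1 : ∀ y, C * LX (Yi i) f y + S * LX (Xm (bs i)) f y = 0 := by
    intro y
    rw [← LX_smul_left, ← LX_smul_left, ← LX_add_left]
    rw [hf, LX_comp hms (Yi_conj_id hi t) y]
    exact LX_K_zero (Ia_Yi i) (Yi_e0 i) hms hm.left _
  have h2 : (fun y => S * LX (Xm (bs i)) f y) = (fun y => (-C) * LX (Yi i) f y) := by
    funext y
    linarith [h1 y]
  have h3 : ∀ y, S * LX (Xm (bs i)) (LX (Xm (bs i)) f) y
      = (-C) * LX (Yi i) (LX (Xm (bs i)) f) y + (C * lam i) * LX (Xm (bs 0)) f y := by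
    intro y
    have h4 : LX (Xm (bs i)) (fun y => S * LX (Xm (bs i)) f y) y
        = LX (Xm (bs i)) (fun y => (-C) * LX (Yi i) f y) y := by rw [h2]
    rw [LX_cmul (LX_contDiff hfs _), LX_cmul (LX_contDiff hfs _)] at h4
    have h5 := LX_comm hfs (Xm (bs i)) (Yi i) y
    rw [Xm_Yi hi, LX_smul_left] at h5
    rw [h4]
    linear_combination (-C) * h5
  have h6 : Real.sinh (lam i * t) * ∫ k : KK, Dp (bs i) (Dp (bs i) f)
        (mt ((k : GG)⁻¹) z) ∂kap
      = ∫ k : KK, ((-C) * LX (Yi i) (LX (Xm (bs i)) f) (mt ((k : GG)⁻¹) z)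
        + (C * lam i) * LX (Xm (bs 0)) f (mt ((k : GG)⁻¹) z)) ∂kap := by
    rw [← integral_const_mul]
    congr 1
    funext k
    exact h3 _
  have hcc : ∀ F : EE → ℝ, Continuous F →
      Continuous (fun k : KK => F (mt ((k : GG)⁻¹) z)) := fun F hF =>
    hF.comp (drb_cont_inv.clm_apply continuous_const)
  rw [h6, integral_add, integral_const_mul, integral_const_mul, av_Y (Ia_Yi i) (Yi_e0 i)
    (LX_contDiff hfs _)]
  · rw [mul_zero, zero_add, mul_comm C]
    congr 1
    unfold Pt
    congr 1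
    funext k
    exact drb_H hms t _
  · exact (drb_integrable (hcc _ (LX_contDiff (LX_contDiff hfs _) _).continuous)).const_mul _
  · exact (drb_integrable (hcc _ (LX_contDiff hfs _).continuous)).const_mul _

private theorem drb_ddk {f : EE → ℝ} (hf : ContDiff ℝ ∞ f) (i : Fin 16) (z : EE) :
    Dp (bs i) (Dp (bs i) (fun z => ∫ k : KK, f (mt ((k : GG)⁻¹) z) ∂kap)) z
      = ∫ k : KK, Dp (bs i) (Dp (bs i) (fun y => f (mt ((k : GG)⁻¹) y))) z ∂kap ∧
    Continuous (fun k : KK => Dp (bs i) (Dp (bs i)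
      (fun y => f (mt ((k : GG)⁻¹) y))) z) := by
  set A : Mt := Xm (bs i) with hA
  set F : EE × EE → ℝ := fun p => - (fderiv ℝ f p.1 p.2) with hF
  have hFs : ContDiff ℝ ∞ F := by
    have h1 : ContDiff ℝ ∞ (fderiv ℝ f) := hf.fderiv_right (by simp)
    exact ((h1.comp contDiff_fst).clm_apply contDiff_snd).neg
  set M : KK → EE →L[ℝ] EE × EE := fun k =>
    (mt ((k : GG)⁻¹)).prod ((mt ((k : GG)⁻¹)).comp A) with hM
  have hMc : Continuous M := by
    have h2 : Continuous (fun k : KK => (mt ((k : GG)⁻¹)).comp A) :=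
      drb_cont_inv.clm_comp continuous_const
    have h3 : M = fun k : KK =>
        (ContinuousLinearMap.inl ℝ EE EE).comp (mt ((k : GG)⁻¹))
        + (ContinuousLinearMap.inr ℝ EE EE).comp
          ((mt ((k : GG)⁻¹)).comp A) := by
      funext k
      refine ContinuousLinearMap.ext fun x => ?_
      simp only [hM, ContinuousLinearMap.prod_apply, add_apply,
        ContinuousLinearMap.comp_apply, ContinuousLinearMap.inl_apply,
        ContinuousLinearMap.inr_apply, Prod.mk_add_mk, add_zero, zero_add]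
    rw [h3]
    exact (continuous_const.clm_comp drb_cont_inv).add (continuous_const.clm_comp h2)
  have hk : ∀ k : KK, (LX A (fun y => f (mt ((k : GG)⁻¹) y))) = fun z => F (M k z) := by
    intro k
    funext y
    have h4 : HasFDerivAt (fun y => f (mt ((k : GG)⁻¹) y))
        ((fderiv ℝ f (mt ((k : GG)⁻¹) y)).comp (mt ((k : GG)⁻¹))) y :=
      ((hf.differentiable (by simp)) _).hasFDerivAt.comp y (mt ((k : GG)⁻¹)).hasFDerivAt
    unfold LX
    rw [h4.fderiv]
    rfl
  have h5 : Dp (bs i) (fun z => ∫ k : KK, f (mt ((k : GG)⁻¹) z) ∂kap)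
      = fun z => ∫ k, F (M k z) ∂kap := by
    funext y
    unfold Dp
    rw [drb_int hf drb_cont_inv]
    congr 1
    funext k
    exact congrFun (hk k) y
  constructor
  · rw [h5]
    unfold Dp
    rw [drb_int hFs hMc]
    congr 1
    funext k
    rw [← hA, hk k]
  · have h6 : (fun k : KK => Dp (bs i) (Dp (bs i)
        (fun y => f (mt ((k : GG)⁻¹) y))) z)
        = fun k => - ((fderiv ℝ F (M k z)) (M k (A z))) := by
      funext k
      unfold Dp
      rw [← hA, hk k]
      unfold LX
      have h7 : HasFDerivAt (fun z => F (M k z)) ((fderiv ℝ F (M k z)).comp (M k)) z :=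
        ((hFs.differentiable (by simp)) (M k z)).hasFDerivAt.comp z (M k).hasFDerivAt
      rw [h7.fderiv]
      rfl
    rw [h6]
    have h8 : Continuous (fun k => fderiv ℝ F (M k z)) :=
      (hFs.continuous_fderiv (by simp)).comp (hMc.clm_apply continuous_const)
    exact (h8.clm_apply (hMc.clm_apply continuous_const)).neg

theorem drc {m : EE → ℝ} (hm : ContDiff ℝ ∞ m) (t : ℝ) (z : EE) :
    Lap (Pt t m) z = ∑ i, ∫ k : KK, Dp (bs i) (Dp (bs i)
        (fun y => m (mt (hy (bs 0) (-t)) y))) (mt ((k : GG)⁻¹) z) ∂kap := by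
  set f : EE → ℝ := fun y => m (mt (hy (bs 0) (-t)) y) with hf
  have hfs : ContDiff ℝ ∞ f := drb_smooth hm _
  have h1 : Lap (Pt t m) z = ∑ i, ∫ k : KK, Dp (bs i) (Dp (bs i)
      (fun y => f (mt ((k : GG)⁻¹) y))) z ∂kap := by
    unfold Lap
    refine Finset.sum_congr rfl fun i _ => ?_
    exact (drb_ddk hfs i z).1
  rw [h1, ← integral_finsetSum _ (fun i _ => drb_integrable (drb_ddk hfs i z).2)]
  have hcc : ∀ F : EE → ℝ, Continuous F →
      Continuous (fun k : KK => F (mt ((k : GG)⁻¹) z)) := fun F hF =>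
    hF.comp (drb_cont_inv.clm_apply continuous_const)
  rw [← integral_finsetSum _ (fun i _ => drb_integrable (hcc _
    (Dp_contDiff (Dp_contDiff hfs _) _).continuous))]
  congr 1
  funext k
  exact Lap_comp (k := (k : GG)⁻¹) (KK.inv_mem k.2) hfs z

private theorem drb_lam_pos (i : Fin 16) : 0 < lam i := by
  unfold lam
  split_ifs <;> norm_num

theorem dar {m : EE → ℝ} (hm : Kn m) {t : ℝ} (ht : 0 < t) (z : EE) :
    Lap (Pt t m) z = Pt t (Dp (bs 0) (Dp (bs 0) m)) z + hc t * Pt t (Dp (bs 0) m) z := by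
  have hms := hm.smooth
  rw [drc hms, ← Finset.add_sum_erase _ _ (Finset.mem_univ (0 : Fin 16))]
  congr 1
  · unfold Pt
    congr 1
    funext k
    have h1 : (Dp (bs 0) (fun y => m (mt (hy (bs 0) (-t)) y)))
        = fun y => (Dp (bs 0) m) (mt (hy (bs 0) (-t)) y) := funext fun y => drb_H hms t y
    rw [h1]
    exact drb_H (Dp_contDiff hms _) t _
  · rw [← sum_lam t, Finset.sum_mul]
    refine Finset.sum_congr rfl fun i hi => ?_
    have hi' : i ≠ 0 := Finset.ne_of_mem_erase hi
    have h2 := drb hm hi' t z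
    have h3 : 0 < Real.sinh (lam i * t) := Real.sinh_pos_iff.2 (mul_pos (drb_lam_pos i) ht)
    refine mul_left_cancel₀ h3.ne' ?_
    rw [h2]
    field_simp

end FF4

end
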