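import Pool.Agent.FF4.Kak

/-! # Module Krn (difficulty 2): the kernels on the group

Compare SPN/Krn.lean (source in the tarball); here `K` fixes `e0`, so `kr_right` is immediate. -/

open MeasureTheory
open scoped ContDiff

noncomputable section

namespace FF4

theorem kr_continuous {m : EE → ℝ} (hm : Sm m) : Continuous (kr m) := by
  have h1 : Continuous m := hm.smooth.continuous
  exact h1.comp (continuous_mt_apply e0)

theorem kr_compact {m : EE → ℝ} (hm : Sm m) : HasCompactSupport (kr m) := by
  obtain ⟨R, hR⟩ := hm.supp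
  refine HasCompactSupport.intro (isCompact_ball R) ?_
  intro g hg
  refine hR g ?_
  rw [Set.mem_ofPred_eq, not_le] at hg
  exact hg

theorem kr_integrable {m : EE → ℝ} (hm : Sm m) : Integrable (kr m) mu :=
  (kr_continuous hm).integrable_of_hasCompactSupport (kr_compact hm)

theorem Kn.bk {m : EE → ℝ} (hm : Kn m) : SPN.Bk KK (kr m) := by
  refine ⟨kr_continuous hm.toSm, kr_compact hm.toSm, ?_⟩
  intro k hk h
  show m (mt k (mt h e0)) = m (mt h e0)
  exact hm.left k hk _

theorem kr_right (m : EE → ℝ) : ∀ k ∈ KK, ∀ h, kr m (h * k) = kr m h := by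
  intro k hk h
  show m (mt h (mt k e0)) = m (mt h e0)
  rw [mem_KK.1 hk]

end FF4

end
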