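import Pool.Agent.FF4.Kak

/-! # Module Uni (difficulty 3): `F_4^(-20)` is unimodular

The proof is the same as in SPN/Uni.lean (source in the tarball). -/

open MeasureTheory
open scoped ContDiff

noncomputable section

namespace FF4

private theorem Uni_meas : MeasurableSet {g : GG | nm g ≤ 2} :=
  (isClosed_le continuous_nm continuous_const).measurableSet

private theorem Uni_nm_one : nm 1 = 1 := rfl

private theorem Uni_nm_inv (g : GG) : nm g⁻¹ = nm g := by
  obtain ⟨k, hk, s, _, k', hk', rfl⟩ := kak g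
  rw [mul_inv_rev, mul_inv_rev, nm_KK_mul (KK.inv_mem hk'), nm_mul_KK (KK.inv_mem hk),
    nm_mul_KK hk', nm_KK_mul hk, ← hy_neg, nm_hy, nm_hy, Real.cosh_neg]

private theorem Uni_pos : mu {g : GG | nm g ≤ 2} ≠ 0 := by
  have h1 : IsOpen {g : GG | nm g < 2} := isOpen_lt continuous_nm continuous_const
  have h2 : 0 < mu {g : GG | nm g < 2} := by
    refine h1.measure_pos mu ⟨1, ?_⟩
    show nm (1 : GG) < 2
    rw [Uni_nm_one]
    norm_num
  have h3 : mu {g : GG | nm g < 2} ≤ mu {g : GG | nm g ≤ 2} :=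
    measure_mono fun g (hg : nm g < 2) => show nm g ≤ 2 from le_of_lt hg
  exact (h2.trans_le h3).ne'

private theorem Uni_top : mu {g : GG | nm g ≤ 2} ≠ ⊤ :=
  (isCompact_ball 2).measure_lt_top.ne

private theorem Uni_eq_one {c : NNReal} {a : ENNReal} (h0 : a ≠ 0) (h1 : a ≠ ⊤)
    (h : a = (c : ENNReal) * a) : c = 1 := by
  have h2 : (1 : ENNReal) * a = (c : ENNReal) * a := by rw [one_mul]; exact h
  have h3 := (ENNReal.mul_left_inj h0 h1).1 h2
  exact_mod_cast h3.symm

private theorem Uni_K {k : GG} (hk : k ∈ KK) : Measure.modularCharacterFun k = 1 := by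
  have h1 := Measure.map_right_mul_eq_modularCharacterFun_smul mu k
  have h2 := congrArg (fun ν : Measure GG => ν {g : GG | nm g ≤ 2}) h1
  simp only [Measure.smul_apply] at h2
  rw [Measure.map_apply (measurable_mul_const k) Uni_meas] at h2
  have h3 : (fun x => x * k) ⁻¹' {g : GG | nm g ≤ 2} = {g : GG | nm g ≤ 2} := by
    ext g
    show nm (g * k) ≤ 2 ↔ nm g ≤ 2
    rw [nm_mul_KK hk]
  rw [h3] at h2
  exact Uni_eq_one Uni_pos Uni_top h2

private theorem Uni_A (s : ℝ) :
    Measure.modularCharacterFun (hy (bs 0) s) = 1 := by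
  obtain ⟨w, hw, _, hws⟩ := exists_wJ
  have h1 := hws (bs 0) s
  have h2 := congrArg (fun g : GG => Measure.modularCharacter g) h1
  simp only [map_mul] at h2
  have h3 : Measure.modularCharacter w = 1 := Uni_K hw
  have h4 : Measure.modularCharacter (w⁻¹) = 1 := Uni_K (KK.inv_mem hw)
  have h5 : Measure.modularCharacter ((hy (bs 0) s)⁻¹) *
      Measure.modularCharacter (hy (bs 0) s) = 1 := by
    rw [← map_mul, inv_mul_cancel, map_one]
  rw [h3, h4, one_mul, mul_one] at h2
  rw [← h2] at h5
  have h6 : Measure.modularCharacter (hy (bs 0) s) ^ 2 = 1 := by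
    rw [sq]; exact h5
  rcases pow_eq_one_iff.1 h6 with h7 | h7
  · exact h7
  · exact absurd h7 two_ne_zero

private theorem Uni_all (g : GG) : Measure.modularCharacterFun g = 1 := by
  obtain ⟨k, hk, s, _, k', hk', rfl⟩ := kak g
  rw [Measure.modularCharacterFun_map_mul, Measure.modularCharacterFun_map_mul, Uni_K hk,
    Uni_K hk', Uni_A s, one_mul, one_mul]

instance mu_right : mu.IsMulRightInvariant := by
  refine ⟨fun g => ?_⟩
  rw [Measure.map_right_mul_eq_modularCharacterFun_smul, Uni_all g, one_smul]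

instance mu_inv : mu.IsInvInvariant := by
  refine ⟨?_⟩
  have h1 : mu.inv.IsMulLeftInvariant := inferInstance
  have hH : mu.inv.IsHaarMeasure :=
    { toIsMulLeftInvariant := h1
      lt_top_of_isCompact := fun s hs => by
        rw [Measure.inv_apply]
        exact hs.inv.measure_lt_top
      open_pos := fun U hU hne => by
        rw [Measure.inv_apply]
        exact (hU.inv).measure_ne_zero _ hne.inv }
  have h2 := Measure.isMulLeftInvariant_eq_smul mu.inv mu
  have h3 := congrArg (fun ν : Measure GG => ν {g : GG | nm g ≤ 2}) h2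
  simp only [Measure.smul_apply] at h3
  rw [Measure.inv_apply] at h3
  have h4 : ({g : GG | nm g ≤ 2})⁻¹ = {g : GG | nm g ≤ 2} := by
    ext g
    show nm (g⁻¹) ≤ 2 ↔ nm g ≤ 2
    rw [Uni_nm_inv]
  rw [h4] at h3
  have h5 := Uni_eq_one Uni_pos Uni_top h3
  rw [h5, one_smul] at h2
  exact h2

end FF4

end
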