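import Pool.Agent.FF4.Ge
import Pool.Agent.FF4.Ldo
import Pool.Agent.FF4.Uni
import Pool.Agent.SPN.Der
import Pool.Agent.SPN.Cyc

/-! # Module Tfi (difficulty 2): the trilinear form of the kernels

Compare SPN/Tfi.lean (source in the tarball); here `ld_kr` holds for every `p`. -/

open MeasureTheory
open scoped ContDiff

noncomputable section

namespace FF4

variable {Γ : Subgroup GG} {π : GG → Γ} {X : Type*} [LinearOrder X] {q : Γ → X}

theorem kr_int_zero {m : EE → ℝ} (hm : Sm m) (p : PP) : ∫ g, kr (Dp p m) g ∂mu = 0 :=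
  SPN.int_deriv (kr_integrable hm) (kr_integrable (hm.dp p)) (ld_kr hm p)

theorem tf_inst (hD : SPN.Dm mu Γ π) (hq : SPN.Mo q) :
    Tf (fun a b c => SPN.TT mu π q (kr a) (kr b) (kr c)) := by
  have sy : ∀ a b c : EE → ℝ, SPN.TT mu π q (kr a) (kr b) (kr c) =
      SPN.TT mu π q (kr a) (kr c) (kr b) := fun a b c => SPN.TT_symm _ _ _
  refine ⟨sy, ?_, ?_, ?_, ?_, ?_, ?_, ?_⟩
  · intro a a' b c ha ha' hb hc
    exact SPN.TT_add1 hD hq (kr_integrable ha) (kr_integrable ha') (kr_integrable hb)
      (kr_integrable hc)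
  · intro r a b c
    exact SPN.TT_cmul1 r _ _ _
  · intro a b b' c ha hb hb' hc
    exact SPN.TT_add2 hD hq (kr_integrable ha) (kr_integrable hb) (kr_integrable hb')
      (kr_integrable hc)
  · intro r a b c
    exact SPN.TT_cmul2 r _ _ _
  · intro p a b c ha hb hc
    have h := SPN.TT_cyc hD hq (kr_integrable ha) (kr_integrable hb) (kr_integrable (hc.dp p))
    rw [kr_int_zero hc p, mul_zero] at h
    exact h
  · intro p a b c ha hb hc
    exact SPN.TT_deriv hD hq (kr_integrable ha) (kr_integrable (ha.dp p)) (kr_integrable hb)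
      (kr_integrable (hb.dp p)) (kr_integrable hc) (kr_integrable (hc.dp p))
      (ld_kr ha p) (ld_kr hb p) (ld_kr hc p)
  · intro m b hm h0 hb
    exact SPN.TT_nonneg (fun h => h0 _) _

end FF4

end
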