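import Pool.Agent.FF4.Mnn
import Pool.Agent.FF4.Alge
import Pool.Agent.FF4.Tfi
import Pool.Agent.SPN.Ene
import Pool.Agent.SPN.Ctn
import Pool.Agent.SPN.Tra

/-! # Module Egy (difficulty 3): the energy data

The proofs are the same as in SPN/Egy.lean (source in the tarball), with the constant `96` in place of `8n - 8`. -/

open MeasureTheory
open scoped ContDiff

noncomputable section

namespace FF4

variable {Γ : Subgroup GG} {π : GG → Γ} {X : Type*} [LinearOrder X] {q : Γ → X}

private theorem int_Dp {m : EE → ℝ} (hm : Sm m) (p : PP) :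
    Integrable (kr (Dp p m)) mu := kr_integrable (hm.dp p)

/-- `p ↦ S_{D_p m}(v, γ)` as a linear map -/
private def phi (hD : SPN.Dm mu Γ π) (q : Γ → X) {m : EE → ℝ} (hm : Sm m) (v : GG) (γ : Γ) :
    PP →ₗ[ℝ] ℝ where
  toFun p := SPN.Sf mu π q (kr (Dp p m)) v γ
  map_add' p p' := by
    rw [← SPN.Sf_add hD (int_Dp hm p) (int_Dp hm p') v γ]
    congr 1
    funext h
    exact Dp_add_left p p' m _
  map_smul' r p := by
    rw [RingHom.id_apply, smul_eq_mul, ← SPN.Sf_cmul]
    congr 1
    funext h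
    exact Dp_smul_left r p m _

private theorem phi_apply (hD : SPN.Dm mu Γ π) {m : EE → ℝ} (hm : Sm m) (v : GG) (γ : Γ)
    (p : PP) : phi hD q hm v γ p = SPN.Sf mu π q (kr (Dp p m)) v γ := rfl

theorem Fn_right (hD : SPN.Dm mu Γ π) (hq : SPN.Mo q) (r : ℕ) (v : GG) (γ : Γ) {k : GG}
    (hk : k ∈ KK) : Fn π q r (v * k) γ = Fn π q r v γ := by
  have hm : Kn (mE r) := mE_kn r
  obtain ⟨L, hL, hL2⟩ := grad_KK hk hm.smooth hm.left
  have h1 : ∀ p : PP, SPN.Sf mu π q (kr (Dp p (mE r))) (v * k) γ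
      = phi hD q hm.toSm v γ (L p) := by
    intro p
    rw [phi_apply, SPN.Sf_mul_right]
    congr 1
    funext h
    have h2 := hL2 p (mt (k⁻¹ * h) e0)
    have h3 : mt k (mt (k⁻¹ * h) e0) = mt h e0 := by
      have h4 : mt k (mt (k⁻¹ * h) e0) = mt (k * (k⁻¹ * h)) e0 := rfl
      rw [h4, mul_inv_cancel_left]
    rw [h3] at h2
    exact h2
  have h3 := onb hL ((phi hD q hm.toSm v γ).smulRight (phi hD q hm.toSm v γ))
  simp only [LinearMap.smulRight_apply, LinearMap.smul_apply, smul_eq_mul] at h3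
  unfold Fn
  calc ∑ i : Fin 16, SPN.Sf mu π q (kr (Dp (bs i) (mE r))) (v * k) γ ^ 2
      = ∑ i : Fin 16, phi hD q hm.toSm v γ (L (bs i)) * phi hD q hm.toSm v γ (L (bs i)) :=
        Finset.sum_congr rfl fun i _ => by rw [h1, sq]
    _ = ∑ i : Fin 16, phi hD q hm.toSm v γ (bs i) * phi hD q hm.toSm v γ (bs i) := h3
    _ = ∑ i : Fin 16, SPN.Sf mu π q (kr (Dp (bs i) (mE r))) v γ ^ 2 :=
        Finset.sum_congr rfl fun i _ => by rw [phi_apply, sq]

theorem en_inst (hD : SPN.Dm mu Γ π) (hq : SPN.Mo q) :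
    SPN.En mu π q KK kap (hy (bs 0)) rho (Fn π q) := by
  have hsm : ∀ r, Sm (mE r) := fun r => (mE_kn r).toSm
  have hgf : ∀ r, SPN.Gf (Fn π q r) := fun r => by
    unfold Fn
    refine SPN.Gf.sum fun i _ => ?_
    simp only [sq]
    exact (SPN.Gf_Sf hD hq (int_Dp (hsm r) (bs i))).mul (SPN.Gf_Sf hD hq (int_Dp (hsm r) (bs i)))
  have hct : ∀ r i γ, Continuous (fun v => SPN.Sf mu π q (kr (Dp (bs i) (mE r))) v γ) :=
    fun r i γ => SPN.Sf_continuous hD (kr_continuous ((hsm r).dp _)) (kr_compact ((hsm r).dp _)) γ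
  have hle : ∀ r i v γ, SPN.Sf mu π q (kr (Dp (bs i) (mE r))) v γ ^ 2 ≤ Fn π q r v γ := by
    intro r i v γ
    exact Finset.single_le_sum
      (f := fun i => SPN.Sf mu π q (kr (Dp (bs i) (mE r))) v γ ^ 2)
      (fun _ _ => sq_nonneg _) (Finset.mem_univ i)
  have hcF : ∀ r γ, Continuous (fun v => Fn π q r v γ) := by
    intro r γ
    unfold Fn
    exact continuous_finsetSum _ fun i _ => (hct r i γ).pow 2
  have hcx : ∀ v : GG, Continuous (fun u : ℝ => v * hy (bs 0) u) := fun v =>
    continuous_const.mul (continuous_hy (bs 0))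
  refine ⟨hgf, fun r v γ => Finset.sum_nonneg fun _ _ => sq_nonneg _,
    fun r v γ k hk => Fn_right hD hq r v γ hk, ?_, ?_⟩
  · intro r v γ s hs
    rw [← kr_mE]
    refine (SPN.Sf_incr hD (x := hy (bs 0)) (hy_zero (bs 0)) (hy_add (bs 0)) (kr_integrable (hsm r))
      (int_Dp (hsm r) (bs 0)) (ld_kr (hsm r) (bs 0)) v γ
      ((hct r 0 γ).comp (hcx v)) hs).trans ?_
    refine mul_le_mul_of_nonneg_left ?_ hs
    refine intervalIntegral.integral_mono_on hs ?_ ?_ fun u _ => hle r 0 (v * hy (bs 0) u) γ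
    · exact (((hct r 0 γ).comp (hcx v)).pow 2).intervalIntegrable _ _
    · exact ((hcF r γ).comp (hcx v)).intervalIntegrable _ _
  · have hT := tf_inst hD hq
    have hA : (0 : ℝ) < 96 := by norm_num
    obtain ⟨C, hC⟩ := SPN.energy_of (ι := Fin 16) (μ := mu) (π := π) (q := q) hD hq
      (m := fun r => kr (mE r)) (Λ := fun r => kr (Lap (mE r)))
      (e := fun r i => kr (Dp (bs i) (mE r)))
      (fun r => kr_integrable (hsm r)) (fun r => kr_integrable (hsm r).lap)
      (fun r i => int_Dp (hsm r) (bs i)) (fun r h => mE_nonneg r _)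
      (fun r => by rw [kr_mE]; exact SPN.mk_integral wk_rho r)
      (L := 2 * (cc⁻¹ * ∫ g, kr sig g ∂mu))
      (fun r => lap_mE_int r) hA
      (fun r => alg_e hT (mE_kn r) (mE_nonneg r))
      (fun r r' => by
        have h := alg_e hT ((mE_kn r).add (mE_kn r'))
          (fun z => add_nonneg (mE_nonneg r z) (mE_nonneg r' z))
        have hd : ∀ p : PP, Dp p (fun z => mE r z + mE r' z)
            = fun z => Dp p (mE r) z + Dp p (mE r') z := fun p =>
          funext fun z => LX_add (hsm r).smooth (hsm r').smooth _ z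
        have hl : Lap (fun z => mE r z + mE r' z)
            = fun z => Lap (mE r) z + Lap (mE r') z := by
          funext z
          unfold Lap
          rw [← Finset.sum_add_distrib]
          refine Finset.sum_congr rfl fun i _ => ?_
          rw [hd]
          exact LX_add (Dp_contDiff (hsm r).smooth _) (Dp_contDiff (hsm r').smooth _) _ z
        simp only [hd, hl] at h
        exact h)
    refine ⟨C, fun r k hrk => ?_⟩
    rw [← kr_mE]
    have h1 := SPN.av_grad (ι := Fin 16) hD hq (kr_integrable (hsm k))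
      (e := fun i => kr (Dp (bs i) (mE r))) (fun i => int_Dp (hsm r) (bs i))
    refine le_trans (le_of_eq ?_) (hC r k hrk)
    exact h1

end FF4

end
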