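import Pool.Agent.FF4.Egy
import Pool.Agent.SPN.MainA
import Pool.Agent.SPN.Fun

/-! # lattices in `F_4^(-20)` act trivially on linear orders -/

open MeasureTheory

namespace FF4

theorem ff4_core {Γ : Subgroup GG} {π : GG → Γ}
    (hD : SPN.Dm mu Γ π) {X : Type*} [LinearOrder X] (ψ : Γ →* (X ≃o X)) : ψ = 1 := by
  ext γ x
  let q : Γ → X := fun δ => ψ δ x
  have hq : SPN.Mo q := by
    refine ⟨fun γ a b h => ?_⟩
    simp only [q, map_mul]
    exact (ψ γ).le_iff_le.2 h
  have h := SPN.main_a hD (SPN.dm_pos hD) hq ax_hy wk_rho rh_rho (en_inst hD hq) γ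
  simpa [q] using h

end FF4
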