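import Mathlib

/-! # FF4: gamma matrices, the spaces and the infinitesimal structure of `F_4^(-20)`

`P = ℝ^16` is the spin representation of `Spin(9)`, with the nine symmetric gamma matrices
`ga α`, `ga α ∘ ga α = 1`, `ga α ∘ ga β = - ga β ∘ ga α`; they are signed permutation matrices
(octonion multiplication). `E = ℝ ⊕ ℝ^9 ⊕ ℝ^16` with the quadratic form `Qf` and the cubic form `Cf` is the
traceless part of the Jordan algebra of `F_4^(-20)`. -/

open MeasureTheory
open scoped ContDiff

noncomputable section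

namespace FF4

/-- the masks `0, 8, 9, ..., 15` -/
def gmask (α : Fin 9) : Fin 16 := if α = 0 then 0 else Fin.ofNat 16 (7 + α.val)

/-- the permutation `k ↦ k xor mask` -/
def gi (α : Fin 9) (k : Fin 16) : Fin 16 := k ^^^ gmask α

/-- the sign table -/
def gtab : ℕ := 0xb24dd827748b1ee1ac53c6396a950000ff00

/-- the signs -/
def gs (α : Fin 9) (k : Fin 16) : ℤ := if Nat.testBit gtab (16 * α.val + k.val) then -1 else 1

/-- the space `P = ℝ^16` -/
abbrev PP := Fin 16 → ℝ

/-- the space `ℝ^9` -/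
abbrev VV := Fin 9 → ℝ

/-- the space `E = ℝ ⊕ ℝ^9 ⊕ ℝ^16` -/
abbrev EE := ℝ × VV × PP

/-- continuous linear endomorphisms of `E` -/
abbrev Mt := EE →L[ℝ] EE

/-- the gamma matrices -/
def ga (α : Fin 9) (p : PP) : PP := fun k => (gs α k : ℝ) * p (gi α k)

/-- the scalar product of `P` -/
def ip (p q : PP) : ℝ := ∑ k, p k * q k

/-- `γ(v) p = ∑ v_α γ_α p` -/
def gv (v : VV) (p : PP) : PP := fun k => ∑ α, v α * ga α p k

/-- the basis vectors -/
def bs (i : Fin 16) : PP := Pi.single i 1

/-- the invariant quadratic form -/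
def Qf (z : EE) : ℝ := 3 / 4 * z.1 ^ 2 + ∑ α, z.2.1 α ^ 2 - ip z.2.2 z.2.2

/-- the invariant cubic form -/
def Cf (z : EE) : ℝ := z.1 ^ 3 / 4 - z.1 * ∑ α, z.2.1 α ^ 2 - z.1 * ip z.2.2 z.2.2 / 2
  - ip z.2.2 (gv z.2.1 z.2.2)

/-- `X_p (a, v, ψ) = (2⟨p,ψ⟩, -⟨p, γ ψ⟩, (3/2) a p - γ(v) p)` -/
def Xm (p : PP) : Mt :=
  LinearMap.toContinuousLinearMap
    { toFun := fun z => (2 * ip p z.2.2, fun α => -ip p (ga α z.2.2),
        fun k => 3 / 2 * z.1 * p k - gv z.2.1 p k)
      map_add' := by
        intro x y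
        refine Prod.ext ?_ (Prod.ext ?_ ?_)
        · simp [ip, mul_add, Finset.sum_add_distrib]
        · funext α
          simp [ip, ga, mul_add, Finset.sum_add_distrib]
          ring
        · funext k
          simp [gv, add_mul, Finset.sum_add_distrib]
          ring
      map_smul' := by
        intro c x
        refine Prod.ext ?_ (Prod.ext ?_ ?_)
        · simp only [ip, Prod.smul_snd, Pi.smul_apply, smul_eq_mul, RingHom.id_apply,
            Prod.smul_fst, Finset.mul_sum]
          refine Finset.sum_congr rfl fun k _ => ?_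
          ring
        · funext α
          simp only [ip, ga, Prod.smul_snd, Pi.smul_apply, smul_eq_mul, RingHom.id_apply,
            Prod.smul_fst, Finset.mul_sum, mul_neg, neg_inj]
          refine Finset.sum_congr rfl fun k _ => ?_
          ring
        · funext k
          simp only [gv, Prod.smul_snd, Pi.smul_apply, smul_eq_mul, RingHom.id_apply,
            Prod.smul_fst]
          rw [mul_sub, Finset.mul_sum]
          congr 1
          · ring
          · refine Finset.sum_congr rfl fun k _ => ?_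
            ring }

theorem Xm_apply (p : PP) (z : EE) : Xm p z = (2 * ip p z.2.2, fun α => -ip p (ga α z.2.2),
    fun k => 3 / 2 * z.1 * p k - gv z.2.1 p k) := rfl

/-- the triple product `[[X_p, X_q], X_r] = X_{tp p q r}` -/
def tp (p q r : PP) : PP := fun k => 3 * ip q r * p k - 3 * ip p r * q k
  + ∑ α, (ip q (ga α r) * ga α p k - ip p (ga α r) * ga α q k)

/-- `F_4^(-20)`: the linear automorphisms of `E` preserving `Qf` and `Cf` -/
def F4 : Subgroup Mtˣ where
  carrier := {g | ∀ z, Qf ((g : Mt) z) = Qf z ∧ Cf ((g : Mt) z) = Cf z}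
  one_mem' := fun z => ⟨rfl, rfl⟩
  mul_mem' := by
    intro g h hg hh z
    have h1 : ((g * h : Mtˣ) : Mt) z = (g : Mt) ((h : Mt) z) := rfl
    exact ⟨by rw [h1, (hg _).1, (hh _).1], by rw [h1, (hg _).2, (hh _).2]⟩
  inv_mem' := by
    intro g hg z
    have h1 : (g : Mt) (((g⁻¹ : Mtˣ) : Mt) z) = z := by
      have h2 : ((g : Mt) * ((g⁻¹ : Mtˣ) : Mt)) z = z := by rw [g.mul_inv]; rfl
      exact h2
    exact ⟨by rw [← (hg (((g⁻¹ : Mtˣ) : Mt) z)).1, h1], by
      rw [← (hg (((g⁻¹ : Mtˣ) : Mt) z)).2, h1]⟩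

/-- the group `F_4^(-20)` as a type -/
abbrev GG := ↥F4

/-- the matrix of a group element -/
def mt (g : GG) : Mt := ((g : Mtˣ) : Mt)

@[simp] theorem mt_mul (g h : GG) : mt (g * h) = mt g * mt h := rfl

@[simp] theorem mt_one : mt (1 : GG) = 1 := rfl

theorem mt_inv_mul (g : GG) : mt g⁻¹ * mt g = 1 := by rw [← mt_mul, inv_mul_cancel, mt_one]

theorem mt_mul_inv (g : GG) : mt g * mt g⁻¹ = 1 := by rw [← mt_mul, mul_inv_cancel, mt_one]

theorem mt_Q (g : GG) (z : EE) : Qf (mt g z) = Qf z := (g.2 z).1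

theorem mt_C (g : GG) (z : EE) : Cf (mt g z) = Cf z := (g.2 z).2

theorem mt_injective : Function.Injective mt := fun _ _ h => Subtype.ext (Units.ext h)

instance : MeasurableSpace GG := borel GG

instance : BorelSpace GG := ⟨rfl⟩

/-- the base point `(1, 0, 0)` -/
def e0 : EE := (1, 0, 0)

/-- the maximal compact subgroup `Spin(9)` -/
def KK : Subgroup GG where
  carrier := {g | mt g e0 = e0}
  one_mem' := rfl
  mul_mem' := by
    intro g h hg hh
    change mt g (mt h e0) = e0
    rw [show mt h e0 = e0 from hh, show mt g e0 = e0 from hg]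
  inv_mem' := by
    intro g hg
    have h1 : mt g⁻¹ (mt g e0) = e0 := by
      have h2 : (mt g⁻¹ * mt g) e0 = e0 := by rw [mt_inv_mul]; rfl
      exact h2
    rw [show mt g e0 = e0 from hg] at h1
    exact h1

theorem mem_KK {g : GG} : g ∈ KK ↔ mt g e0 = e0 := Iff.rfl

/-- the radius function: the first coordinate of `g e0` -/
def nm (g : GG) : ℝ := (mt g e0).1

/-- the bracket `[X_p, X_q]` -/
def Ym (p q : PP) : Mt := Xm p * Xm q - Xm q * Xm p

/-- `L_A m (z) = - Dm(z)[A z]` -/
def LX (A : Mt) (m : EE → ℝ) (z : EE) : ℝ := - (fderiv ℝ m z (A z))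

/-- `D_p = L_{X_p}` -/
def Dp (p : PP) (m : EE → ℝ) : EE → ℝ := LX (Xm p) m

/-- the Laplacian -/
def Lap (m : EE → ℝ) (z : EE) : ℝ := ∑ i : Fin 16, Dp (bs i) (Dp (bs i) m) z

/-- smooth kernels, compactly supported on the orbit of `e0` -/
structure Sm (m : EE → ℝ) : Prop where
  smooth : ContDiff ℝ ∞ m
  supp : ∃ R : ℝ, ∀ g : GG, R < nm g → m (mt g e0) = 0

/-- smooth `K`-invariant kernels -/
structure Kn (m : EE → ℝ) : Prop extends Sm m where
  left : ∀ k ∈ KK, ∀ z, m (mt k z) = m z

/-- the kernel as a function on the group -/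
def kr (m : EE → ℝ) (g : GG) : ℝ := m (mt g e0)

/-- infinitesimal automorphisms -/
structure Ia (A : Mt) : Prop where
  q : ∀ z, LX A Qf z = 0
  c : ∀ z, LX A Cf z = 0

end FF4

end
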