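import Pool.Agent.FF4.Gt
import Pool.Agent.SPN.Ab

/-! # FF4: further definitions -/

open MeasureTheory
open scoped ContDiff

noncomputable section

namespace FF4

theorem exp_add' {A B : Mt} (h : Commute A B) :
    NormedSpace.exp (A + B) = NormedSpace.exp A * NormedSpace.exp B := by
  let _ : NormedAlgebra ℚ Mt := NormedAlgebra.restrictScalars ℚ ℝ Mt
  exact NormedSpace.exp_add_of_commute h

theorem exp_der (A : Mt) (t : ℝ) :
    HasDerivAt (fun s : ℝ => NormedSpace.exp (s • A)) (A * NormedSpace.exp (t • A)) t :=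
  hasDerivAt_exp_smul_const' (𝕂 := ℝ) A t

/-- the unit `exp A` -/
def eu (A : Mt) : Mtˣ where
  val := NormedSpace.exp A
  inv := NormedSpace.exp (-A)
  val_inv := by
    rw [← exp_add' (Commute.neg_right (Commute.refl A)), add_neg_cancel, NormedSpace.exp_zero]
  inv_val := by
    rw [← exp_add' (Commute.neg_left (Commute.refl A)), neg_add_cancel, NormedSpace.exp_zero]

open Classical in
/-- `exp A` as an element of `F_4^(-20)` (`1` if it is not one) -/
def eg (A : Mt) : GG := if h : eu A ∈ F4 then ⟨eu A, h⟩ else 1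

/-- the one parameter group `exp (t X_p)` -/
def hy (p : PP) (t : ℝ) : GG := eg (t • Xm p)

open Classical in
/-- the Haar probability measure of `K` (`0` if `K` is not compact) -/
def kap : Measure KK := if _h : CompactSpace KK then
  Measure.haarMeasure (⊤ : TopologicalSpace.PositiveCompacts KK) else 0

/-- properties of the trilinear form on smooth kernels -/
structure Tf (T : (EE → ℝ) → (EE → ℝ) → (EE → ℝ) → ℝ) : Prop where
  symm : ∀ a b c, T a b c = T a c b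
  add1 : ∀ a a' b c, Sm a → Sm a' → Sm b → Sm c →
    T (fun z => a z + a' z) b c = T a b c + T a' b c
  smul1 : ∀ (r : ℝ) (a b c), T (fun z => r * a z) b c = r * T a b c
  add2 : ∀ a b b' c, Sm a → Sm b → Sm b' → Sm c →
    T a (fun z => b z + b' z) c = T a b c + T a b' c
  smul2 : ∀ (r : ℝ) (a b c), T a (fun z => r * b z) c = r * T a b c
  cyc : ∀ p a b c, Sm a → Sm b → Sm c →
    T a b (Dp p c) + T b a (Dp p c) + T (Dp p c) a b = 0
  der : ∀ p a b c, Sm a → Sm b → Sm c →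
    T (Dp p a) b c + T a (Dp p b) c + T a b (Dp p c) = 0
  nonneg : ∀ m b, Sm m → (∀ z, 0 ≤ m z) → Sm b → 0 ≤ T m b b

/-- `(P_t m)(z) = ∫_K m (a_t⁻¹ k⁻¹ z) dk`, `a_t = exp (t X_{e_0})` -/
def Pt (t : ℝ) (m : EE → ℝ) (z : EE) : ℝ :=
  ∫ k : KK, m (mt (hy (bs 0) (-t)) (mt ((k : GG)⁻¹) z)) ∂kap

/-- the roots -/
def lam (i : Fin 16) : ℝ := if i.val < 8 then 2 else 1

/-- `Y_i = [H, X_i] / λ_i` -/
def Yi (i : Fin 16) : Mt := (lam i)⁻¹ • Ym (bs 0) (bs i)

/-- the density `J(s) = sinh(s)^8 sinh(2s)^7` -/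
def Jf (s : ℝ) : ℝ := Real.sinh s ^ 8 * Real.sinh (2 * s) ^ 7

/-- `w(s) = J(s) ∫_s^1 dr / J(r)` -/
def wf (s : ℝ) : ℝ := Jf s * ∫ r in s..1, (Jf r)⁻¹

/-- `8 coth s + 14 coth 2s = J' / J` -/
def hc (s : ℝ) : ℝ :=
  8 * (Real.cosh s / Real.sinh s) + 14 * (Real.cosh (2 * s) / Real.sinh (2 * s))

/-- the Green operator -/
def tau (m : EE → ℝ) (z : EE) : ℝ := ∫ s in (0)..1, wf s * Pt s m z

/-- the bump `σ(z) = smoothTransition (5 - z_0)` -/
def sig (z : EE) : ℝ := Real.smoothTransition (5 - z.1)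

/-- `P_1^k σ` -/
def sgk (k : ℕ) : EE → ℝ := (Pt 1)^[k] sig

/-- the normalization `∫ tau σ` -/
def cc : ℝ := ∫ g, kr (tau sig) g ∂mu

/-- the density `ρ = tau σ / ∫ tau σ` on `G` -/
def rho (g : GG) : ℝ := cc⁻¹ * kr (tau sig) g

/-- the kernel `m_k` on `E` -/
def mE (k : ℕ) (z : EE) : ℝ := cc⁻¹ * ∑ j ∈ Finset.range k, tau (sgk j) z

/-- `F_r = ∑_e S_{D_e m_r}²` -/
def Fn {Γ : Subgroup GG} {X : Type*} [LinearOrder X] (π : GG → Γ) (q : Γ → X) (r : ℕ)
    (v : GG) (γ : Γ) : ℝ :=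
  ∑ i : Fin 16, SPN.Sf mu π q (kr (Dp (bs i) (mE r))) v γ ^ 2

end FF4

end
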