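import Pool.Agent.FF4.Gd

/-! # FF4: topology of the group, Haar measure -/

open MeasureTheory
open scoped ContDiff

noncomputable section

namespace FF4

theorem continuous_Qf : Continuous Qf := by
  unfold Qf ip
  fun_prop

theorem continuous_Cf : Continuous Cf := by
  unfold Cf ip gv ga
  fun_prop

theorem isClosed_F4 : IsClosed (F4 : Set Mtˣ) := by
  have h : (F4 : Set Mtˣ) = ⋂ z : EE, ({g : Mtˣ | Qf ((g : Mt) z) = Qf z} ∩
      {g : Mtˣ | Cf ((g : Mt) z) = Cf z}) := by
    ext g
    simp only [Set.mem_iInter, Set.mem_inter_iff, Set.mem_ofPred_eq]
    exact Iff.rfl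
  rw [h]
  refine isClosed_iInter fun z => IsClosed.inter ?_ ?_
  · refine isClosed_eq (continuous_Qf.comp ?_) continuous_const
    exact (ContinuousLinearMap.apply ℝ EE z).continuous.comp Units.continuous_val
  · refine isClosed_eq (continuous_Cf.comp ?_) continuous_const
    exact (ContinuousLinearMap.apply ℝ EE z).continuous.comp Units.continuous_val

instance : ProperSpace Mt := FiniteDimensional.proper_real Mt

instance : LocallyCompactSpace Mtˣ := Units.isOpenEmbedding_val.locallyCompactSpace

instance : SecondCountableTopology Mtˣ :=
  Units.isOpenEmbedding_val.isEmbedding.secondCountableTopology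

instance : LocallyCompactSpace GG := isClosed_F4.isClosedEmbedding_subtypeVal.locallyCompactSpace

theorem continuous_mt : Continuous mt := Units.continuous_val.comp continuous_subtype_val

theorem continuous_mt_apply (z : EE) : Continuous (fun g : GG => mt g z) :=
  (ContinuousLinearMap.apply ℝ EE z).continuous.comp continuous_mt

instance : SecondCountableTopology GG :=
  Topology.IsEmbedding.subtypeVal.secondCountableTopology (f := (Subtype.val : GG → Mtˣ))

/-- Haar measure of `F_4^(-20)` -/
def mu : Measure GG := Measure.haar

instance : mu.IsHaarMeasure := inferInstanceAs (Measure.haar).IsHaarMeasure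

end FF4

end
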