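import Pool.Agent.FF4.Ge
import Pool.Agent.FF4.Gam

/-! # Module Kst (difficulty 4): structure of `K = Spin(9)`

`kst`. PROOF. Let `k ∈ K`, `y = (0, v, ψ)`. Polarize `Qf` at `e0`: `Qf (s e0 + y) = 3/4 s² + |v|² - |ψ|²` for all `s`; since
`k (s e0 + y) = s e0 + k y` and `Qf` is preserved for all `s`, the first component of `k y` is `0`, `k y = (0, v', ψ')`, and
`|v'|² - |ψ'|² = |v|² - |ψ|²`. `Cf (s e0 + y) = s³/4 - s (|v|² + |ψ|²/2) - <ψ, γ(v)ψ>`: comparing coefficients of `s`: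
`|v'|² + |ψ'|²/2 = |v|² + |ψ|²/2` and `<ψ', γ(v')ψ'> = <ψ, γ(v)ψ>`. So `|v'| = |v|`, `|ψ'| = |ψ|`: with `ψ = 0` resp. `v = 0`:
`k (0, v, 0) = (0, A v, 0)`, `k (0, 0, ψ) = (0, 0, B ψ)`, `A`, `B` linear and isometric, and
`<Bψ, γ(Av) Bψ> = <ψ, γ(v)ψ>`; polarize in `ψ`: `<Bφ, γ(Av) Bψ> = <φ, γ(v)ψ>`; `B` is invertible (isometry of `ℝ^16`), so
`γ(Av) B ψ = B γ(v) ψ`.
`kst_Ad`: `k X_p = X_{B p} k`: compare on `(a, v, ψ)`: `2<p,ψ> = 2<Bp,Bψ>`; `A (<p, γ_α ψ>)_α = (<Bp, γ_α Bψ>)_α` (scalar product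
with `A u`: `<p, γ(u)ψ> = <Bp, γ(Au) Bψ>`); `B((3/2) a p - γ(v)p) = (3/2) a Bp - γ(Av) Bp`.
`exists_ku`: for a unit vector `u ∈ ℝ^9` the map `(a, v, ψ) ↦ (a, 2<u,v>u - v, γ(u)ψ)` is in `K`: `γ(u)γ(v')γ(u) = γ(v)` for
`v' = 2<u,v>u - v` (`γ(u)γ(v) + γ(v)γ(u) = 2<u,v>`), so `<γ(u)ψ, γ(v')γ(u)ψ> = <ψ, γ(v)ψ>`; `|γ(u)ψ| = |ψ|`, `|v'| = |v|`.
`K_trans`: for `p, p'` with `|p| = |p'| > 0` the linear maps `v ↦ γ(v)p`, `v ↦ γ(v)p'` from `ℝ^9` to `ℝ^16` are injective
(`ip_gv`), `9 + 9 > 16`, so there are `v, v'`, not both zero, with `γ(v)p = γ(v')p'`; then `|v| = |v'| ≠ 0`; divide by `|v|`: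
`γ(u)p = γ(u')p'`, so `p' = γ(u')γ(u)p` (`gv_gv`): `k = k_{u'} k_u`. (The zero case: `p = p' = 0`, `k = 1`.) -/

open MeasureTheory
open scoped ContDiff

noncomputable section

namespace FF4

private theorem Kst_ipl (p q r : PP) : ip (p + q) r = ip p r + ip q r := by
  rw [ip_comm, ip_add, ip_comm r p, ip_comm r q]

private theorem Kst_ipsl (t : ℝ) (p q : PP) : ip (t • p) q = t * ip p q := by
  rw [ip_comm, ip_smul, ip_comm]

private theorem Kst_ipn (p q : PP) : ip p (-q) = -ip p q := by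
  have := ip_smul (-1) p q
  simpa using this

private theorem Kst_ips (p q r : PP) : ip p (q - r) = ip p q - ip p r := by
  rw [sub_eq_add_neg, ip_add, Kst_ipn, ← sub_eq_add_neg]

private theorem Kst_ip0 (p : PP) : ip p 0 = 0 := by
  simp [ip]

private theorem Kst_gv1 (v w : VV) (p : PP) : gv (v + w) p = gv v p + gv w p := by
  funext k
  simp only [gv, Pi.add_apply, add_mul, Finset.sum_add_distrib]

private theorem Kst_gv1s (t : ℝ) (v : VV) (p : PP) : gv (t • v) p = t • gv v p := by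
  funext k
  simp only [gv, Pi.smul_apply, smul_eq_mul, Finset.mul_sum]
  exact Finset.sum_congr rfl fun _ _ => by ring

private theorem Kst_gv1n (v w : VV) (p : PP) : gv (v - w) p = gv v p - gv w p := by
  funext k
  simp only [gv, Pi.sub_apply, sub_mul, Finset.sum_sub_distrib]

private theorem Kst_gv2 (v : VV) (p q : PP) : gv v (p + q) = gv v p + gv v q := by
  funext k
  simp only [gv, ga_add, Pi.add_apply, mul_add, Finset.sum_add_distrib]

private theorem Kst_gv2s (t : ℝ) (v : VV) (p : PP) : gv v (t • p) = t • gv v p := by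
  funext k
  simp only [gv, ga_smul, Pi.smul_apply, smul_eq_mul, Finset.mul_sum]
  exact Finset.sum_congr rfl fun _ _ => by ring

private theorem Kst_gv0 (p : PP) : gv 0 p = 0 := by
  funext k
  simp [gv]

private theorem Kst_gv20 (v : VV) : gv v 0 = 0 := by
  have := Kst_gv2s 0 v 0
  simpa using this

private theorem Kst_ipgv (v : VV) (p q : PP) : ip p (gv v q) = ∑ α, v α * ip p (ga α q) := by
  simp only [ip, gv, Finset.mul_sum]
  rw [Finset.sum_comm]
  exact Finset.sum_congr rfl fun _ _ => Finset.sum_congr rfl fun _ _ => by ring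

private theorem Kst_gvsym (v : VV) (p q : PP) : ip p (gv v q) = ip q (gv v p) := by
  rw [Kst_ipgv, Kst_ipgv]
  refine Finset.sum_congr rfl fun α _ => ?_
  rw [← ip_ga α p q, ip_comm]

private theorem Kst_sep {p : PP} (h : ∀ q, ip q p = 0) : p = 0 := ip_self_eq_zero (h p)

private theorem Kst_vsep {v : VV} (h : ∑ α, v α ^ 2 = 0) : v = 0 := by
  funext α
  have h1 := (Finset.sum_eq_zero_iff_of_nonneg (fun (β : Fin 9) _ => sq_nonneg (v β))).1 h α
    (Finset.mem_univ α)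
  exact pow_eq_zero_iff (two_ne_zero) |>.1 h1

private theorem Kst_vpol (A : VV →ₗ[ℝ] VV) (h : ∀ v, ∑ α, A v α ^ 2 = ∑ α, v α ^ 2) (v w : VV) :
    ∑ α, A v α * A w α = ∑ α, v α * w α := by
  have h1 := h (v + w)
  have e : ∀ x y : VV, ∑ α, (x + y) α ^ 2 = ∑ α, x α ^ 2 + ∑ α, y α ^ 2 + 2 * ∑ α, x α * y α := by
    intro x y
    rw [Finset.mul_sum, ← Finset.sum_add_distrib, ← Finset.sum_add_distrib]
    refine Finset.sum_congr rfl fun α _ => ?_
    simp only [Pi.add_apply]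
    ring
  rw [map_add, e, e, h v, h w] at h1
  linarith

private theorem Kst_pol (B : PP →ₗ[ℝ] PP) (h : ∀ p, ip (B p) (B p) = ip p p) (p q : PP) :
    ip (B p) (B q) = ip p q := by
  have h1 := h (p + q)
  simp only [map_add, ip_add, Kst_ipl] at h1
  rw [h p, h q, ip_comm (B q) (B p), ip_comm q p] at h1
  linarith

private theorem Kst_sur (B : PP →ₗ[ℝ] PP) (h : ∀ p, ip (B p) (B p) = ip p p) :
    Function.Surjective B := by
  have hinj : Function.Injective B := by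
    rw [injective_iff_map_eq_zero]
    intro p hp
    apply ip_self_eq_zero
    rw [← h p, hp, Kst_ip0]
  exact LinearMap.injective_iff_surjective.1 hinj

private theorem Kst_vsur (A : VV →ₗ[ℝ] VV) (h : ∀ v, ∑ α, A v α ^ 2 = ∑ α, v α ^ 2) :
    Function.Surjective A := by
  have hinj : Function.Injective A := by
    rw [injective_iff_map_eq_zero]
    intro v hv
    apply Kst_vsep
    rw [← h v, hv]
    simp
  exact LinearMap.injective_iff_surjective.1 hinj

private theorem Kst_Q (a : ℝ) (v : VV) (p : PP) :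
    Qf (a, v, p) = 3 / 4 * a ^ 2 + ∑ α, v α ^ 2 - ip p p := rfl

private theorem Kst_C (a : ℝ) (v : VV) (p : PP) :
    Cf (a, v, p) = a ^ 3 / 4 - a * ∑ α, v α ^ 2 - a * ip p p / 2 - ip p (gv v p) := rfl

private theorem Kst_dec {k : GG} (hk : k ∈ KK) (s : ℝ) (v : VV) (p : PP) :
    mt k (s, v, p) = s • e0 + mt k (0, v, p) := by
  have h1 : ((s, v, p) : EE) = s • e0 + (0, v, p) := by
    refine Prod.ext ?_ (Prod.ext ?_ ?_)
    · simp [e0]
    · simp [e0]
    · simp [e0]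
  rw [h1, map_add, map_smul, show mt k e0 = e0 from hk]

private theorem Kst_basic {k : GG} (hk : k ∈ KK) (v : VV) (p : PP) :
    (mt k (0, v, p)).1 = 0 ∧ (∑ α, (mt k (0, v, p)).2.1 α ^ 2) = ∑ α, v α ^ 2 ∧
    ip (mt k (0, v, p)).2.2 (mt k (0, v, p)).2.2 = ip p p ∧
    ip (mt k (0, v, p)).2.2 (gv (mt k (0, v, p)).2.1 (mt k (0, v, p)).2.2) = ip p (gv v p) := by
  obtain ⟨b, w, q, hy⟩ : ∃ (b : ℝ) (w : VV) (q : PP), mt k (0, v, p) = (b, w, q) :=
    ⟨_, _, _, rfl⟩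
  have hz : ∀ s : ℝ, mt k (s, v, p) = (s + b, w, q) := by
    intro s
    rw [Kst_dec hk, hy]
    refine Prod.ext ?_ (Prod.ext ?_ ?_)
    · simp [e0]
    · simp [e0]
    · simp [e0]
  have hQ : ∀ s : ℝ, 3 / 4 * (s + b) ^ 2 + ∑ α, w α ^ 2 - ip q q
      = 3 / 4 * s ^ 2 + ∑ α, v α ^ 2 - ip p p := by
    intro s
    have := mt_Q k (s, v, p)
    rwa [hz, Kst_Q, Kst_Q] at this
  have hC : ∀ s : ℝ, (s + b) ^ 3 / 4 - (s + b) * ∑ α, w α ^ 2 - (s + b) * ip q q / 2 - ip q (gv w q)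
      = s ^ 3 / 4 - s * ∑ α, v α ^ 2 - s * ip p p / 2 - ip p (gv v p) := by
    intro s
    have := mt_C k (s, v, p)
    rwa [hz, Kst_C, Kst_C] at this
  rw [hy]
  change b = 0 ∧ (∑ α, w α ^ 2) = ∑ α, v α ^ 2 ∧ ip q q = ip p p ∧ ip q (gv w q) = ip p (gv v p)
  have hb : b = 0 := by
    have h0 := hQ 0
    have h1 := hQ 1
    linarith
  subst hb
  have q0 := hQ 0
  have c0 := hC 0
  have c1 := hC 1
  refine ⟨rfl, ?_, ?_, ?_⟩ <;> linarith

theorem kst {k : GG} (hk : k ∈ KK) : ∃ (A : VV →ₗ[ℝ] VV) (B : PP →ₗ[ℝ] PP),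
    (∀ v, ∑ α, A v α ^ 2 = ∑ α, v α ^ 2) ∧ (∀ p q, ip (B p) (B q) = ip p q) ∧
    (∀ v p, B (gv v p) = gv (A v) (B p)) ∧ ∀ z : EE, mt k z = (z.1, A z.2.1, B z.2.2) := by
  let A : VV →ₗ[ℝ] VV :=
    { toFun := fun v => (mt k (0, v, 0)).2.1
      map_add' := by
        intro v w
        have h : (((0 : ℝ), v + w, (0 : PP)) : EE) = (0, v, 0) + (0, w, 0) := by simp
        rw [h, map_add]
        rfl
      map_smul' := by
        intro t v
        have h : (((0 : ℝ), t • v, (0 : PP)) : EE) = t • ((0, v, 0) : EE) := by simp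
        rw [h, map_smul]
        rfl }
  let B : PP →ₗ[ℝ] PP :=
    { toFun := fun p => (mt k (0, 0, p)).2.2
      map_add' := by
        intro v w
        have h : (((0 : ℝ), (0 : VV), v + w) : EE) = (0, 0, v) + (0, 0, w) := by simp
        rw [h, map_add]
        rfl
      map_smul' := by
        intro t v
        have h : (((0 : ℝ), (0 : VV), t • v) : EE) = t • ((0, 0, v) : EE) := by simp
        rw [h, map_smul]
        rfl }
  have hA : ∀ v : VV, mt k (0, v, 0) = (0, A v, 0) := by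
    intro v
    obtain ⟨h1, h2, h3, h4⟩ := Kst_basic hk v 0
    refine Prod.ext h1 (Prod.ext rfl ?_)
    apply ip_self_eq_zero
    rw [h3, Kst_ip0]
  have hB : ∀ p : PP, mt k (0, 0, p) = (0, 0, B p) := by
    intro p
    obtain ⟨h1, h2, h3, h4⟩ := Kst_basic hk 0 p
    refine Prod.ext h1 (Prod.ext ?_ rfl)
    apply Kst_vsep
    rw [h2]
    simp
  have hAB : ∀ (v : VV) (p : PP), mt k (0, v, p) = (0, A v, B p) := by
    intro v p
    have h : (((0 : ℝ), v, p) : EE) = (0, v, 0) + (0, 0, p) := by simp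
    rw [h, map_add, hA, hB]
    simp
  have iA : ∀ v, ∑ α, A v α ^ 2 = ∑ α, v α ^ 2 := by
    intro v
    have h := (Kst_basic hk v 0).2.1
    rwa [hAB] at h
  have iB : ∀ p, ip (B p) (B p) = ip p p := by
    intro p
    have h := (Kst_basic hk 0 p).2.2.1
    rwa [hAB] at h
  have iT : ∀ v p, ip (B p) (gv (A v) (B p)) = ip p (gv v p) := by
    intro v p
    have h := (Kst_basic hk v p).2.2.2
    rwa [hAB] at h
  have iT2 : ∀ v p q, ip (B p) (gv (A v) (B q)) = ip p (gv v q) := by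
    intro v p q
    have h := iT v (p + q)
    simp only [map_add, Kst_gv2, ip_add, Kst_ipl] at h
    rw [iT, iT, Kst_gvsym (A v) (B q) (B p), Kst_gvsym v q p] at h
    linarith
  refine ⟨A, B, iA, Kst_pol B iB, ?_, ?_⟩
  · intro v p
    have hs := Kst_sur B iB
    have h : B (gv v p) - gv (A v) (B p) = 0 := by
      apply Kst_sep
      intro q
      obtain ⟨r, rfl⟩ := hs q
      rw [Kst_ips, Kst_pol B iB, iT2, sub_self]
    exact sub_eq_zero.1 h
  · intro z
    have h := Kst_dec hk z.1 z.2.1 z.2.2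
    rw [hAB] at h
    have hz : mt k z = z.1 • e0 + (0, A z.2.1, B z.2.2) := h
    rw [hz]
    refine Prod.ext ?_ (Prod.ext ?_ ?_)
    · simp [e0]
    · simp [e0]
    · simp [e0]

private theorem Kst_third (a : ℝ) (p : PP) (v : VV) :
    (fun k => 3 / 2 * a * p k - gv v p k) = (3 / 2 * a) • p - gv v p := rfl

theorem exists_Ad {k : GG} (hk : k ∈ KK) : ∃ L : PP →ₗ[ℝ] PP, (∀ p, ip (L p) (L p) = ip p p) ∧
    (∀ p, mt k * Xm p = Xm (L p) * mt k) ∧ ∀ z : EE, (mt k z).2.2 = L z.2.2 := by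
  obtain ⟨A, B, iA, iB, iG, hz⟩ := kst hk
  refine ⟨B, fun p => iB p p, ?_, fun z => by rw [hz]⟩
  intro p
  refine ContinuousLinearMap.ext fun z => ?_
  have h0 : (mt k * Xm p) z = mt k (Xm p z) := rfl
  have h1 : (Xm (B p) * mt k) z = Xm (B p) (mt k z) := rfl
  rw [h0, h1, hz, hz, Xm_apply, Xm_apply]
  simp only [Kst_third]
  refine Prod.ext ?_ (Prod.ext ?_ ?_)
  · change 2 * ip p z.2.2 = 2 * ip (B p) (B z.2.2)
    rw [iB]
  · change A (fun α => -ip p (ga α z.2.2)) = fun α => -ip (B p) (ga α (B z.2.2))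
    set u : VV := fun α => -ip p (ga α z.2.2) with hu
    set w : VV := fun α => -ip (B p) (ga α (B z.2.2)) with hw
    have key : ∀ x : VV, ∑ α, A x α * w α = ∑ α, A x α * A u α := by
      intro x
      rw [Kst_vpol A iA x u]
      have e1 : ∑ α, A x α * w α = -ip (B p) (gv (A x) (B z.2.2)) := by
        rw [Kst_ipgv, ← Finset.sum_neg_distrib]
        exact Finset.sum_congr rfl fun α _ => by rw [hw]; ring
      have e2 : ∑ α, x α * u α = -ip p (gv x z.2.2) := by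
        rw [Kst_ipgv, ← Finset.sum_neg_distrib]
        exact Finset.sum_congr rfl fun α _ => by rw [hu]; ring
      rw [e1, e2, ← iG, iB]
    have h2 : w - A u = 0 := by
      apply Kst_vsep
      obtain ⟨x, hx⟩ := Kst_vsur A iA (w - A u)
      have h3 := key x
      rw [hx] at h3
      have h4 : ∑ α, (w - A u) α ^ 2 = ∑ α, (w - A u) α * w α - ∑ α, (w - A u) α * A u α := by
        rw [← Finset.sum_sub_distrib]
        refine Finset.sum_congr rfl fun α _ => ?_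
        simp only [Pi.sub_apply]
        ring
      rw [h4, h3, sub_self]
    exact (sub_eq_zero.1 h2).symm
  · change B ((3 / 2 * z.1) • p - gv z.2.1 p) = (3 / 2 * z.1) • B p - gv (A z.2.1) (B p)
    rw [map_sub, map_smul, iG]

private theorem Kst_anti (u v : VV) (p : PP) :
    gv u (gv v p) + gv v (gv u p) = (2 * ∑ α, u α * v α) • p := by
  have h := gv_gv (u + v) p
  have e : ∑ α, (u + v) α ^ 2 = ∑ α, u α ^ 2 + ∑ α, v α ^ 2 + 2 * ∑ α, u α * v α := by
    rw [Finset.mul_sum, ← Finset.sum_add_distrib, ← Finset.sum_add_distrib]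
    refine Finset.sum_congr rfl fun α _ => ?_
    simp only [Pi.add_apply]
    ring
  rw [e] at h
  simp only [Kst_gv1, Kst_gv2] at h
  rw [gv_gv, gv_gv, add_smul, add_smul] at h
  have l : gv u (gv v p) + gv v (gv u p) = (∑ α, u α ^ 2) • p + gv u (gv v p)
      + (gv v (gv u p) + (∑ α, v α ^ 2) • p) - (∑ α, u α ^ 2) • p - (∑ α, v α ^ 2) • p := by abel
  rw [l, show (∑ α, u α ^ 2) • p + gv u (gv v p) + (gv v (gv u p) + (∑ α, v α ^ 2) • p)
    = (∑ α, u α ^ 2) • p + (∑ α, v α ^ 2) • p + (2 * ∑ α, u α * v α) • p by rw [← h]; abel]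
  abel

/-- the map `(a, v, ψ) ↦ (a, 2<u,v>u - v, γ(u)ψ)` -/
private def Kst_mp (u : VV) : Mt :=
  LinearMap.toContinuousLinearMap
    { toFun := fun z => (z.1, (2 * ∑ α, u α * z.2.1 α) • u - z.2.1, gv u z.2.2)
      map_add' := by
        intro x y
        refine Prod.ext rfl (Prod.ext ?_ ?_)
        · change (2 * ∑ α, u α * (x.2.1 α + y.2.1 α)) • u - (x.2.1 + y.2.1)
            = ((2 * ∑ α, u α * x.2.1 α) • u - x.2.1) + ((2 * ∑ α, u α * y.2.1 α) • u - y.2.1)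
          simp only [mul_add, Finset.sum_add_distrib, add_smul]
          abel
        · exact Kst_gv2 u x.2.2 y.2.2
      map_smul' := by
        intro c x
        refine Prod.ext rfl (Prod.ext ?_ ?_)
        · change (2 * ∑ α, u α * (c * x.2.1 α)) • u - c • x.2.1
            = c • ((2 * ∑ α, u α * x.2.1 α) • u - x.2.1)
          have : ∑ α, u α * (c * x.2.1 α) = c * ∑ α, u α * x.2.1 α := by
            rw [Finset.mul_sum]
            exact Finset.sum_congr rfl fun _ _ => by ring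
          rw [this, smul_sub, smul_smul]
          congr 2
          ring
        · exact Kst_gv2s c u x.2.2 }

private theorem Kst_mp_apply (u : VV) (z : EE) :
    Kst_mp u z = (z.1, (2 * ∑ α, u α * z.2.1 α) • u - z.2.1, gv u z.2.2) := rfl

private theorem Kst_mp_mp (u : VV) (hu : ∑ α, u α ^ 2 = 1) : Kst_mp u * Kst_mp u = 1 := by
  refine ContinuousLinearMap.ext fun z => ?_
  have h0 : (Kst_mp u * Kst_mp u) z = Kst_mp u (Kst_mp u z) := rfl
  rw [h0, Kst_mp_apply u (Kst_mp u z), Kst_mp_apply]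
  refine Prod.ext rfl (Prod.ext ?_ ?_)
  · change (2 * ∑ α, u α * (((2 * ∑ β, u β * z.2.1 β) • u - z.2.1) α)) • u
      - ((2 * ∑ α, u α * z.2.1 α) • u - z.2.1) = z.2.1
    have h1 : ∑ α, u α * (((2 * ∑ β, u β * z.2.1 β) • u - z.2.1) α) = ∑ α, u α * z.2.1 α := by
      have h2 : ∀ α, u α * (((2 * ∑ β, u β * z.2.1 β) • u - z.2.1) α)
          = (2 * ∑ β, u β * z.2.1 β) * u α ^ 2 - u α * z.2.1 α := by
        intro α
        simp only [Pi.sub_apply, Pi.smul_apply, smul_eq_mul]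
        ring
      simp only [h2]
      rw [Finset.sum_sub_distrib, ← Finset.mul_sum, hu]
      ring
    rw [h1]
    abel
  · change gv u (gv u z.2.2) = z.2.2
    rw [gv_gv, hu, one_smul]

private def Kst_un (u : VV) (hu : ∑ α, u α ^ 2 = 1) : Mtˣ where
  val := Kst_mp u
  inv := Kst_mp u
  val_inv := Kst_mp_mp u hu
  inv_val := Kst_mp_mp u hu

private theorem Kst_un_mem (u : VV) (hu : ∑ α, u α ^ 2 = 1) : Kst_un u hu ∈ F4 := by
  intro z
  have h0 : ((Kst_un u hu : Mtˣ) : Mt) z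
    = (z.1, (2 * ∑ α, u α * z.2.1 α) • u - z.2.1, gv u z.2.2) := rfl
  have h1 : ∑ α, ((2 * ∑ β, u β * z.2.1 β) • u - z.2.1) α ^ 2 = ∑ α, z.2.1 α ^ 2 := by
    have h2 : ∀ α, ((2 * ∑ β, u β * z.2.1 β) • u - z.2.1) α ^ 2
        = (2 * ∑ β, u β * z.2.1 β) ^ 2 * u α ^ 2
          - 2 * (2 * ∑ β, u β * z.2.1 β) * (u α * z.2.1 α) + z.2.1 α ^ 2 := by
      intro α
      simp only [Pi.sub_apply, Pi.smul_apply, smul_eq_mul]
      ring
    simp only [h2]
    rw [Finset.sum_add_distrib, Finset.sum_sub_distrib, ← Finset.mul_sum, ← Finset.mul_sum, hu]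
    ring
  have h3 : ip (gv u z.2.2) (gv u z.2.2) = ip z.2.2 z.2.2 := by
    rw [ip_gv, hu, one_mul]
  rw [h0]
  constructor
  · rw [Kst_Q, h1, h3]
    rfl
  · rw [Kst_C, h1, h3]
    have h4 : gv ((2 * ∑ α, u α * z.2.1 α) • u - z.2.1) (gv u z.2.2) = gv u (gv z.2.1 z.2.2) := by
      rw [Kst_gv1n, Kst_gv1s, gv_gv, hu, one_smul, ← Kst_anti]
      abel
    have h5 : ip (gv u z.2.2) (gv u (gv z.2.1 z.2.2)) = ip z.2.2 (gv z.2.1 z.2.2) := by
      rw [Kst_gvsym, gv_gv, hu, one_smul, ip_comm]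
    rw [h4, h5]
    rfl

theorem exists_ku (u : VV) (hu : ∑ α, u α ^ 2 = 1) : ∃ k : GG, k ∈ KK ∧
    ∀ z : EE, mt k z = (z.1, (2 * ∑ α, u α * z.2.1 α) • u - z.2.1, gv u z.2.2) := by
  refine ⟨⟨Kst_un u hu, Kst_un_mem u hu⟩, ?_, fun z => rfl⟩
  rw [mem_KK]
  change Kst_mp u e0 = e0
  rw [Kst_mp_apply]
  refine Prod.ext rfl (Prod.ext ?_ ?_)
  · simp [e0]
  · exact Kst_gv20 u

theorem K_trans (p p' : PP) (h : ip p p = ip p' p') : ∃ k : GG, k ∈ KK ∧
    ∀ z : EE, z.2.2 = p → (mt k z).2.2 = p' := by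
  by_cases hp : ip p p = 0
  · have h1 : p = 0 := ip_self_eq_zero hp
    have h2 : p' = 0 := ip_self_eq_zero (h ▸ hp)
    refine ⟨1, KK.one_mem, fun z hz => ?_⟩
    rw [mt_one, h2, ← h1]
    exact hz
  · let Φ : (VV × VV) →ₗ[ℝ] PP :=
      { toFun := fun x => gv x.1 p - gv x.2 p'
        map_add' := by
          intro x y
          change gv (x.1 + y.1) p - gv (x.2 + y.2) p' = gv x.1 p - gv x.2 p' + (gv y.1 p - gv y.2 p')
          rw [Kst_gv1, Kst_gv1]
          abel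
        map_smul' := by
          intro c x
          change gv (c • x.1) p - gv (c • x.2) p' = c • (gv x.1 p - gv x.2 p')
          rw [Kst_gv1s, Kst_gv1s, smul_sub] }
    have hk : LinearMap.ker Φ ≠ ⊥ := by
      apply LinearMap.ker_ne_bot_of_finrank_lt
      rw [Module.finrank_prod]
      simp [PP, VV]
    obtain ⟨x, hx, hx0⟩ := Submodule.exists_mem_ne_zero_of_ne_bot hk
    obtain ⟨v, w⟩ := x
    have hvw : gv v p = gv w p' := by
      have : gv v p - gv w p' = 0 := hx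
      exact sub_eq_zero.1 this
    have hn : ∑ α, v α ^ 2 = ∑ α, w α ^ 2 := by
      have h1 := ip_gv v p
      rw [hvw, ip_gv, ← h] at h1
      exact (mul_right_cancel₀ hp h1).symm
    have hv0 : ∑ α, v α ^ 2 ≠ 0 := by
      intro h0
      apply hx0
      have e1 : v = 0 := Kst_vsep h0
      have e2 : w = 0 := Kst_vsep (hn.symm.trans h0)
      rw [e1, e2]
      rfl
    have hvpos : 0 < ∑ α, v α ^ 2 :=
      lt_of_le_of_ne (Finset.sum_nonneg fun α _ => sq_nonneg (v α)) (Ne.symm hv0)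
    set c : ℝ := (Real.sqrt (∑ α, v α ^ 2))⁻¹ with hc
    have hc2 : c ^ 2 * ∑ α, v α ^ 2 = 1 := by
      rw [hc, inv_pow, Real.sq_sqrt hvpos.le, inv_mul_cancel₀ hv0]
    have hun : ∀ x : VV, ∑ α, (c • x) α ^ 2 = c ^ 2 * ∑ α, x α ^ 2 := by
      intro x
      rw [Finset.mul_sum]
      refine Finset.sum_congr rfl fun α _ => ?_
      simp only [Pi.smul_apply, smul_eq_mul]
      ring
    have hu1 : ∑ α, (c • v) α ^ 2 = 1 := by rw [hun, hc2]
    have hu2 : ∑ α, (c • w) α ^ 2 = 1 := by rw [hun, ← hn, hc2]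
    obtain ⟨k1, hk1, hz1⟩ := exists_ku (c • v) hu1
    obtain ⟨k2, hk2, hz2⟩ := exists_ku (c • w) hu2
    refine ⟨k2 * k1, KK.mul_mem hk2 hk1, fun z hz => ?_⟩
    rw [mt_mul]
    have h0 : (mt k2 * mt k1) z = mt k2 (mt k1 z) := rfl
    rw [h0, hz2, hz1]
    change gv (c • w) (gv (c • v) z.2.2) = p'
    rw [hz, Kst_gv1s c v, hvw, ← Kst_gv1s, gv_gv, hu2, one_smul]

theorem kst_fst {k : GG} (hk : k ∈ KK) (z : EE) : (mt k z).1 = z.1 := by
  obtain ⟨A, B, _, _, _, hz⟩ := kst hk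
  rw [hz]

end FF4

end
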