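import Pool.Agent.FF4.Taa
import Pool.Agent.FF4.Drb

/-! # Module Tab (difficulty 3): `Lap (tau m) = P_1 m - m`

The proofs are the same as in SPN/Tab.lean (source in the tarball). -/

open MeasureTheory
open scoped ContDiff

noncomputable section

namespace FF4

/-- a Lie derivative of a jointly smooth family is jointly smooth -/
private theorem Tab_joint {f : ℝ → EE → ℝ} (hf : ContDiff ℝ ∞ (fun p : ℝ × EE => f p.1 p.2))
    (A : Mt) : ContDiff ℝ ∞ (fun p : ℝ × EE => LX A (f p.1) p.2) := by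
  unfold LX
  refine ContDiff.neg ?_
  refine ContDiff.fderiv_apply (n := ∞) (m := ∞) (f := fun p : ℝ × EE => f p.1)
    (g := fun p : ℝ × EE => p.2) (k := fun p : ℝ × EE => A p.2) ?_ ?_ ?_ ?_
  · exact hf.comp ((contDiff_fst.comp contDiff_fst).prodMk contDiff_snd)
  · exact contDiff_snd
  · exact A.contDiff.comp contDiff_snd
  · simp

private theorem Tab_LX2_joint {m : EE → ℝ} (hm : ContDiff ℝ ∞ m) (A B : Mt) :
    ContDiff ℝ ∞ (fun p : ℝ × EE => LX A (LX B (Pt p.1 m)) p.2) :=
  Tab_joint (f := fun s => LX B (Pt s m)) (Tab_joint (f := fun s => Pt s m) (Pt_joint hm) B) A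

private theorem Tab_LX2_cont {m : EE → ℝ} (hm : ContDiff ℝ ∞ m) (A B : Mt) (z : EE) :
    Continuous (fun s => LX A (LX B (Pt s m)) z) := by
  have h := (Tab_LX2_joint hm A B).continuous
  have h2 : Continuous (fun s : ℝ => ((s, z) : ℝ × EE)) :=
    Continuous.prodMk continuous_id continuous_const
  exact Continuous.comp (g := fun p : ℝ × EE => LX A (LX B (Pt p.1 m)) p.2)
    (f := fun s : ℝ => ((s, z) : ℝ × EE)) h h2

private theorem Tab_LX2_tau {m : EE → ℝ} (hm : ContDiff ℝ ∞ m) (A B : Mt) (z : EE) :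
    LX A (LX B (tau m)) z = ∫ s in (0)..1, wf s * LX A (LX B (Pt s m)) z := by
  have h1 : LX B (tau m) = fun v => ∫ s in (0)..1, wf s * LX B (Pt s m) v := by
    funext v
    exact LX_tau hm B v
  have h2 := SPN.par_interval_fderiv (f := fun s v => LX B (Pt s m) v)
    (Tab_joint (f := fun s => Pt s m) (Pt_joint hm) B) wf_cont z (A z)
  rw [h1]
  show - (fderiv ℝ (fun v => ∫ s in (0)..1, wf s * LX B (Pt s m) v) z (A z)) = _
  rw [h2, ← intervalIntegral.integral_neg]
  refine intervalIntegral.integral_congr fun s _ => ?_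
  show -(wf s * fderiv ℝ (LX B (Pt s m)) z (A z))
    = wf s * -(fderiv ℝ (LX B (Pt s m)) z (A z))
  ring

theorem Lap_Pt_cont {m : EE → ℝ} (hm : ContDiff ℝ ∞ m) (z : EE) :
    Continuous (fun s => Lap (Pt s m) z) := by
  unfold Lap
  refine continuous_finsetSum _ fun i _ => ?_
  exact Tab_LX2_cont hm (Xm (bs i)) (Xm (bs i)) z

theorem Lap_tau_int {m : EE → ℝ} (hm : ContDiff ℝ ∞ m) (z : EE) :
    Lap (tau m) z = ∫ s in (0)..1, wf s * Lap (Pt s m) z := by
  have h0 : Lap (tau m) z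
      = ∑ i : Fin 16, ∫ s in (0)..1, wf s * Dp (bs i) (Dp (bs i) (Pt s m)) z := by
    unfold Lap
    refine Finset.sum_congr rfl fun i _ => ?_
    exact Tab_LX2_tau hm (Xm (bs i)) (Xm (bs i)) z
  rw [h0, ← intervalIntegral.integral_finsetSum]
  · refine intervalIntegral.integral_congr fun s _ => ?_
    show ∑ i : Fin 16, wf s * Dp (bs i) (Dp (bs i) (Pt s m)) z
      = wf s * ∑ i : Fin 16, Dp (bs i) (Dp (bs i) (Pt s m)) z
    rw [Finset.mul_sum]
  · intro i _
    refine ContinuousOn.intervalIntegrable ?_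
    rw [Set.uIcc_of_le zero_le_one]
    exact wf_cont.mul
      (Tab_LX2_cont hm (Xm (bs i)) (Xm (bs i)) z).continuousOn

theorem tau_lap {m : EE → ℝ} (hm : Kn m) (z : EE) :
    Lap (tau m) z = Pt 1 m z - m z := by
  have hs : ContDiff ℝ ∞ m := hm.smooth
  have hs1 : ContDiff ℝ ∞ (Dp (bs 0) m) := Dp_contDiff hs _
  have h1 : ∀ t, HasDerivAt (fun s => Pt s m z) (Pt t (Dp (bs 0) m) z) t :=
    fun t => Pt_hasDerivAt hs z t
  have h2 : ∀ t, HasDerivAt (fun s => Pt s (Dp (bs 0) m) z)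
      (Pt t (Dp (bs 0) (Dp (bs 0) m)) z) t := fun t => Pt_hasDerivAt hs1 z t
  have c1 : Continuous (fun s => Pt s m z) :=
    continuous_iff_continuousAt.2 fun t => (h1 t).continuousAt
  have c2 : Continuous (fun s => Pt s (Dp (bs 0) m) z) :=
    continuous_iff_continuousAt.2 fun t => (h2 t).continuousAt
  have hw := wf_cont
  rw [Lap_tau_int hs z]
  have key := intervalIntegral.integral_eq_sub_of_hasDerivAt_of_le (a := (0 : ℝ)) (b := 1)
    (f := fun s => wf s * Pt s (Dp (bs 0) m) z + Pt s m z)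
    (f' := fun s => wf s * Lap (Pt s m) z) zero_le_one
    ((hw.mul c2.continuousOn).add c1.continuousOn) ?_ ?_
  · rw [key]
    simp only [wf_one, wf_zero, zero_mul, zero_add]
    rw [Pt_zero hm z]
  · intro s hs'
    have h3 := ((wf_deriv hs'.1 hs'.2).mul (h2 s)).add (h1 s)
    refine h3.congr_deriv ?_
    rw [dar hm hs'.1 z]
    ring
  · refine ContinuousOn.intervalIntegrable ?_
    rw [Set.uIcc_of_le zero_le_one]
    exact hw.mul (Lap_Pt_cont hs z).continuousOn

end FF4

end
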