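import Pool.Agent.FF4.Rhoo
import Pool.Agent.FF4.Tab
import Pool.Agent.FF4.Lpk

/-! # Module Mnn (difficulty 2): the kernels `m_k`

The proofs are the same as in SPN/Mnn.lean (source in the tarball). -/

open MeasureTheory
open scoped ContDiff

noncomputable section

namespace FF4

private theorem Mnn_sgk_zero : sgk 0 = sig := rfl

private theorem Mnn_sgk_succ (k : ℕ) : sgk (k + 1) = Pt 1 (sgk k) := by
  unfold sgk
  rw [Function.iterate_succ_apply']

theorem sgk_kn (k : ℕ) : Kn (sgk k) := by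
  induction k with
  | zero => rw [Mnn_sgk_zero]; exact sig_kn
  | succ k ih => rw [Mnn_sgk_succ]; exact Pt_kn ih 1

theorem sgk_nonneg (k : ℕ) (z : EE) : 0 ≤ sgk k z := by
  induction k generalizing z with
  | zero => rw [Mnn_sgk_zero]; exact sig_nonneg z
  | succ k ih => rw [Mnn_sgk_succ]; exact Pt_nonneg ih 1 z

theorem sgk_int (k : ℕ) : ∫ g, kr (sgk k) g ∂mu = ∫ g, kr sig g ∂mu := by
  induction k with
  | zero => rw [Mnn_sgk_zero]
  | succ k ih =>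
    rw [Mnn_sgk_succ, kr_Pt, SPN.Pk_integral kp_kap isCompact_KK (sgk_kn k).bk, ih]

theorem mE_kn (k : ℕ) : Kn (mE k) :=
  Kn.cmul (Kn.sum (Finset.range k) fun j _ => tau_kn (sgk_kn j)) cc⁻¹

theorem mE_nonneg (k : ℕ) (z : EE) : 0 ≤ mE k z := by
  unfold mE
  exact mul_nonneg (inv_nonneg.2 cc_pos.le)
    (Finset.sum_nonneg fun j _ => tau_nonneg (sgk_nonneg j) z)

private theorem Mnn_rk (j : ℕ) (g : GG) :
    SPN.rk KK kap (hy (bs 0) 1) rho j g = cc⁻¹ * kr (tau (sgk j)) g := by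
  induction j generalizing g with
  | zero => rfl
  | succ j ih =>
    rw [SPN.rk_succ, Mnn_sgk_succ, tau_comm (sgk_kn j), ← SPN.Pk_cmul]
    congr 1
    funext h
    exact ih h

theorem kr_mE (k : ℕ) : kr (mE k) = SPN.mk KK kap (hy (bs 0) 1) rho k := by
  funext g
  have h1 : SPN.mk KK kap (hy (bs 0) 1) rho k g
      = ∑ j ∈ Finset.range k, cc⁻¹ * kr (tau (sgk j)) g :=
    Finset.sum_congr rfl fun j _ => Mnn_rk j g
  rw [h1, ← Finset.mul_sum]
  rfl

private theorem Mnn_Dp_cmul {m : EE → ℝ} (hm : ContDiff ℝ ∞ m) (r : ℝ) (p : PP) :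
    Dp p (fun z => r * m z) = fun z => r * Dp p m z := by
  funext z
  exact LX_cmul hm r _ z

private theorem Mnn_Dp_sum {ι : Type*} (s : Finset ι) {m : ι → EE → ℝ}
    (hm : ∀ i ∈ s, ContDiff ℝ ∞ (m i)) (p : PP) :
    Dp p (fun z => ∑ i ∈ s, m i z) = fun z => ∑ i ∈ s, Dp p (m i) z := by
  funext z
  exact LX_sum s hm _ z

private theorem Mnn_Lap_cmul {m : EE → ℝ} (hm : ContDiff ℝ ∞ m) (r : ℝ) (z : EE) :
    Lap (fun z => r * m z) z = r * Lap m z := by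
  unfold Lap
  rw [Finset.mul_sum]
  refine Finset.sum_congr rfl fun i _ => ?_
  rw [Mnn_Dp_cmul hm, Mnn_Dp_cmul (Dp_contDiff hm _)]

private theorem Mnn_Lap_sum {ι : Type*} (s : Finset ι) {m : ι → EE → ℝ}
    (hm : ∀ i ∈ s, ContDiff ℝ ∞ (m i)) (z : EE) :
    Lap (fun z => ∑ i ∈ s, m i z) z = ∑ i ∈ s, Lap (m i) z := by
  unfold Lap
  rw [Finset.sum_comm]
  refine Finset.sum_congr rfl fun i _ => ?_
  rw [Mnn_Dp_sum s hm, Mnn_Dp_sum s fun j hj => Dp_contDiff (hm j hj) _]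

theorem lap_mE (k : ℕ) (z : EE) : Lap (mE k) z = cc⁻¹ * (sgk k z - sig z) := by
  have h1 : mE k = fun z => cc⁻¹ * (fun z => ∑ j ∈ Finset.range k, tau (sgk j) z) z := rfl
  have h2 : ∀ j ∈ Finset.range k, ContDiff ℝ ∞ (tau (sgk j)) := fun j _ =>
    tau_contDiff (sgk_kn j).smooth
  have h3 : ContDiff ℝ ∞ (fun z : EE => ∑ j ∈ Finset.range k, tau (sgk j) z) :=
    ContDiff.sum h2
  rw [h1, Mnn_Lap_cmul h3, Mnn_Lap_sum _ h2]
  congr 1
  have h4 : ∀ j ∈ Finset.range k, Lap (tau (sgk j)) z = sgk (j + 1) z - sgk j z := by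
    intro j _
    rw [tau_lap (sgk_kn j), Mnn_sgk_succ]
  rw [Finset.sum_congr rfl h4, Finset.sum_range_sub (fun j => sgk j z), Mnn_sgk_zero]

theorem lap_mE_int (k : ℕ) : ∫ g, |kr (Lap (mE k)) g| ∂mu ≤ 2 * (cc⁻¹ * ∫ g, kr sig g ∂mu) := by
  have hc : 0 ≤ cc⁻¹ := inv_nonneg.2 cc_pos.le
  have h1 : ∀ g, |kr (Lap (mE k)) g| ≤ cc⁻¹ * (kr (sgk k) g + kr sig g) := by
    intro g
    have e : kr (Lap (mE k)) g = cc⁻¹ * (kr (sgk k) g - kr sig g) :=
      lap_mE k _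
    have a1 : 0 ≤ kr (sgk k) g := sgk_nonneg k _
    have a2 : 0 ≤ kr sig g := sig_nonneg _
    rw [e, abs_mul, abs_of_nonneg hc]
    refine mul_le_mul_of_nonneg_left ?_ hc
    rw [abs_le]
    constructor <;> linarith
  have i1 : Integrable (kr (sgk k)) mu := kr_integrable (sgk_kn k).toSm
  have i2 : Integrable (kr sig) mu := kr_integrable sig_kn.toSm
  have i3 : Integrable (kr (Lap (mE k))) mu := kr_integrable (mE_kn k).lap.toSm
  calc ∫ g, |kr (Lap (mE k)) g| ∂mu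
      ≤ ∫ g, cc⁻¹ * (kr (sgk k) g + kr sig g) ∂mu :=
        integral_mono i3.abs ((i1.add i2).const_mul _) h1
    _ = cc⁻¹ * (∫ g, kr (sgk k) g ∂mu + ∫ g, kr sig g ∂mu) := by
        rw [integral_const_mul, integral_add i1 i2]
    _ = 2 * (cc⁻¹ * ∫ g, kr sig g ∂mu) := by
        rw [sgk_int]; ring

end FF4

end
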