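import Pool.Agent.FF4.Smf
import Pool.Agent.FF4.Krn
import Pool.Agent.SPN.Par

/-! # Module Pts (difficulty 4): the operators `P_t`

Compare SPN/Pts.lean (source in the tarball; careful, it is slow: keep `NormedSpace.exp` opaque). `f (t, y) = m (mt (hy (bs 0) (-t)) y)` is smooth: `t ↦ mt (hy (bs 0) (-t))
= exp (-t X)` is smooth (`NormedSpace.exp_analytic` or `contDiff_exp`-like; or show by induction that
`t ↦ exp (t X)` is `C^n` from its derivative `X exp (t X)`: `contDiff_succ_iff_deriv`/`contDiff_infty_iff_deriv`).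
`Pt_kn`, `Pt_supp`: support by compactness: if `m (a_{-t} k⁻¹ g e0) ≠ 0` then `g ∈ K * (hy (bs 0)) '' [0,1] * {nm ≤ R}`, compact
(`isCompact_KK`, `continuous_hy`, `isCompact_ball`), and `nm` is bounded there (`bounded_of_compact`). -/

open MeasureTheory
open scoped ContDiff

noncomputable section

namespace FF4

section gen

variable {T : Type} [TopologicalSpace T] [CompactSpace T] [SecondCountableTopology T]
  [MeasurableSpace T] [OpensMeasurableSpace T] (ν : Measure T) [IsFiniteMeasure ν]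
  {V W : Type} [NormedAddCommGroup V] [NormedSpace ℝ V] [FiniteDimensional ℝ V]
  [NormedAddCommGroup W] [NormedSpace ℝ W] [FiniteDimensional ℝ W]

private lemma Pts_par {f : W → ℝ} (hf : ContDiff ℝ ∞ f) {M : T → V →L[ℝ] W} (hM : Continuous M)
    (v w : V) : fderiv ℝ (fun v => ∫ k, f (M k v) ∂ν) v w =
      ∫ k, fderiv ℝ (fun y => f (M k y)) v w ∂ν := by
  have h := SPN.par_hasFDerivAt ν hf (c := fun _ : T => (0 : W)) continuous_const (M := M) hM
    (A := fun _ : T => ContinuousLinearMap.id ℝ ℝ) continuous_const v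
  have e1 : (fun v => ∫ k, (ContinuousLinearMap.id ℝ ℝ) (f (0 + M k v)) ∂ν) =
      fun v => ∫ k, f (M k v) ∂ν := by
    funext v
    simp
  rw [e1] at h
  have hfd : ∀ k : T, fderiv ℝ (fun y => f (M k y)) v =
      (fderiv ℝ f (0 + M k v)).comp (M k) := by
    intro k
    rw [zero_add]
    have h2 : HasFDerivAt f (fderiv ℝ f (M k v)) (M k v) :=
      (hf.differentiable (by simp) _).hasFDerivAt
    exact (h2.comp v (M k).hasFDerivAt).fderiv
  have hMv : Continuous (fun k : T => M k v) := hM.clm_apply continuous_const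
  have hc : Continuous (fun k : T => (ContinuousLinearMap.id ℝ ℝ).comp
      ((fderiv ℝ f (0 + M k v)).comp (M k))) := by
    have hfd' : Continuous (fderiv ℝ f) := hf.continuous_fderiv (by simp)
    have h3 : Continuous (fun k : T => fderiv ℝ f (0 + M k v)) :=
      hfd'.comp (continuous_const.add hMv)
    exact continuous_const.clm_comp (h3.clm_comp hM)
  have hint : Integrable (fun k : T => (ContinuousLinearMap.id ℝ ℝ).comp
      ((fderiv ℝ f (0 + M k v)).comp (M k))) ν :=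
    hc.integrable_of_hasCompactSupport (HasCompactSupport.of_compactSpace _)
  rw [h.fderiv, ContinuousLinearMap.integral_apply hint]
  congr 1
  funext k
  rw [hfd k]
  rfl

end gen

private lemma Pts_exp (A : Mt) (n : ℕ) :
    ContDiff ℝ n (fun t : ℝ => NormedSpace.exp (t • A)) := by
  have hd : ∀ t : ℝ, HasDerivAt (fun s : ℝ => NormedSpace.exp (s • A))
      (A * NormedSpace.exp (t • A)) t := fun t => exp_der A t
  have hD : Differentiable ℝ (fun t : ℝ => NormedSpace.exp (t • A)) :=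
    fun t => (hd t).differentiableAt
  have hder : deriv (fun t : ℝ => NormedSpace.exp (t • A)) =
      fun t : ℝ => A * NormedSpace.exp (t • A) := funext fun t => (hd t).deriv
  induction n with
  | zero =>
    rw [Nat.cast_zero, contDiff_zero]
    exact hD.continuous
  | succ n ih =>
    rw [Nat.cast_succ, contDiff_succ_iff_deriv]
    refine ⟨hD, fun h => ?_, ?_⟩
    · exact absurd h (by simp)
    · rw [hder]
      exact contDiff_const.mul ih

theorem contDiff_mt_hy : ContDiff ℝ ∞ (fun t : ℝ => mt (hy (bs 0) t)) := by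
  have e : (fun t : ℝ => mt (hy (bs 0) t)) =
      fun t : ℝ => NormedSpace.exp (t • Xm (bs 0)) := by
    funext t
    exact mt_hy _ _
  rw [e, contDiff_infty]
  exact fun n => Pts_exp _ n

private lemma Pts_sc : SecondCountableTopology KK :=
  Topology.IsEmbedding.subtypeVal.secondCountableTopology (f := (Subtype.val : KK → GG))

private lemma Pts_fs {m : EE → ℝ} (hm : ContDiff ℝ ∞ m) :
    ContDiff ℝ ∞ (fun p : ℝ × EE => m (mt (hy (bs 0) (-p.1)) p.2)) := by
  apply hm.comp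
  have h1 : ContDiff ℝ ∞ (fun p : ℝ × EE => mt (hy (bs 0) (-p.1))) :=
    ContDiff.comp (g := fun t : ℝ => mt (hy (bs 0) t)) (f := fun p : ℝ × EE => -p.1)
      contDiff_mt_hy contDiff_fst.neg
  exact h1.clm_apply contDiff_snd

private lemma Pts_contM : Continuous (fun k : KK => mt ((k : GG)⁻¹)) :=
  continuous_mt.comp (continuous_inv.comp continuous_subtype_val)

private lemma Pts_cont (z : EE) : Continuous (fun k : KK => mt ((k : GG)⁻¹) z) :=
  (continuous_mt_apply z).comp (continuous_inv.comp continuous_subtype_val)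

theorem Pt_joint {m : EE → ℝ} (hm : ContDiff ℝ ∞ m) :
    ContDiff ℝ ∞ (fun p : ℝ × EE => Pt p.1 m p.2) := by
  have hsc : SecondCountableTopology KK := Pts_sc
  have h := SPN.par_contDiff kap (Pts_fs hm) (c := fun _ : KK => (0 : ℝ × EE))
    continuous_const
    (M := fun k : KK => (ContinuousLinearMap.fst ℝ ℝ EE).prod
      ((mt ((k : GG)⁻¹)).comp (ContinuousLinearMap.snd ℝ ℝ EE)))
    (by
      rw [continuous_clm_apply]
      intro v
      exact continuous_const.prodMk (Pts_cont v.2))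
    (A := fun _ : KK => ContinuousLinearMap.id ℝ ℝ) continuous_const
  have e : (fun p : ℝ × EE => Pt p.1 m p.2) = fun v : ℝ × EE =>
      ∫ k : KK, (ContinuousLinearMap.id ℝ ℝ) ((fun p : ℝ × EE =>
        m (mt (hy (bs 0) (-p.1)) p.2)) ((0 : ℝ × EE) +
        ((ContinuousLinearMap.fst ℝ ℝ EE).prod
          ((mt ((k : GG)⁻¹)).comp (ContinuousLinearMap.snd ℝ ℝ EE))) v)) ∂kap := by
    funext p
    unfold Pt
    congr 1
    funext k
    rw [zero_add]
    rfl
  rw [e]
  exact h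

theorem Pt_contDiff {m : EE → ℝ} (hm : ContDiff ℝ ∞ m) (t : ℝ) : ContDiff ℝ ∞ (Pt t m) := by
  have h2 : ContDiff ℝ ∞ (fun z : EE => ((t, z) : ℝ × EE)) :=
    contDiff_const.prodMk contDiff_id
  exact ContDiff.comp (g := fun p : ℝ × EE => Pt p.1 m p.2)
    (f := fun z : EE => ((t, z) : ℝ × EE)) (Pt_joint hm) h2

theorem Pt_hasDerivAt {m : EE → ℝ} (hm : ContDiff ℝ ∞ m) (z : EE) (t : ℝ) :
    HasDerivAt (fun s => Pt s m z) (Pt t (Dp (bs 0) m) z) t := by
  have hD : ContDiff ℝ ∞ (Dp (bs 0) m) := Dp_contDiff hm _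
  have hc : ∀ {f : EE → ℝ}, ContDiff ℝ ∞ f → Continuous (fun p : ℝ × KK =>
      f (mt (hy (bs 0) (-p.1)) (mt ((p.2 : GG)⁻¹) z))) := by
    intro f hf
    have h1 : Continuous (fun q : ℝ × EE => f (mt (hy (bs 0) (-q.1)) q.2)) :=
      (Pts_fs hf).continuous
    have h2 : Continuous (fun p : ℝ × KK => ((p.1, mt ((p.2 : GG)⁻¹) z) : ℝ × EE)) :=
      continuous_fst.prodMk ((Pts_cont z).comp continuous_snd)
    exact Continuous.comp (g := fun q : ℝ × EE => f (mt (hy (bs 0) (-q.1)) q.2))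
      (f := fun p : ℝ × KK => ((p.1, mt ((p.2 : GG)⁻¹) z) : ℝ × EE)) h1 h2
  have hcs : ∀ {f : EE → ℝ}, ContDiff ℝ ∞ f → ∀ s : ℝ, Continuous (fun k : KK =>
      f (mt (hy (bs 0) (-s)) (mt ((k : GG)⁻¹) z))) := by
    intro f hf s
    have h2 : Continuous (fun k : KK => ((s, k) : ℝ × KK)) :=
      continuous_const.prodMk continuous_id
    exact Continuous.comp (g := fun p : ℝ × KK =>
      f (mt (hy (bs 0) (-p.1)) (mt ((p.2 : GG)⁻¹) z)))
      (f := fun k : KK => ((s, k) : ℝ × KK)) (hc hf) h2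
  obtain ⟨C, hC⟩ := ((isCompact_Icc (a := t - 1) (b := t + 1)).prod
    (isCompact_univ (X := KK))).exists_bound_of_continuousOn (hc hD).continuousOn
  have hs : Set.Icc (t - 1) (t + 1) ∈ nhds t := Icc_mem_nhds (by linarith) (by linarith)
  have key := hasDerivAt_integral_of_dominated_loc_of_deriv_le (μ := kap)
    (F := fun (s : ℝ) (k : KK) => m (mt (hy (bs 0) (-s)) (mt ((k : GG)⁻¹) z)))
    (F' := fun (s : ℝ) (k : KK) =>
      Dp (bs 0) m (mt (hy (bs 0) (-s)) (mt ((k : GG)⁻¹) z)))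
    (x₀ := t) (s := Set.Icc (t - 1) (t + 1)) (bound := fun _ => C) hs
    (Filter.Eventually.of_forall fun s => (hcs hm s).aestronglyMeasurable)
    ((hcs hm t).integrable_of_hasCompactSupport (HasCompactSupport.of_compactSpace _))
    (hcs hD t).aestronglyMeasurable
    (Filter.Eventually.of_forall fun k s hsm => hC (s, k) ⟨hsm, Set.mem_univ _⟩)
    (integrable_const _)
    (Filter.Eventually.of_forall fun k s _ => hasDerivAt_hy hm (bs 0) _ s)
  exact key.2

theorem LX_Pt {m : EE → ℝ} (hm : ContDiff ℝ ∞ m) (t : ℝ) (A : Mt) (z : EE) :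
    LX A (Pt t m) z = ∫ k : KK, LX A (fun y => m (mt (hy (bs 0) (-t))
      (mt ((k : GG)⁻¹) y))) z ∂kap := by
  have hsc : SecondCountableTopology KK := Pts_sc
  have hfc : ContDiff ℝ ∞ (fun y : EE => m (mt (hy (bs 0) (-t)) y)) :=
    hm.comp (mt (hy (bs 0) (-t))).contDiff
  have h := Pts_par kap hfc Pts_contM z (A z)
  unfold LX
  rw [integral_neg]
  exact congrArg Neg.neg h

private lemma Pts_mul (g h : GG) (z : EE) : mt g (mt h z) = mt (g * h) z := rfl

open scoped Pointwise in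
private lemma Pts_compact (R : ℝ) {S : Set ℝ} (hS : IsCompact S) : ∃ R' : ℝ, ∀ g : GG, ∀ k ∈ KK,
    ∀ t ∈ S, nm (hy (bs 0) (-t) * (k⁻¹ * g)) ≤ R → nm g ≤ R' := by
  have h1 : IsCompact ((KK : Set GG) * (hy (bs 0) '' S) * {g : GG | nm g ≤ R}) :=
    (isCompact_KK.mul (hS.image (continuous_hy _))).mul (isCompact_ball R)
  obtain ⟨R', hR'⟩ := bounded_of_compact h1
  refine ⟨R', fun g k hk t ht hg => hR' g ?_⟩
  have e : g = k * hy (bs 0) t * (hy (bs 0) (-t) * (k⁻¹ * g)) := by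
    rw [hy_neg]
    group
  rw [e]
  exact Set.mul_mem_mul (Set.mul_mem_mul hk ⟨t, ht, rfl⟩) hg

private lemma Pts_supp {m : EE → ℝ} (hm : Kn m) {S : Set ℝ} (hS : IsCompact S) :
    ∃ R : ℝ, ∀ t ∈ S, ∀ g : GG, R < nm g → Pt t m (mt g e0) = 0 := by
  obtain ⟨R, hR⟩ := hm.supp
  obtain ⟨R', hR'⟩ := Pts_compact R hS
  refine ⟨R', fun t ht g hg => ?_⟩
  unfold Pt
  have h0 : ∀ k : KK, m (mt (hy (bs 0) (-t)) (mt ((k : GG)⁻¹) (mt g e0))) = 0 := by
    intro k
    rw [Pts_mul, Pts_mul]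
    apply hR
    by_contra hcon
    rw [not_lt] at hcon
    exact absurd (hR' g k k.2 t ht hcon) (not_le.2 hg)
  simp only [h0]
  simp

theorem Pt_kn {m : EE → ℝ} (hm : Kn m) (t : ℝ) : Kn (Pt t m) := by
  obtain ⟨R, hR⟩ := Pts_supp hm (isCompact_singleton (x := t))
  refine ⟨⟨Pt_contDiff hm.smooth t, ⟨R, fun g hg => hR t rfl g hg⟩⟩, ?_⟩
  intro k₀ hk₀ z
  unfold Pt
  rw [← integral_mul_left_eq_self (μ := kap) (fun k : KK => m (mt (hy (bs 0) (-t))
    (mt ((k : GG)⁻¹) (mt k₀ z)))) (⟨k₀, hk₀⟩ : KK)]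
  congr 1
  funext k
  congr 2
  rw [Pts_mul]
  have : (((⟨k₀, hk₀⟩ * k : KK) : GG))⁻¹ * k₀ = (k : GG)⁻¹ := by
    rw [Subgroup.coe_mul]
    group
  rw [this]

theorem Pt_supp {m : EE → ℝ} (hm : Kn m) : ∃ R : ℝ, ∀ t : ℝ, 0 ≤ t → t ≤ 1 → ∀ g : GG,
    R < nm g → Pt t m (mt g e0) = 0 := by
  obtain ⟨R, hR⟩ := Pts_supp hm (isCompact_Icc (a := (0 : ℝ)) (b := 1))
  exact ⟨R, fun t ht0 ht1 g hg => hR t ⟨ht0, ht1⟩ g hg⟩

theorem Pt_nonneg {m : EE → ℝ} (h0 : ∀ z, 0 ≤ m z) (t : ℝ) (z : EE) : 0 ≤ Pt t m z :=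
  integral_nonneg fun _ => h0 _

theorem Pt_zero {m : EE → ℝ} (hm : Kn m) (z : EE) : Pt 0 m z = m z := by
  unfold Pt
  have h : ∀ k : KK, m (mt (hy (bs 0) (-0)) (mt ((k : GG)⁻¹) z)) = m z := by
    intro k
    rw [neg_zero, hy_zero, mt_one]
    exact hm.left _ (KK.inv_mem k.2) z
  simp only [h]
  simp

theorem kr_Pt (m : EE → ℝ) (t : ℝ) :
    kr (Pt t m) = SPN.Pk KK kap (hy (bs 0) t) (kr m) := by
  funext g
  unfold kr Pt SPN.Pk
  congr 1
  funext k
  rw [← hy_neg]
  rfl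

end FF4

end
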