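import Pool.Agent.FF4.Kak

/-! # Module Sig (difficulty 2): the bump `σ(z) = smoothTransition (5 - z.1)`

Compare SPN/Sig.lean (source in the tarball). `K` preserves `z.1` (`kst_fst`); on `g e0`, `z.1 = nm g`. `cosh_bd`:
`(3 cosh² t - 1)/2 < 5` for `|t| ≤ 1`: `cosh 1 ^ 2 < 5` as in SPN/Sig.lean (in fact `cosh 1 < 1.55`), `(3 * 2.41 - 1)/2 < 5`. -/

open MeasureTheory
open scoped ContDiff

noncomputable section

namespace FF4

theorem sig_kn : Kn sig := by
  refine ⟨⟨?_, 5, ?_⟩, ?_⟩
  · unfold sig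
    exact Real.smoothTransition.contDiff.comp (contDiff_const.sub contDiff_fst)
  · intro g hg
    unfold sig
    apply Real.smoothTransition.zero_of_nonpos
    unfold nm at hg
    linarith
  · intro k hk z
    unfold sig
    rw [kst_fst hk]

theorem sig_nonneg (z : EE) : 0 ≤ sig z := Real.smoothTransition.nonneg _

theorem sig_pos {z : EE} (hz : z.1 < 5) : 0 < sig z := by
  unfold sig
  apply Real.smoothTransition.pos_of_pos
  linarith

theorem cosh_bd {t : ℝ} (ht : |t| ≤ 1) : (3 * Real.cosh t ^ 2 - 1) / 2 < 5 := by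
  have h1 := Real.exp_one_lt_d9
  have h2 : Real.exp (-1) < 0.5 := by
    rw [Real.exp_neg]
    have h := Real.exp_one_gt_d9
    rw [inv_lt_comm₀ (Real.exp_pos _) (by norm_num)]
    norm_num
    linarith
  have h3 : Real.cosh 1 = (Real.exp 1 + Real.exp (-1)) / 2 := Real.cosh_eq 1
  have h4 : 0 < Real.cosh t := Real.cosh_pos t
  have h5 : Real.cosh 1 < 1.7 := by
    rw [h3]
    norm_num at h1 h2 ⊢
    linarith
  have h6 : Real.cosh t ≤ Real.cosh 1 := by
    rw [Real.cosh_le_cosh, abs_one]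
    exact ht
  nlinarith

end FF4

end
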