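import Pool.Agent.FF4.Taa
import Pool.Agent.FF4.Sig
import Pool.Agent.FF4.Uni

/-! # Module Rhoo (difficulty 2): the density `ρ`

The proofs are the same as in SPN/Rhoo.lean (source in the tarball); at `k = 1` the integrand is `σ(a_{-u} a_s e0)` and
`(a_{s-u} e0).1 = nm (hy (bs 0) (s-u)) < 5` (`hy_add`, `nm_hy`, `cosh_bd`). -/

open MeasureTheory
open scoped ContDiff

noncomputable section

namespace FF4

private theorem Rhoo_cont (u : ℝ) (z : EE) : Continuous fun k : KK =>
    sig (mt (hy (bs 0) (-u)) (mt ((k : GG)⁻¹) z)) := by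
  have h1 : Continuous sig := sig_kn.smooth.continuous
  have h2 : Continuous fun k : KK => mt ((k : GG)⁻¹) z :=
    (continuous_mt_apply z).comp (continuous_inv.comp continuous_subtype_val)
  exact h1.comp ((mt (hy (bs 0) (-u))).continuous.comp h2)

private theorem Rhoo_Pt_pos {u s : ℝ} (hu0 : 0 ≤ u) (hu1 : u ≤ 1) (h0 : 0 ≤ s) (h1 : s ≤ 1) :
    0 < Pt u sig (mt (hy (bs 0) s) e0) := by
  unfold Pt
  apply Continuous.integral_pos_of_hasCompactSupport_nonneg_nonzero (x := (1 : KK))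
    (Rhoo_cont u _) (HasCompactSupport.of_compactSpace _)
  · intro k
    exact sig_nonneg _
  · apply ne_of_gt
    have e1 : mt (((1 : KK) : GG)⁻¹) = 1 := by
      rw [OneMemClass.coe_one, inv_one, mt_one]
    rw [e1]
    have e2 : mt (hy (bs 0) (-u)) ((1 : Mt) (mt (hy (bs 0) s) e0)) =
        mt (hy (bs 0) (-u + s)) e0 := by
      rw [hy_add, mt_mul]
      rfl
    rw [e2]
    apply sig_pos
    have e3 : (mt (hy (bs 0) (-u + s)) e0).1 = nm (hy (bs 0) (-u + s)) := rfl
    rw [e3, nm_hy]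
    apply cosh_bd
    rw [abs_le]
    constructor <;> linarith

private theorem Rhoo_Pt_cont (z : EE) : Continuous fun u : ℝ => Pt u sig z := by
  have h3 := (Pt_joint sig_kn.smooth).continuous
  have h4 : Continuous fun u : ℝ => ((u, z) : ℝ × EE) := by fun_prop
  have h5 := h3.comp h4
  exact h5

theorem tau_sig_pos {s : ℝ} (h0 : 0 ≤ s) (h1 : s ≤ 1) : 0 < kr (tau sig) (hy (bs 0) s) := by
  show 0 < tau sig (mt (hy (bs 0) s) e0)
  unfold tau
  apply intervalIntegral.intervalIntegral_pos_of_pos_on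
  · apply ContinuousOn.intervalIntegrable
    rw [Set.uIcc_of_le zero_le_one]
    apply wf_cont.mul
    exact (Rhoo_Pt_cont _).continuousOn
  · intro u hu
    exact mul_pos (wf_pos hu.1 hu.2) (Rhoo_Pt_pos hu.1.le hu.2.le h0 h1)
  · exact zero_lt_one

private theorem Rhoo_nonneg (g : GG) : 0 ≤ kr (tau sig) g := tau_nonneg sig_nonneg _

theorem cc_pos : 0 < cc := by
  have hk : Kn (tau sig) := tau_kn sig_kn
  unfold cc
  apply Continuous.integral_pos_of_hasCompactSupport_nonneg_nonzero (x := (1 : GG))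
    (kr_continuous hk.toSm) (kr_compact hk.toSm)
  · intro g
    exact Rhoo_nonneg g
  · apply ne_of_gt
    have := tau_sig_pos le_rfl zero_le_one
    rwa [hy_zero] at this

private theorem Rhoo_bk : SPN.Bk KK rho := by
  have hb := (tau_kn sig_kn).bk
  refine ⟨?_, ?_, ?_⟩
  · exact continuous_const.mul hb.cont
  · exact hb.supp.mul_left
  · intro k hk h
    show cc⁻¹ * kr (tau sig) (k * h) = cc⁻¹ * kr (tau sig) h
    rw [hb.left k hk h]

theorem wk_rho : SPN.Wk KK kap mu (hy (bs 0) 1) rho := by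
  obtain ⟨w, hw, _, hw2⟩ := exists_wJ
  refine ⟨kp_kap, isCompact_KK, ⟨w, hw, hw2 _ _⟩, Rhoo_bk, ?_, ?_⟩
  · intro h
    exact mul_nonneg (inv_nonneg.mpr cc_pos.le) (Rhoo_nonneg h)
  · show ∫ g, cc⁻¹ * kr (tau sig) g ∂mu = 1
    rw [integral_const_mul]
    exact inv_mul_cancel₀ cc_pos.ne'

theorem rh_rho : SPN.Rh KK (hy (bs 0)) rho := by
  refine ⟨?_, ?_⟩
  · intro k hk h
    show cc⁻¹ * kr (tau sig) (h * k) = cc⁻¹ * kr (tau sig) h
    rw [kr_right (tau sig) k hk h]
  · intro s h0 h1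
    exact mul_pos (inv_pos.mpr cc_pos) (tau_sig_pos h0 h1)

end FF4

end
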