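import Pool.Agent.FF4.Ge

/-! # Module Wfn (difficulty 2): the weight `w(s) = J(s) ∫_s^1 dr / J(r)`

The proofs are the same as in SPN/Wfn.lean (source in the tarball), with the exponents `8` and `7`. -/

open MeasureTheory

noncomputable section

namespace FF4

private theorem wfn_cont  : Continuous (Jf) := by
  unfold Jf
  exact (Real.continuous_sinh.pow _).mul
    ((Real.continuous_sinh.comp (continuous_const.mul continuous_id)).pow 7)

private theorem wfn_pos  {s : ℝ} (h0 : 0 < s) : 0 < Jf s := by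
  unfold Jf
  have h1 : 0 < Real.sinh s := Real.sinh_pos_iff.2 h0
  have h2 : 0 < Real.sinh (2 * s) := Real.sinh_pos_iff.2 (by linarith)
  positivity

private theorem wfn_int  {s : ℝ} (h0 : 0 < s) :
    IntervalIntegrable (fun r => (Jf r)⁻¹) volume s 1 := by
  refine ContinuousOn.intervalIntegrable ?_
  refine (wfn_cont).continuousOn.inv₀ ?_
  intro x hx
  have h1 : 0 < x := by
    rw [Set.mem_uIcc] at hx
    rcases hx with h | h <;> linarith [h.1]
  exact (wfn_pos h1).ne'

private theorem wfn_J  {s : ℝ} (h0 : 0 < s) :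
    HasDerivAt (Jf) (hc s * Jf s) s := by
  have h1 : 0 < Real.sinh s := Real.sinh_pos_iff.2 h0
  have h2 : 0 < Real.sinh (2 * s) := Real.sinh_pos_iff.2 (by linarith)
  have e1 := (Real.hasDerivAt_sinh s).pow (8)
  have e2 : HasDerivAt (fun x : ℝ => 2 * x) 2 s := by
    simpa using (hasDerivAt_id s).const_mul 2
  have e3 := ((Real.hasDerivAt_sinh (2 * s)).comp s e2).pow 7
  have e4 := e1.mul e3
  have e5 : HasDerivAt (Jf) _ s := e4
  convert e5 using 1
  unfold hc Jf
  have q1 : (Real.sinh ∘ HMul.hMul 2 ^ 7) s = Real.sinh (2 * s) ^ 7 := rfl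
  have q2 : (Real.sinh ^ 8) s = Real.sinh s ^ 8 := rfl
  have q3 : (Real.sinh ∘ HMul.hMul 2) s = Real.sinh (2 * s) := rfl
  rw [q1, q2, q3]
  field_simp
  push_cast
  ring

private theorem wfn_der  {s : ℝ} (h0 : 0 < s) :
    HasDerivAt (wf) (hc s * wf s - 1) s := by
  have h1 := wfn_J h0
  have hmeas : Measurable (fun r => (Jf r)⁻¹) := (wfn_cont).measurable.inv
  have h2 : HasDerivAt (fun u => ∫ r in u..1, (Jf r)⁻¹) (-(Jf s)⁻¹) s :=
    intervalIntegral.integral_hasDerivAt_left (wfn_int h0)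
      hmeas.stronglyMeasurable.stronglyMeasurableAtFilter
      ((wfn_cont).continuousAt.inv₀ (wfn_pos h0).ne')
  have h3 := h1.mul h2
  have h4 : HasDerivAt (wf) _ s := h3
  convert h4 using 1
  unfold wf
  have h5 := (wfn_pos h0).ne'
  field_simp
  ring

private theorem wfn_sinh {s r : ℝ} (h0 : 0 < s) (h1 : s ≤ r) :
    Real.sinh (2 * s) / Real.sinh (2 * r) ≤ s / r := by
  have hr : 0 < r := by linarith
  have h2 : 0 < Real.sinh (2 * r) := Real.sinh_pos_iff.2 (by linarith)
  have hcv : ConvexOn ℝ (Set.Ici (0 : ℝ)) Real.sinh := by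
    refine MonotoneOn.convexOn_of_deriv (convex_Ici 0) Real.continuous_sinh.continuousOn
      Real.differentiable_sinh.differentiableOn ?_
    rw [Real.deriv_sinh, interior_Ici]
    intro x hx y hy hxy
    rw [Set.mem_Ioi] at hx hy
    rw [Real.cosh_le_cosh, abs_of_pos hx, abs_of_pos hy]
    exact hxy
  have ht0 : 0 ≤ s / r := by positivity
  have ht1 : s / r ≤ 1 := by
    rw [div_le_one hr]
    exact h1
  have h3 := hcv.2 (show (2 * r) ∈ Set.Ici (0 : ℝ) from by
    rw [Set.mem_Ici]
    linarith) (show (0 : ℝ) ∈ Set.Ici (0 : ℝ) from Set.mem_Ici.2 le_rfl) ht0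
    (show 0 ≤ 1 - s / r by linarith) (by ring)
  simp only [smul_eq_mul, mul_zero, add_zero, Real.sinh_zero] at h3
  have h4 : s / r * (2 * r) = 2 * s := by
    field_simp
  rw [h4] at h3
  rw [div_le_iff₀ h2]
  exact h3

private theorem wfn_le  {s : ℝ} (h0 : 0 < s) (h1 : s ≤ 1) : wf s ≤ Real.negMulLog s := by
  have h2 : wf s = ∫ r in s..1, Jf s * (Jf r)⁻¹ := by
    unfold wf
    rw [intervalIntegral.integral_const_mul]
  have h3 : ∫ r in s..1, s * r⁻¹ = Real.negMulLog s := by
    rw [intervalIntegral.integral_const_mul, integral_inv_of_pos h0 one_pos, Real.log_div one_ne_zero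
      h0.ne', Real.log_one, Real.negMulLog]
    ring
  rw [h2, ← h3]
  refine intervalIntegral.integral_mono_on h1 ((wfn_int h0).const_mul _) ?_ ?_
  · refine ContinuousOn.intervalIntegrable ?_
    refine continuousOn_const.mul (continuousOn_id.inv₀ ?_)
    intro x hx
    rw [Set.uIcc_of_le h1] at hx
    have : 0 < x := lt_of_lt_of_le h0 hx.1
    exact this.ne'
  · intro r hr
    have hr0 : 0 < r := lt_of_lt_of_le h0 hr.1
    have hS : 0 < Real.sinh s := Real.sinh_pos_iff.2 h0
    have hR : 0 < Real.sinh r := Real.sinh_pos_iff.2 hr0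
    have hS2 : 0 < Real.sinh (2 * s) := Real.sinh_pos_iff.2 (by linarith)
    have hR2 : 0 < Real.sinh (2 * r) := Real.sinh_pos_iff.2 (by linarith)
    have e1 : Jf s * (Jf r)⁻¹ = (Real.sinh s / Real.sinh r) ^ (8) *
        (Real.sinh (2 * s) / Real.sinh (2 * r)) ^ 7 := by
      unfold Jf
      rw [div_pow, div_pow, mul_inv]
      ring
    have e2 : (Real.sinh s / Real.sinh r) ^ (8) ≤ 1 := by
      refine pow_le_one₀ (by positivity) ?_
      rw [div_le_one hR, Real.sinh_le_sinh]
      exact hr.1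
    have hq : Real.sinh (2 * s) / Real.sinh (2 * r) ≤ s / r := wfn_sinh h0 hr.1
    have hsr : s / r ≤ 1 := by
      rw [div_le_one hr0]
      exact hr.1
    have hsr0 : 0 ≤ s / r := by positivity
    have e3 : (Real.sinh (2 * s) / Real.sinh (2 * r)) ^ 7 ≤ s / r := by
      calc (Real.sinh (2 * s) / Real.sinh (2 * r)) ^ 7 ≤ (s / r) ^ 7 :=
            pow_le_pow_left₀ (by positivity) hq 7
        _ ≤ (s / r) ^ 1 := pow_le_pow_of_le_one hsr0 hsr (by norm_num)
        _ = s / r := pow_one _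
    rw [e1]
    calc (Real.sinh s / Real.sinh r) ^ (8) *
        (Real.sinh (2 * s) / Real.sinh (2 * r)) ^ 7 ≤ 1 * (s / r) :=
          mul_le_mul e2 e3 (by positivity) (by norm_num)
      _ = s * r⁻¹ := by rw [one_mul, div_eq_mul_inv]

theorem wf_zero : wf 0 = 0 := by
  unfold wf Jf
  simp

theorem wf_one : wf 1 = 0 := by
  unfold wf
  simp

theorem wf_nonneg {s : ℝ} (h0 : 0 ≤ s) (h1 : s ≤ 1) : 0 ≤ wf s := by
  rcases h0.eq_or_lt with h | h
  · rw [← h, wf_zero]
  · unfold wf
    refine mul_nonneg (wfn_pos h).le (intervalIntegral.integral_nonneg h1 ?_)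
    intro r hr
    exact (inv_pos.2 (wfn_pos (lt_of_lt_of_le h hr.1))).le

theorem wf_pos {s : ℝ} (h0 : 0 < s) (h1 : s < 1) : 0 < wf s := by
  unfold wf
  refine mul_pos (wfn_pos h0) ?_
  refine intervalIntegral.intervalIntegral_pos_of_pos_on (wfn_int h0) ?_ h1
  intro r hr
  exact inv_pos.2 (wfn_pos (lt_trans h0 hr.1))

theorem wf_cont : ContinuousOn (wf) (Set.Icc 0 1) := by
  intro s hs
  rcases hs.1.eq_or_lt with h | h
  · rw [← h]
    unfold ContinuousWithinAt
    rw [wf_zero]
    have h1 : Filter.Tendsto Real.negMulLog (nhdsWithin 0 (Set.Icc 0 1)) (nhds 0) := by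
      have h2 := (Real.continuous_negMulLog.continuousAt (x := 0)).continuousWithinAt
        (s := Set.Icc (0 : ℝ) 1)
      unfold ContinuousWithinAt at h2
      rwa [Real.negMulLog_zero] at h2
    refine tendsto_of_tendsto_of_tendsto_of_le_of_le' tendsto_const_nhds h1 ?_ ?_
    · filter_upwards [self_mem_nhdsWithin] with x hx
      exact wf_nonneg hx.1 hx.2
    · filter_upwards [self_mem_nhdsWithin] with x hx
      rcases hx.1.eq_or_lt with h3 | h3
      · rw [← h3, wf_zero, Real.negMulLog_zero]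
      · exact wfn_le h3 hx.2
  · exact (wfn_der h).continuousAt.continuousWithinAt

theorem wf_deriv {s : ℝ} (h0 : 0 < s) (h1 : s < 1) :
    HasDerivAt (wf) (hc s * wf s - 1) s :=
  wfn_der h0

end FF4

end
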