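import Pool.Agent.FF4.Pts
import Pool.Agent.FF4.Wfn
import Pool.Agent.SPN.Gel

/-! # Module Taa (difficulty 2): the operator `tau`

The proofs are the same as in SPN/Taa.lean (source in the tarball). -/

open MeasureTheory
open scoped ContDiff

noncomputable section

namespace FF4

private theorem Taa_swap {V : Type*} [TopologicalSpace V] {T : Type*} [TopologicalSpace T]
    [CompactSpace T] [SecondCountableTopology T] [MeasurableSpace T] [BorelSpace T]
    (κ : Measure T) [IsFiniteMeasure κ] {φ : ℝ → V → ℝ}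
    (hφ : Continuous (fun p : ℝ × V => φ p.1 p.2)) {w : ℝ → ℝ}
    (hw : ContinuousOn w (Set.Icc 0 1)) {ψ : T → V} (hψ : Continuous ψ) :
    ∫ s in Set.Icc (0 : ℝ) 1, ∫ k : T, w s * φ s (ψ k) ∂κ
      = ∫ k : T, (∫ s in Set.Icc (0 : ℝ) 1, w s * φ s (ψ k)) ∂κ := by
  have h1 : Continuous (fun p : ℝ × T => φ p.1 (ψ p.2)) :=
    hφ.comp (continuous_fst.prodMk (hψ.comp continuous_snd))
  have hco : ContinuousOn (fun p : ℝ × T => w p.1 * φ p.1 (ψ p.2))
      (Set.Icc (0 : ℝ) 1 ×ˢ (Set.univ : Set T)) :=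
    (hw.comp continuousOn_fst (fun p hp => hp.1)).mul h1.continuousOn
  have hm : MeasurableSet (Set.Icc (0 : ℝ) 1 ×ˢ (Set.univ : Set T)) :=
    measurableSet_Icc.prod MeasurableSet.univ
  have h3 := ContinuousOn.integrableOn_compact' (μ := (volume : Measure ℝ).prod κ)
    (isCompact_Icc.prod isCompact_univ) hm hco
  rw [IntegrableOn, ← Measure.prod_restrict, Measure.restrict_univ] at h3
  exact integral_integral_swap (f := fun s k => w s * φ s (ψ k)) h3

theorem tau_contDiff {m : EE → ℝ} (hm : ContDiff ℝ ∞ m) : ContDiff ℝ ∞ (tau m) := by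
  exact SPN.par_interval (f := fun s z => Pt s m z) (Pt_joint hm) wf_cont

theorem LX_tau {m : EE → ℝ} (hm : ContDiff ℝ ∞ m) (A : Mt) (z : EE) :
    LX A (tau m) z = ∫ s in (0)..1, wf s * LX A (Pt s m) z := by
  have h1 : fderiv ℝ (tau m) z (A z) = ∫ s in (0)..1, wf s * fderiv ℝ (Pt s m) z (A z) :=
    SPN.par_interval_fderiv (f := fun s z => Pt s m z) (Pt_joint hm) wf_cont z (A z)
  unfold LX
  rw [h1, ← intervalIntegral.integral_neg]
  congr 1
  funext s
  ring

theorem tau_kn {m : EE → ℝ} (hm : Kn m) : Kn (tau m) := by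
  refine { smooth := tau_contDiff hm.smooth, supp := ?_, left := ?_ }
  · obtain ⟨R, hR⟩ := Pt_supp hm
    refine ⟨R, fun g hg => ?_⟩
    unfold tau
    rw [intervalIntegral.integral_congr (g := fun _ => (0 : ℝ))]
    · simp
    · intro s hs
      rw [Set.uIcc_of_le zero_le_one] at hs
      simp only
      rw [hR s hs.1 hs.2 g hg, mul_zero]
  · intro k hk z
    unfold tau
    congr 1
    funext s
    rw [(Pt_kn hm s).left k hk z]

theorem tau_nonneg {m : EE → ℝ} (h0 : ∀ z, 0 ≤ m z) (z : EE) : 0 ≤ tau m z := by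
  exact intervalIntegral.integral_nonneg zero_le_one
    (fun s hs => mul_nonneg (wf_nonneg hs.1 hs.2) (Pt_nonneg h0 s z))

theorem tau_comm {m : EE → ℝ} (hm : Kn m) :
    kr (tau (Pt 1 m)) = SPN.Pk KK kap (hy (bs 0) 1) (kr (tau m)) := by
  have hax : SPN.Ax KK (hy (bs 0)) := ax_hy
  funext g
  obtain ⟨ψ, hψdef⟩ : ∃ ψ : KK → EE, ψ = fun k : KK =>
    mt ((hy (bs 0) 1)⁻¹ * ((k : GG))⁻¹ * g) e0 := ⟨_, rfl⟩
  have hψ : Continuous ψ := by
    rw [hψdef]
    refine (continuous_mt_apply e0).comp ?_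
    exact (continuous_const.mul continuous_subtype_val.inv).mul continuous_const
  have hs : ∀ s : ℝ, Pt s (Pt 1 m) (mt g e0)
      = ∫ k : KK, Pt s m (ψ k) ∂kap := by
    intro s
    have h1 : kr (Pt s (Pt 1 m)) = SPN.Pk KK kap (hy (bs 0) 1) (kr (Pt s m)) := by
      rw [kr_Pt, kr_Pt, kr_Pt]
      exact SPN.Pk_comm kp_kap isCompact_KK hax hm.bk (kr_right m) _ _
    rw [hψdef]
    exact congrFun h1 g
  have e1 : kr (tau (Pt 1 m)) g = ∫ s in Set.Icc (0 : ℝ) 1, ∫ k : KK,
      wf s * Pt s m (ψ k) ∂kap := by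
    have e3 : kr (tau (Pt 1 m)) g
        = ∫ s in (0)..1, wf s * Pt s (Pt 1 m) (mt g e0) := rfl
    rw [e3, intervalIntegral.integral_of_le zero_le_one, ← integral_Icc_eq_integral_Ioc]
    congr 1
    funext s
    rw [hs s, integral_const_mul]
  have e2 : SPN.Pk KK kap (hy (bs 0) 1) (kr (tau m)) g = ∫ k : KK,
      (∫ s in Set.Icc (0 : ℝ) 1, wf s * Pt s m (ψ k)) ∂kap := by
    have e3 : SPN.Pk KK kap (hy (bs 0) 1) (kr (tau m)) g
        = ∫ k : KK, (∫ s in (0)..1, wf s * Pt s m (ψ k)) ∂kap := by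
      rw [hψdef]
      rfl
    rw [e3]
    congr 1
    funext k
    rw [intervalIntegral.integral_of_le zero_le_one, ← integral_Icc_eq_integral_Ioc]
  rw [e1, e2]
  have hsc : SecondCountableTopology KK :=
    (Topology.IsEmbedding.subtypeVal (p := fun g : GG => g ∈ KK)).secondCountableTopology
  exact Taa_swap kap (φ := fun s z => Pt s m z) (Pt_joint hm.smooth).continuous
    wf_cont hψ

end FF4

end
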