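import Pool.Agent.FF4.Fin

/-! # FF4: transfer of the theorem to the group of linear bijections with the pointwise topology -/

open MeasureTheory

noncomputable section

namespace FF4

open Classical in
theorem trans_core {G G' : Type*} [Group G] [TopologicalSpace G] [MeasurableSpace G] [BorelSpace G]
    [Group G'] [TopologicalSpace G'] [IsTopologicalGroup G'] [LocallyCompactSpace G']
    [SecondCountableTopology G'] [MeasurableSpace G'] [BorelSpace G'] [IsTopologicalGroup G]
    (e : G ≃* G') (he : Continuous e)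
    (he' : Continuous e.symm) (μ : Measure G) [μ.IsHaarMeasure] (μ' : Measure G')
    [μ'.IsHaarMeasure] {X : Type*} [LinearOrder X]
    (hG' : ∀ (Γ : Subgroup G') (π : G' → Γ), SPN.Dm μ' Γ π → ∀ ψ : Γ →* (X ≃o X), ψ = 1)
    (Γ : Subgroup G) (π : G → Γ) (hD : SPN.Dm μ Γ π) (ψ : Γ →* (X ≃o X)) : ψ = 1 := by
  have hν : (Measure.map e μ).IsHaarMeasure := MulEquiv.isHaarMeasure_map μ e he he'
  have hc := Measure.isMulLeftInvariant_eq_smul (Measure.map e μ) μ'
  have hcp := Measure.haarScalarFactor_pos_of_isHaarMeasure (Measure.map e μ) μ'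
  let eΓ : Γ ≃* Γ.map e.toMonoidHom := e.subgroupMap Γ
  let π' : G' → Γ.map e.toMonoidHom := fun g' => eΓ (π (e.symm g'))
  have hpre : ∀ γ' : Γ.map e.toMonoidHom, π' ⁻¹' {γ'} = e.symm ⁻¹' (π ⁻¹' {eΓ.symm γ'}) := by
    intro γ'
    ext g'
    simp only [Set.mem_preimage, Set.mem_singleton_iff, π']
    exact ⟨fun h => by rw [← h, MulEquiv.symm_apply_apply], fun h => by
      rw [h, MulEquiv.apply_symm_apply]⟩
  have hmeas : ∀ γ' : Γ.map e.toMonoidHom, MeasurableSet (π' ⁻¹' {γ'}) := by
    intro γ'
    rw [hpre]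
    exact he'.measurable (hD.meas _)
  have hD' : SPN.Dm μ' (Γ.map e.toMonoidHom) π' := by
    refine ⟨?_, hmeas, ?_, ?_⟩
    · have := hD.cnt
      exact Countable.of_equiv _ eΓ.toEquiv
    · intro γ' g'
      show eΓ (π (e.symm ((γ' : G') * g'))) = γ' * eΓ (π (e.symm g'))
      have h1 : e.symm ((γ' : G') * g') = ((eΓ.symm γ' : Γ) : G) * e.symm g' := by
        rw [map_mul]
        congr 1
      rw [h1, hD.equiv, map_mul, MulEquiv.apply_symm_apply]
    · have h1 : (Measure.map e μ) (π' ⁻¹' {1}) < ⊤ := by
        rw [Measure.map_apply he.measurable (hmeas 1)]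
        have h2 : e ⁻¹' (π' ⁻¹' {1}) = π ⁻¹' {1} := by
          rw [hpre, map_one]
          ext g
          simp
        rw [h2]
        exact hD.fin
      rw [hc] at h1
      have h2 : (Measure.haarScalarFactor (Measure.map e μ) μ' • μ') (π' ⁻¹' {1}) =
          (Measure.haarScalarFactor (Measure.map e μ) μ' : ENNReal) * μ' (π' ⁻¹' {1}) := rfl
      rw [h2] at h1
      exact (ENNReal.mul_lt_top_iff.1 h1).elim (fun h => h.2) (fun h => h.elim
        (fun h => absurd h (by exact_mod_cast hcp.ne')) (fun h => by rw [h]; exact ENNReal.zero_lt_top))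
  have h := hG' _ π' hD' (ψ.comp eΓ.symm.toMonoidHom)
  ext γ x
  have h2 := DFunLike.congr_fun h (eΓ γ)
  have h3 : (ψ.comp eΓ.symm.toMonoidHom) (eΓ γ) = ψ γ := by
    show ψ (eΓ.symm (eΓ γ)) = ψ γ
    rw [MulEquiv.symm_apply_apply]
  rw [← h3, h2]
  rfl

/-- linear bijections as units of the algebra of endomorphisms -/
def lu : (EE ≃ₗ[ℝ] EE) →* Mtˣ where
  toFun A := ⟨LinearMap.toContinuousLinearMap A.toLinearMap,
    LinearMap.toContinuousLinearMap A.symm.toLinearMap,
    by
      refine ContinuousLinearMap.ext fun z => ?_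
      exact A.apply_symm_apply z,
    by
      refine ContinuousLinearMap.ext fun z => ?_
      exact A.symm_apply_apply z⟩
  map_one' := Units.ext rfl
  map_mul' A B := Units.ext rfl

theorem lu_apply (A : EE ≃ₗ[ℝ] EE) (z : EE) : ((lu A : Mtˣ) : Mt) z = A z := rfl

theorem lu_injective : Function.Injective lu := by
  intro A B h
  refine LinearEquiv.ext fun z => ?_
  rw [← lu_apply, ← lu_apply, h]

theorem lu_surjective : Function.Surjective lu := by
  intro u
  have h1 : ∀ z, (u : Mt) (((u⁻¹ : Mtˣ) : Mt) z) = z := by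
    intro z
    have h2 : ((u : Mt) * ((u⁻¹ : Mtˣ) : Mt)) z = z := by rw [u.mul_inv]; rfl
    exact h2
  have h3 : ∀ z, ((u⁻¹ : Mtˣ) : Mt) ((u : Mt) z) = z := by
    intro z
    have h2 : (((u⁻¹ : Mtˣ) : Mt) * (u : Mt)) z = z := by rw [u.inv_mul]; rfl
    exact h2
  refine ⟨LinearEquiv.ofLinearMap ((u : Mt) : EE →ₗ[ℝ] EE) (((u⁻¹ : Mtˣ) : Mt) : EE →ₗ[ℝ] EE)
    (LinearMap.ext h1) (LinearMap.ext h3), Units.ext (ContinuousLinearMap.ext fun z => rfl)⟩

/-- `G` acts through `a` on `ℝ ⊕ ℝ^9 ⊕ ℝ^16` as the group `F_4^(-20)`: faithfully, by all linear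
bijections which preserve `Qf` and `Cf`, and its topology is that of pointwise convergence (the
topology of the matrices). -/
structure IsF4 {G : Type*} [Group G] [TopologicalSpace G] (a : G → EE → EE) : Prop where
  mul : ∀ g h z, a (g * h) z = a g (a h z)
  injective : Function.Injective a
  range : ∀ f : EE → EE, (∃ g, a g = f) ↔
    IsLinearMap ℝ f ∧ Function.Bijective f ∧ ∀ z, Qf (f z) = Qf z ∧ Cf (f z) = Cf z
  inducing : Topology.IsInducing a

section abs

variable {G : Type*} [Group G] [TopologicalSpace G] {a : G → EE → EE} (ha : IsF4 a)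

include ha

theorem IsF4.one (z : EE) : a 1 z = z := by
  have h1 := ((ha.range (a 1)).1 ⟨1, rfl⟩).2.1.1
  apply h1
  rw [← ha.mul, one_mul]

/-- the linear bijections -/
def IsF4.le (g : G) : EE ≃ₗ[ℝ] EE :=
  LinearEquiv.ofBijective (IsLinearMap.mk' (a g) ((ha.range (a g)).1 ⟨g, rfl⟩).1)
    ((ha.range (a g)).1 ⟨g, rfl⟩).2.1

theorem IsF4.le_apply (g : G) (z : EE) : ha.le g z = a g z := rfl

/-- comparison with `GG` -/
def IsF4.eq : G ≃* GG :=
  MulEquiv.ofBijective
    ({ toFun := fun g => ⟨lu (ha.le g), ((ha.range (a g)).1 ⟨g, rfl⟩).2.2⟩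
       map_one' := Subtype.ext (Units.ext (ContinuousLinearMap.ext fun z => ha.one z))
       map_mul' := fun g h => Subtype.ext (Units.ext (ContinuousLinearMap.ext fun z =>
         ha.mul g h z)) } : G →* GG)
    (by
      constructor
      · intro g h hgh
        apply ha.injective
        funext z
        have h1 : lu (ha.le g) = lu (ha.le h) := Subtype.ext_iff.1 hgh
        have h2 := lu_injective h1
        rw [← ha.le_apply, ← ha.le_apply, h2]
      · intro g
        obtain ⟨A, hA⟩ := lu_surjective g.1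
        have hb : ∃ x, a x = (A : EE → EE) := by
          refine (ha.range _).2 ⟨⟨fun x y => map_add A x y, fun c x => map_smul A c x⟩,
            A.bijective, ?_⟩
          intro z
          have h := g.2 z
          rw [← hA] at h
          exact h
        obtain ⟨x, hx⟩ := hb
        refine ⟨x, Subtype.ext ?_⟩
        rw [← hA]
        refine Units.ext (ContinuousLinearMap.ext fun z => ?_)
        exact congrFun hx z)

theorem IsF4.mt_eq (g : G) (z : EE) : mt (ha.eq g) z = a g z := rfl

theorem IsF4.continuous_eq : Continuous ha.eq := by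
  refine continuous_induced_rng.2 ?_
  refine Units.isOpenEmbedding_val.isInducing.continuous_iff.2 ?_
  refine continuous_clm_apply.2 fun z => ?_
  exact (continuous_apply z).comp ha.inducing.continuous

theorem IsF4.continuous_eq_symm : Continuous ha.eq.symm := by
  refine ha.inducing.continuous_iff.2 ?_
  refine continuous_pi fun z => ?_
  have h : (fun g : GG => (a ∘ ha.eq.symm) g z) = fun g : GG => mt g z := by
    funext g
    show a (ha.eq.symm g) z = mt g z
    rw [← ha.mt_eq, MulEquiv.apply_symm_apply]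
  rw [h]
  exact continuous_mt_apply z

/-- the homeomorphism -/
def IsF4.heq : G ≃ₜ GG where
  toEquiv := ha.eq.toEquiv
  continuous_toFun := ha.continuous_eq
  continuous_invFun := ha.continuous_eq_symm

theorem IsF4.isTopologicalGroup : IsTopologicalGroup G := ha.heq.isInducing.topologicalGroup ha.eq

theorem IsF4.t2Space : T2Space G := ha.heq.isEmbedding.t2Space

theorem IsF4.locallyCompactSpace : LocallyCompactSpace G :=
  ha.heq.isClosedEmbedding.locallyCompactSpace

theorem IsF4.secondCountableTopology : SecondCountableTopology G :=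
  ha.heq.secondCountableTopology

theorem IsF4.main [MeasurableSpace G] [BorelSpace G] (μ : Measure G) [μ.IsHaarMeasure]
    {X : Type*} [LinearOrder X]
    (Γ : Subgroup G) (π : G → Γ) (hD : SPN.Dm μ Γ π) (ψ : Γ →* (X ≃o X)) : ψ = 1 :=
  have := ha.isTopologicalGroup
  trans_core ha.eq ha.continuous_eq ha.continuous_eq_symm μ mu
    (fun _ _ hD' ψ' => ff4_core hD' ψ') Γ π hD ψ

end abs

/-- the group `GG` with its matrices is an example -/
theorem isF4_GG : IsF4 (fun (g : GG) (z : EE) => mt g z) := by
  refine ⟨fun g h z => rfl, ?_, ?_, ?_⟩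
  · intro g h hgh
    apply mt_injective
    exact ContinuousLinearMap.ext fun z => congrFun hgh z
  · intro f
    constructor
    · rintro ⟨g, rfl⟩
      refine ⟨⟨fun x y => map_add (mt g) x y, fun c x => map_smul (mt g) c x⟩, ?_, fun z => g.2 z⟩
      refine Function.bijective_iff_has_inverse.2 ⟨fun z => mt g⁻¹ z, fun z => ?_, fun z => ?_⟩
      · show (mt g⁻¹ * mt g) z = z
        rw [mt_inv_mul]; rfl
      · show (mt g * mt g⁻¹) z = z
        rw [mt_mul_inv]; rfl
    · rintro ⟨hl, hb, hf⟩
      let A : EE ≃ₗ[ℝ] EE := LinearEquiv.ofBijective (IsLinearMap.mk' f hl) hb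
      exact ⟨⟨lu A, hf⟩, rfl⟩
  · have h1 : Topology.IsInducing (fun (A : Mt) (z : EE) => A z) := by
      refine ⟨le_antisymm ?_ ?_⟩
      · rw [← continuous_iff_le_induced]
        exact continuous_pi fun z => (ContinuousLinearMap.apply ℝ EE z).continuous
      · have h2 : @Continuous Mt Mt (TopologicalSpace.induced (fun (A : Mt) (z : EE) => A z)
            inferInstance) inferInstance id := by
          let _ : TopologicalSpace Mt := TopologicalSpace.induced (fun (A : Mt) (z : EE) => A z)
            inferInstance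
          refine (continuous_clm_apply (f := id)).2 fun z => ?_
          exact (continuous_apply z).comp continuous_induced_dom
        exact continuous_id_iff_le.1 h2
    exact h1.comp (Units.isOpenEmbedding_val.isInducing.comp Topology.IsInducing.subtypeVal)

end FF4

end
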